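import Mathlib

/-! The `n`-term abc conjecture: many exceptions. Definitions and the statements of the pieces
(helper71, project NX). -/

set_option autoImplicit false

namespace Pool.Agent.K1H71.NX

open Finset

/-- coprime integers with sum zero and no vanishing proper subsum -/
def Adm {n : ℕ} (x : Fin n → ℤ) : Prop :=
  univ.gcd x = 1 ∧ ∑ i, x i = 0 ∧
    ∀ I : Finset (Fin n), I.Nonempty → I ≠ univ → ∑ i ∈ I, x i ≠ 0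

/-- the product of the primes dividing `a` -/
def rad (a : ℤ) : ℕ := ∏ p ∈ a.natAbs.primeFactors, p

/-- an admissible tuple with radical at most `X`, all coordinates at most `Y`, and
`K rad ^ M < max |x i|` -/
structure Good {n : ℕ} (M K X Y : ℝ) (x : Fin n → ℤ) : Prop where
  adm : Adm x
  rad_le : (rad (∏ i, x i) : ℝ) ≤ X
  big : ∃ i, K * (rad (∏ i, x i) : ℝ) ^ M < |(x i : ℝ)|
  small : ∀ i, |(x i : ℝ)| ≤ Y

/-- for every `K`, at least `c X ^ e` good `n`-tuples with coordinates at most `C X ^ A` -/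
def LB (n : ℕ) (M A e : ℝ) : Prop :=
  ∀ K : ℝ, 0 < K → ∃ c C X₀ : ℝ, 0 < c ∧ 0 < C ∧ ∀ X : ℝ, X₀ ≤ X →
    ∃ T : Finset (Fin n → ℤ), (∀ x ∈ T, Good M K X (C * X ^ A) x) ∧ c * X ^ e ≤ (T.card : ℝ)

/-- at least `c X ^ e` coprime positive `h`-tuples `a` with sum between `K X ^ κ` and `C X ^ A` and
`rad (a_1) ⋯ rad (a_h) rad (a_1 + ⋯ + a_h) ≤ X` -/
def PosLB (h : ℕ) (κ A e : ℝ) : Prop :=
  ∀ K : ℝ, 0 < K → ∃ c C X₀ : ℝ, 0 < c ∧ 0 < C ∧ ∀ X : ℝ, X₀ ≤ X →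
    ∃ T : Finset (Fin h → ℤ), (∀ a ∈ T, (∀ i, 0 < a i) ∧ univ.gcd a = 1 ∧
      (∏ i, (rad (a i) : ℝ)) * (rad (∑ i, a i) : ℝ) ≤ X ∧
      K * X ^ κ ≤ ((∑ i, a i : ℤ) : ℝ) ∧ ((∑ i, a i : ℤ) : ℝ) ≤ C * X ^ A) ∧
      c * X ^ e ≤ (T.card : ℝ)

/-- MONO: one more term -/
def S_MONO : Prop :=
  ∀ (n : ℕ) (M A e : ℝ), 2 ≤ n → 0 ≤ M → LB n M A e → LB (n + 1) M A e

/-- COMP: the multinomial theorem `(a_1 + ⋯ + a_h) ^ m = ∑ multinomial * a ^ α` -/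
def S_COMP : Prop :=
  ∀ (h m : ℕ) (κ A e : ℝ), 2 ≤ h → 1 ≤ m → 0 ≤ κ → PosLB h κ A e →
    LB ((m + h - 1).choose m + 1) (m * κ) (m * A) e

/-- POS1: small exponents -/
def S_POS1 : Prop :=
  ∀ (h : ℕ) (κ : ℝ), 2 ≤ h → 0 ≤ κ → κ < 1 / ((h : ℝ) + 1) →
    PosLB h κ (1 / ((h : ℝ) + 1)) ((h : ℝ) / ((h : ℝ) + 1))

/-- POS2: exponents between `1 / (h + 1)` and `1 / h` -/
def S_POS2 : Prop :=
  ∀ (h : ℕ) (κ δ : ℝ), 2 ≤ h → 1 / ((h : ℝ) + 1) ≤ κ → κ < 1 / (h : ℝ) → 0 < δ →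
    PosLB h κ (κ + δ) (1 - κ - δ)

/-- the identity behind the tuples of Browkin and Brzezinski -/
structure War (r : ℕ) (e : ℕ → ℕ) : Prop where
  one : e 0 = 1
  pos : ∀ j, j ≤ r → 0 < e j
  eq : ∀ (R : Type) [CommRing R] (a b : R), a ^ (2 * r + 1) + b ^ (2 * r + 1) =
    ∑ j ∈ range (r + 1), (-1) ^ j * (e j : R) * (a * b) ^ j * (a + b) ^ (2 * r + 1 - 2 * j)

/-- WAR: Waring's identity -/
def S_WAR : Prop := ∀ r : ℕ, ∃ e : ℕ → ℕ, War r e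

/-- a subsum of the identity -/
def subsum (r : ℕ) (e : ℕ → ℕ) (s t : Bool) (J : Finset ℕ) (a b : ℤ) : ℤ :=
  (if s then a ^ (2 * r + 1) else 0) + (if t then b ^ (2 * r + 1) else 0) -
    ∑ j ∈ J, (-1) ^ j * (e j : ℤ) * (a * b) ^ j * (a + b) ^ (2 * r + 1 - 2 * j)

/-- NVS: a proper subsum vanishes at finitely many coprime pairs only -/
def S_NVS : Prop :=
  ∀ (r : ℕ) (e : ℕ → ℕ), War r e → ∀ (s t : Bool) (J : Finset ℕ), J ⊆ range (r + 1) →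
    ¬(s = false ∧ t = false ∧ J = ∅) → ¬(s = true ∧ t = true ∧ J = range (r + 1)) →
    {P : ℤ × ℤ | IsCoprime P.1 P.2 ∧ subsum r e s t J P.1 P.2 = 0}.Finite

/-- BB: the tuples of Browkin and Brzezinski; `n = r + 3`, degree `2 r + 1 = 2 n - 5` -/
def S_BB : Prop :=
  ∀ r : ℕ, ∃ (x : ℤ × ℤ → Fin (r + 3) → ℤ) (E : ℕ) (F : Finset (ℤ × ℤ)), 0 < E ∧
    Function.Injective x ∧
    ∀ P : ℤ × ℤ, IsCoprime P.1 P.2 → P.1 ≠ 0 → P.2 ≠ 0 → P.1 + P.2 ≠ 0 →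
      (P ∉ F → Adm (x P)) ∧
      rad (∏ i, x P i) ≤ E * rad (P.1 * P.2 * (P.1 + P.2)) ∧
      (∃ i, max P.1.natAbs P.2.natAbs ^ (2 * r + 1) ≤ (x P i).natAbs) ∧
      ∀ i, (x P i).natAbs ≤ E * max P.1.natAbs P.2.natAbs ^ (2 * r + 1)

end Pool.Agent.K1H71.NX
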