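import Pool.Agent.K1H71.NX.Defs

/-! The `n`-term abc conjecture: exceptions with many terms, polynomial rate. Statements of the new
pieces (helper71, project NX2). -/

set_option autoImplicit false

namespace Pool.Agent.K1H71.NX

open Finset

/-- at least `c X ^ e` tuples of `g + 2` positive numbers, the first one coprime to the sum, with sum
between `K X ^ κ` and `C X ^ A` and `rad (a_0) ⋯ rad (a_(g + 1)) rad (a_0 + ⋯ + a_(g + 1)) ≤ X` -/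
def PosLB2 (g : ℕ) (κ A e : ℝ) : Prop :=
  ∀ K : ℝ, 0 < K → ∃ c C X₀ : ℝ, 0 < c ∧ 0 < C ∧ ∀ X : ℝ, X₀ ≤ X →
    ∃ T : Finset (Fin (g + 2) → ℤ), (∀ a ∈ T, (∀ i, 0 < a i) ∧ IsCoprime (a 0) (∑ i, a i) ∧
      (∏ i, (rad (a i) : ℝ)) * (rad (∑ i, a i) : ℝ) ≤ X ∧
      K * X ^ κ ≤ ((∑ i, a i : ℤ) : ℝ) ∧ ((∑ i, a i : ℤ) : ℝ) ≤ C * X ^ A) ∧
      c * X ^ e ≤ (T.card : ℝ)

/-- COMP2: the identity `s ^ m = a_0 ^ m + ∑_(i < m) ∑_(j ≥ 1) a_j a_0 ^ i s ^ (m - 1 - i)`,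
`s = a_0 + ⋯ + a_(g + 1)` -/
def S_COMP2 : Prop :=
  ∀ (g m : ℕ) (κ A e : ℝ), 1 ≤ m → 0 ≤ κ → PosLB2 g κ A e →
    LB (m * (g + 1) + 2) (m * κ) (m * A) e

/-- POS3: exponents between `1 / (g + 3)` and `1 / (g + 2)` -/
def S_POS3 : Prop :=
  ∀ (g : ℕ) (κ δ : ℝ), 1 / ((g : ℝ) + 3) ≤ κ → κ < 1 / ((g : ℝ) + 2) → 0 < δ →
    PosLB2 g κ κ (1 - κ - δ)

end Pool.Agent.K1H71.NX
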