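import Pool.Agent.K1H71.NX.Defs2

/-! The `n`-term abc conjecture: exceptions with many terms, rate `1 / n`. Statements of the
pieces (helper71, project NX3). -/

set_option autoImplicit false

namespace Pool.Agent.K1H71.NX

open Finset

/-- at least `c X ^ e` tuples of `h + 1` positive numbers, the first one coprime to the sum
`s = a_0 + ⋯ + a_h`, with `K X ^ κ ≤ s ≤ C X ^ κ` and
`rad (a_0) ⋯ rad (a_h) rad (a_0 + ⋯ + a_h) rad (a_1 + ⋯ + a_h) ≤ X` -/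
def PosLB3 (h : ℕ) (κ e : ℝ) : Prop :=
  ∀ K : ℝ, 0 < K → ∃ c C X₀ : ℝ, 0 < c ∧ 0 < C ∧ ∀ X : ℝ, X₀ ≤ X →
    ∃ T : Finset (Fin (h + 1) → ℤ), (∀ a ∈ T, (∀ i, 0 < a i) ∧ IsCoprime (a 0) (∑ i, a i) ∧
      (∏ i, (rad (a i) : ℝ)) * ((rad (∑ i, a i) : ℝ) * (rad (∑ j : Fin h, a j.succ) : ℝ)) ≤ X ∧
      K * X ^ κ ≤ ((∑ i, a i : ℤ) : ℝ) ∧ ((∑ i, a i : ℤ) : ℝ) ≤ C * X ^ κ) ∧
      c * X ^ e ≤ (T.card : ℝ)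

/-- COMP3: the identity `s ^ (r + 1) = a_0 ^ (r + 1) + ∑_j a_j s ^ r + ∑_(1 ≤ i ≤ r) b a_0 ^ i s ^ (r - i)`,
`b = a_1 + ⋯ + a_h`, `s = a_0 + b` -/
def S_COMP3 : Prop :=
  ∀ (h r : ℕ) (κ e : ℝ), 1 ≤ h → 0 ≤ κ → PosLB3 h κ e →
    LB (h + r + 2) (((r : ℝ) + 1) * κ) (((r : ℝ) + 1) * κ) e

/-- POS4: one number of size `X ^ α`, `h` numbers of size `X ^ β` -/
def S_POS4 : Prop :=
  ∀ (h : ℕ) (α β δ : ℝ), 1 ≤ h → 0 < β → β ≤ α → 2 * α + ((h : ℝ) + 1) * β = 1 → 0 < δ →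
    PosLB3 h α (1 - α - β - δ)

end Pool.Agent.K1H71.NX
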