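import Pool.Agent.K1H71.NX.Main

/-! Explicit choice of the parameters (helper71). -/

set_option autoImplicit false

namespace Pool.Agent.K1H71.NX.Main

open Finset Filter

theorem choose_add_one_le {k m : ℕ} (hm : 1 ≤ m) (hmk : m ≤ k) : k.choose m + 1 ≤ 2 ^ k := by
  have h := Nat.sum_range_choose k
  have h2 : ∑ i ∈ ({0, m} : Finset ℕ), k.choose i ≤ ∑ i ∈ range (k + 1), k.choose i := by
    refine Finset.sum_le_sum_of_subset ?_
    intro i hi
    simp only [mem_insert, mem_singleton] at hi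
    rw [mem_range]
    omega
  rw [Finset.sum_pair (by omega), Nat.choose_zero_right, h] at h2
  omega

theorem params {n : ℕ} {M : ℝ} (hM : 0 ≤ M) (hn : M + 1 < Real.log n) : ∃ h m : ℕ, 2 ≤ h ∧ 1 ≤ m ∧
    M < m ∧ (m + h - 1).choose m + 1 ≤ n ∧
    1 - (M + 1) / Real.log n ≤ min ((h : ℝ) / ((h : ℝ) + 1)) (1 - M / m) := by
  obtain ⟨l, hl⟩ : ∃ l : ℝ, l = Real.log n := ⟨_, rfl⟩
  rw [← hl] at hn ⊢
  have hM1 : 0 < M + 1 := by linarith
  have hl0 : 0 < l := by linarith
  obtain ⟨t, ht⟩ : ∃ t : ℝ, t = l / (M + 1) := ⟨_, rfl⟩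
  have ht1 : 1 < t := by rw [ht, lt_div_iff₀ hM1]; linarith
  have ht0 : 0 < t := by linarith
  have hlt : (M + 1) * t = l := by rw [ht]; field_simp
  have hη : (M + 1) / l = 1 / t := by rw [ht]; field_simp
  rw [hη]
  have hnpos : (0 : ℝ) < n := by
    rcases Nat.eq_zero_or_pos n with h | h
    · rw [h] at hl
      simp at hl
      linarith
    · exact_mod_cast h
  have hexp : Real.exp l = n := by rw [hl, Real.exp_log hnpos]
  obtain ⟨m, hm⟩ : ∃ m : ℕ, m = ⌊M * t⌋₊ + 1 := ⟨_, rfl⟩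
  have hmr : M * t < m := by rw [hm]; push_cast; exact Nat.lt_floor_add_one _
  have hmr2 : (m : ℝ) ≤ M * t + 1 := by
    rw [hm]; push_cast
    have := Nat.floor_le (by positivity : 0 ≤ M * t)
    linarith
  have hm1 : 1 ≤ m := by omega
  have hm0 : (0 : ℝ) < m := by exact_mod_cast hm1
  have hMm : M < m := by nlinarith
  have hMt : M / m ≤ 1 / t := by
    rw [div_le_div_iff₀ hm0 ht0]
    linarith
  rcases le_or_gt t 2 with h2 | h2
  · refine ⟨2, m, le_refl _, hm1, hMm, ?_, ?_⟩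
    · have e1 : (m + 2 - 1).choose m = m + 1 := by
        rw [show m + 2 - 1 = m + 1 by omega, Nat.choose_succ_self_right]
      rw [e1]
      have h3 : (m : ℝ) < l := by nlinarith
      have h4 : (m : ℝ) + 1 < n := by
        rw [← hexp]
        exact lt_trans (Real.add_one_lt_exp hm0.ne') (Real.exp_lt_exp.2 h3)
      have h5 : m + 1 < n := by exact_mod_cast h4
      omega
    · have h3 : 1 / 2 ≤ 1 / t := one_div_le_one_div_of_le ht0 h2
      refine le_min ?_ ?_
      · norm_num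
        rw [← one_div]
        linarith
      · linarith
  · obtain ⟨g, hg⟩ : ∃ g : ℕ, g = ⌈t⌉₊ := ⟨_, rfl⟩
    have hg1 : t ≤ g := by rw [hg]; exact Nat.le_ceil _
    have hg2 : (g : ℝ) < t + 1 := by rw [hg]; exact Nat.ceil_lt_add_one ht0.le
    have hg3 : 3 ≤ g := by
      have : (2 : ℝ) < g := by linarith
      have : 2 < g := by exact_mod_cast this
      omega
    obtain ⟨h, rfl⟩ : ∃ h, g = h + 1 := ⟨g - 1, by omega⟩
    push_cast at hg1 hg2
    refine ⟨h, m, by omega, hm1, hMm, ?_, ?_⟩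
    · have h3 : ((m + h - 1 : ℕ) : ℝ) < l := by
        have : ((m + h - 1 : ℕ) : ℝ) = m + h - 1 := by
          rw [Nat.cast_sub (by omega)]
          push_cast
          ring
        rw [this]
        nlinarith
      have h4 := choose_add_one_le (k := m + h - 1) (m := m) hm1 (by omega)
      have h5 : ((2 : ℝ)) ^ (m + h - 1) ≤ Real.exp ((m + h - 1 : ℕ) : ℝ) := by
        rw [show Real.exp ((m + h - 1 : ℕ) : ℝ) = Real.exp 1 ^ (m + h - 1) by
          rw [← Real.exp_nat_mul, mul_one]]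
        refine pow_le_pow_left₀ (by norm_num) ?_ _
        have := Real.add_one_le_exp (1 : ℝ)
        linarith
      have h6 : ((2 ^ (m + h - 1) : ℕ) : ℝ) < n := by
        push_cast
        rw [← hexp]
        exact lt_of_le_of_lt h5 (Real.exp_lt_exp.2 h3)
      have h7 : 2 ^ (m + h - 1) < n := by exact_mod_cast h6
      omega
    · have hh0 : (0 : ℝ) < (h : ℝ) + 1 := by positivity
      refine le_min ?_ (by linarith)
      have e1 : (h : ℝ) / ((h : ℝ) + 1) = 1 - 1 / ((h : ℝ) + 1) := by field_simp; ring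
      rw [e1]
      have : 1 / ((h : ℝ) + 1) ≤ 1 / t := one_div_le_one_div_of_le ht0 hg1
      linarith

/-- keep the constant -/
theorem count1 {n : ℕ} {M A e A' : ℝ} (h : LB n M A e) (hA : A < A') {K : ℝ}
    (hK : 0 < K) : ∃ c X₀ : ℝ, 0 < c ∧ ∀ X : ℝ, X₀ ≤ X →
      ∃ T : Finset (Fin n → ℤ), (∀ x ∈ T, Good M K X (X ^ A') x) ∧ c * X ^ e ≤ (T.card : ℝ) := by
  obtain ⟨c, C, X₀, hc, hC, h1⟩ := h K hK
  have t1 : Tendsto (fun X : ℝ => X ^ (A' - A)) atTop atTop := tendsto_rpow_atTop (by linarith)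
  obtain ⟨X₁, hX₁⟩ := eventually_atTop.1 (t1.eventually (eventually_ge_atTop C))
  refine ⟨c, max (max X₀ 1) X₁, hc, fun X hX => ?_⟩
  have g0 : X₀ ≤ X := (le_max_left _ _).trans ((le_max_left _ _).trans hX)
  have g1 : 1 ≤ X := (le_max_right _ _).trans ((le_max_left _ _).trans hX)
  have g2 := hX₁ X ((le_max_right _ _).trans hX)
  have hX0 : 0 < X := by linarith
  obtain ⟨T, hT, hc2⟩ := h1 X g0
  refine ⟨T, fun x hx => ?_, hc2⟩
  obtain ⟨k1, k2, k3, k4⟩ := hT x hx
  refine ⟨k1, k2, k3, fun i => (k4 i).trans ?_⟩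
  calc C * X ^ A ≤ X ^ (A' - A) * X ^ A := mul_le_mul_of_nonneg_right g2 (by positivity)
    _ = X ^ A' := by rw [← Real.rpow_add hX0]; congr 1; ring

end Pool.Agent.K1H71.NX.Main
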