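import Pool.Agent.K1H71.NX.Defs
import Pool.Agent.K1H71.PL.Lo

/-! The exceptions on the curve of Browkin and Brzezinski: the lower bound `LB` (helper71). -/

set_option autoImplicit false

namespace Pool.Agent.K1H71.NX.Fam

open Finset Filter
open Pool.Agent.TH867.QF (Fm ev va Pt ht)
open Pool.Agent.Y679.Kf (sr)
open Pool.Agent.TH867.SQ (lr)

/-- the forms `a`, `b`, `a + b` -/
def L3 : Fm (0 + 3) where
  u := ![1, 0, 1]
  w := ![0, 1, 1]
  res := by
    intro i j hij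
    fin_cases i <;> fin_cases j <;> simp at hij ⊢

theorem ev0 (P : ℤ × ℤ) : ev L3 P 0 = P.1 := by simp [ev, L3]
theorem ev1 (P : ℤ × ℤ) : ev L3 P 1 = P.2 := by simp [ev, L3]
theorem ev2 (P : ℤ × ℤ) : ev L3 P 2 = P.1 + P.2 := by simp [ev, L3]

theorem rad_pos (a : ℤ) : 0 < rad a :=
  Finset.prod_pos fun _ hp => (Nat.prime_of_mem_primeFactors hp).pos

theorem log_rad (a : ℤ) : Real.log (rad a) = lr a.natAbs := by
  unfold rad lr
  rw [Nat.cast_prod, Real.log_prod]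
  intro p hp
  exact_mod_cast (Nat.prime_of_mem_primeFactors hp).ne_zero

theorem lr_mul_le {a b : ℕ} (ha : a ≠ 0) (hb : b ≠ 0) : lr (a * b) ≤ lr a + lr b := by
  exact Pool.Agent.TH867.SQ.lr_mul a b ha hb

theorem log_rad_le {P : ℤ × ℤ} (h : Pt L3 P) :
    Real.log (rad (P.1 * P.2 * (P.1 + P.2))) ≤ sr L3 P := by
  have h0 : P.1 ≠ 0 := by rw [← ev0]; exact h.ne 0
  have h1 : P.2 ≠ 0 := by rw [← ev1]; exact h.ne 1
  have h2 : P.1 + P.2 ≠ 0 := by rw [← ev2]; exact h.ne 2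
  rw [log_rad, Int.natAbs_mul, Int.natAbs_mul]
  have e1 := lr_mul_le (Int.natAbs_ne_zero.2 (mul_ne_zero h0 h1)) (Int.natAbs_ne_zero.2 h2)
  have e2 := lr_mul_le (Int.natAbs_ne_zero.2 h0) (Int.natAbs_ne_zero.2 h1)
  rw [Int.natAbs_mul] at e1
  have e3 : sr L3 P = lr P.1.natAbs + lr P.2.natAbs + lr (P.1 + P.2).natAbs := by
    unfold sr va
    rw [Fin.sum_univ_three, ev0, ev1, ev2]
  rw [e3]
  linarith

theorem fam (hB : S_BB) (r : ℕ) (M : ℝ) (hM0 : 0 ≤ M) (hM : M < 2 * (r : ℝ) + 1) :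
    LB (r + 3) M (max M ((2 * (r : ℝ) + 1) / 3)) (min (2 / 3) (1 - M / (2 * (r : ℝ) + 1))) := by
  classical
  intro K hK
  obtain ⟨x, E, F, hE, hinj, hx⟩ := hB r
  obtain ⟨c, C, hc, hC, hlow⟩ := Pool.Agent.K1H71.PL.tail_low L3
  obtain ⟨m, hm⟩ : ∃ m : ℝ, m = 2 * (r : ℝ) + 1 := ⟨_, rfl⟩
  have hm1 : 1 ≤ m := by rw [hm]; have : (0 : ℝ) ≤ r := Nat.cast_nonneg r; linarith
  have hm0 : 0 < m := by linarith
  rw [← hm] at hM ⊢
  obtain ⟨κ, hκ⟩ : ∃ κ : ℝ, κ = M / m := ⟨_, rfl⟩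
  have hκ0 : 0 ≤ κ := by rw [hκ]; positivity
  have hκ1 : κ < 1 := by rw [hκ, div_lt_one hm0]; exact hM
  have hκm : κ * m = M := by rw [hκ]; field_simp
  obtain ⟨κ', hκ'⟩ : ∃ κ' : ℝ, κ' = max (1 / 3) κ := ⟨_, rfl⟩
  have hκκ : κ ≤ κ' := by rw [hκ']; exact le_max_right _ _
  have hκ3 : 1 / 3 ≤ κ' := by rw [hκ']; exact le_max_left _ _
  have hκ'1 : κ' < 1 := by rw [hκ']; exact max_lt (by norm_num) hκ1
  have hκ'0 : 0 < κ' := by linarith
  have he : min (2 / 3) (1 - M / m) = 1 - κ' := by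
    rw [← hκ, hκ']
    rcases le_total (1 / 3 : ℝ) κ with h | h
    · rw [max_eq_right h, min_eq_right (by linarith)]
    · rw [max_eq_left h, min_eq_left (by linarith)]
      norm_num
  have hA : max M (m / 3) = κ' * m := by
    rw [hκ', max_mul_of_nonneg _ _ hm0.le, hκm, max_comm]
    congr 1
    ring
  rw [he, hA]
  have hER : (1 : ℝ) ≤ E := by exact_mod_cast hE
  have hE0 : (0 : ℝ) < E := by linarith
  obtain ⟨B, hB1, hBK⟩ : ∃ B : ℝ, 1 ≤ B ∧ K * (E : ℝ) ^ M < B ^ m := by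
    refine ⟨K * (E : ℝ) ^ M + 1, ?_, ?_⟩
    · have : 0 < K * (E : ℝ) ^ M := by positivity
      linarith
    · have h1 : 0 < K * (E : ℝ) ^ M := by positivity
      calc K * (E : ℝ) ^ M < K * (E : ℝ) ^ M + 1 := by linarith
        _ = (K * (E : ℝ) ^ M + 1) ^ (1 : ℝ) := (Real.rpow_one _).symm
        _ ≤ (K * (E : ℝ) ^ M + 1) ^ m := Real.rpow_le_rpow_of_exponent_le (by linarith) hm1
  have hB0 : 0 < B := by linarith
  have htend : Tendsto (fun X : ℝ => X ^ (1 - κ')) atTop atTop := tendsto_rpow_atTop (by linarith)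
  obtain ⟨X₁, hX₁⟩ := eventually_atTop.1 (htend.eventually (eventually_ge_atTop
    (max (B / c) (2 * B * (F.card + 1) / c))))
  refine ⟨c / (2 * B) * ((E : ℝ) ^ (1 - κ'))⁻¹, E * (C * B) ^ m, E * max X₁ 1, by positivity,
    by positivity, fun X hX => ?_⟩
  obtain ⟨Y, hY⟩ : ∃ Y : ℝ, Y = X / E := ⟨_, rfl⟩
  have hYX : X = E * Y := by rw [hY]; field_simp
  have hY1' : max X₁ 1 ≤ Y := by
    rw [hY, le_div_iff₀ hE0]
    linarith
  have hY1 : 1 ≤ Y := (le_max_right _ _).trans hY1'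
  have hY0 : 0 < Y := by linarith
  have hYX1 : Y ≤ X := by rw [hYX]; nlinarith
  have hX0 : 0 < X := by linarith
  have hbig := hX₁ Y ((le_max_left _ _).trans hY1')
  have hbig1 : B / c ≤ Y ^ (1 - κ') := (le_max_left _ _).trans hbig
  have hbig2 : 2 * B * (F.card + 1) / c ≤ Y ^ (1 - κ') := (le_max_right _ _).trans hbig
  have hYκ : 1 ≤ Y ^ κ' := Real.one_le_rpow hY1 hκ'0.le
  obtain ⟨T, hT⟩ : ∃ T : ℝ, T = B * Y ^ κ' := ⟨_, rfl⟩
  have hT1 : 1 ≤ T := by rw [hT]; nlinarith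
  have hT0 : 0 < T := by linarith
  have hT3 : Y ≤ T ^ (0 + 3) := by
    have h1 : Y ^ κ' ≤ T := by rw [hT]; nlinarith [Real.rpow_pos_of_pos hY0 κ']
    have h2 : (Y ^ κ') ^ 3 ≤ T ^ 3 := pow_le_pow_left₀ (by positivity) h1 3
    have h3 : Y ≤ (Y ^ κ') ^ 3 := by
      rw [← Real.rpow_natCast, ← Real.rpow_mul hY0.le]
      calc Y = Y ^ (1 : ℝ) := (Real.rpow_one Y).symm
        _ ≤ _ := Real.rpow_le_rpow_of_exponent_le hY1 (by push_cast; linarith)
    simpa using h3.trans h2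
  have hYsplit : Y ^ κ' * Y ^ (1 - κ') = Y := by
    rw [← Real.rpow_add hY0, show κ' + (1 - κ') = 1 by ring, Real.rpow_one]
  have hTc : T ^ (0 + 1) ≤ c * Y := by
    rw [zero_add, pow_one, hT]
    rw [div_le_iff₀ hc] at hbig1
    calc B * Y ^ κ' ≤ (Y ^ (1 - κ') * c) * Y ^ κ' :=
          mul_le_mul_of_nonneg_right hbig1 (by positivity)
      _ = c * (Y ^ κ' * Y ^ (1 - κ')) := by ring
      _ = c * Y := by rw [hYsplit]
  obtain ⟨G, hG1, hG2⟩ := hlow Y T hY1 hT1 hT3 hTc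
  have hGc : c / B * Y ^ (1 - κ') ≤ (G.card : ℝ) := by
    refine le_trans (le_of_eq ?_) hG2
    rw [zero_add, pow_one, hT]
    have : Y * (B * Y ^ κ')⁻¹ = Y ^ (1 - κ') / B := by
      rw [Real.rpow_sub hY0, Real.rpow_one]
      field_simp
    rw [this]
    ring
  refine ⟨(G \ F).image x, fun z hz => ?_, ?_⟩
  · rw [mem_image] at hz
    obtain ⟨P, hP, rfl⟩ := hz
    rw [Finset.mem_sdiff] at hP
    obtain ⟨hPG, hPF⟩ := hP
    obtain ⟨g1, g2, g3, g4, -⟩ := hG1 P hPG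
    have h0 : P.1 ≠ 0 := by rw [← ev0]; exact g1.ne 0
    have h1 : P.2 ≠ 0 := by rw [← ev1]; exact g1.ne 1
    have h2 : P.1 + P.2 ≠ 0 := by rw [← ev2]; exact g1.ne 2
    obtain ⟨k1, k2, k3, k4⟩ := hx P g1.cop h0 h1 h2
    have hrad : (rad (P.1 * P.2 * (P.1 + P.2)) : ℝ) ≤ Y := by
      have h3 := (log_rad_le g1).trans g2
      exact (Real.log_le_log_iff (by exact_mod_cast rad_pos _) hY0).1 h3
    have hrad2 : (rad (∏ i, x P i) : ℝ) ≤ X := by
      have h3 : (rad (∏ i, x P i) : ℝ) ≤ E * rad (P.1 * P.2 * (P.1 + P.2)) := by exact_mod_cast k2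
      calc (rad (∏ i, x P i) : ℝ) ≤ E * rad (P.1 * P.2 * (P.1 + P.2)) := h3
        _ ≤ E * Y := mul_le_mul_of_nonneg_left hrad hE0.le
        _ = X := hYX.symm
    have hpow : ∀ t : ℝ, 0 ≤ t → t ^ (2 * r + 1) = t ^ m := by
      intro t _
      rw [← Real.rpow_natCast, hm]
      push_cast
      rfl
    have hhtm : ∀ t : ℝ, 0 ≤ t → t ≤ (ht P : ℝ) → t ^ m ≤ (ht P : ℝ) ^ (2 * r + 1) := by
      intro t ht00 htt
      rw [hpow _ (Nat.cast_nonneg _)]
      exact Real.rpow_le_rpow ht00 htt hm0.le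
    refine ⟨k1 hPF, hrad2, ?_, fun i => ?_⟩
    · obtain ⟨i, hi⟩ := k3
      refine ⟨i, ?_⟩
      have h5 : ((ht P : ℝ)) ^ (2 * r + 1) ≤ |(x P i : ℝ)| := by
        rw [← Int.cast_abs, Int.abs_eq_natAbs]
        push_cast
        have h6 : ht P ^ (2 * r + 1) ≤ (x P i).natAbs := hi
        have h7 : ((ht P ^ (2 * r + 1) : ℕ) : ℝ) ≤ ((x P i).natAbs : ℝ) := by exact_mod_cast h6
        push_cast at h7
        rw [Nat.cast_natAbs, Int.cast_abs] at h7
        exact h7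
      refine lt_of_lt_of_le ?_ h5
      refine lt_of_lt_of_le ?_ (hhtm T hT0.le g3)
      have h8 : (rad (∏ i, x P i) : ℝ) ^ M ≤ X ^ M :=
        Real.rpow_le_rpow (Nat.cast_nonneg _) hrad2 hM0
      have h9 : T ^ m = B ^ m * Y ^ (κ' * m) := by
        rw [hT, Real.mul_rpow hB0.le (by positivity), ← Real.rpow_mul hY0.le]
      have h10 : Y ^ M ≤ Y ^ (κ' * m) := by
        refine Real.rpow_le_rpow_of_exponent_le hY1 ?_
        rw [← hκm]
        exact mul_le_mul_of_nonneg_right hκκ hm0.le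
      have hYM : 0 < Y ^ M := by positivity
      calc K * (rad (∏ i, x P i) : ℝ) ^ M ≤ K * X ^ M := mul_le_mul_of_nonneg_left h8 hK.le
        _ = K * (E : ℝ) ^ M * Y ^ M := by rw [hYX, Real.mul_rpow hE0.le hY0.le]; ring
        _ < B ^ m * Y ^ M := mul_lt_mul_of_pos_right hBK hYM
        _ ≤ B ^ m * Y ^ (κ' * m) := mul_le_mul_of_nonneg_left h10 (by positivity)
        _ = T ^ m := h9.symm
    · have h5 : (((x P i).natAbs : ℕ) : ℝ) ≤ E * ((ht P : ℝ)) ^ (2 * r + 1) := by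
        exact_mod_cast k4 i
      rw [Nat.cast_natAbs, Int.cast_abs] at h5
      refine h5.trans ?_
      rw [hpow _ (Nat.cast_nonneg _)]
      have h6 : (ht P : ℝ) ^ m ≤ (C * T) ^ m := Real.rpow_le_rpow (Nat.cast_nonneg _) g4 hm0.le
      have hC0 : 0 < C := by linarith
      have h7 : (C * T) ^ m ≤ (C * B) ^ m * X ^ (κ' * m) := by
        rw [hT, ← mul_assoc, Real.mul_rpow (by positivity) (by positivity), ← Real.rpow_mul hY0.le]
        refine mul_le_mul_of_nonneg_left ?_ (by positivity)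
        exact Real.rpow_le_rpow hY0.le hYX1 (by positivity)
      calc (E : ℝ) * (ht P : ℝ) ^ m ≤ E * ((C * B) ^ m * X ^ (κ' * m)) :=
            mul_le_mul_of_nonneg_left (h6.trans h7) hE0.le
        _ = _ := by ring
  · rw [card_image_of_injective _ hinj]
    have h1 : (G.card : ℝ) ≤ ((G \ F).card : ℝ) + F.card := by
      have := Finset.le_card_sdiff F G
      have h2 : G.card ≤ (G \ F).card + F.card := by omega
      exact_mod_cast h2
    rw [div_le_iff₀ hc] at hbig2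
    have h3 : (F.card : ℝ) ≤ c / (2 * B) * Y ^ (1 - κ') := by
      rw [div_mul_eq_mul_div, le_div_iff₀ (by positivity)]
      have : (0 : ℝ) ≤ F.card := Nat.cast_nonneg _
      nlinarith
    have h4 : c / B * Y ^ (1 - κ') = 2 * (c / (2 * B) * Y ^ (1 - κ')) := by
      field_simp
    have h5 : c / (2 * B) * ((E : ℝ) ^ (1 - κ'))⁻¹ * X ^ (1 - κ') =
        c / (2 * B) * Y ^ (1 - κ') := by
      rw [hYX, Real.mul_rpow hE0.le hY0.le]
      field_simp
    rw [h5]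
    linarith

end Pool.Agent.K1H71.NX.Fam
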