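import Pool.Agent.K1H71.NX.Fam

/-! The assembly (helper71). -/

set_option autoImplicit false

namespace Pool.Agent.K1H71.NX.Main

open Finset Filter

theorem weaken {n : ℕ} {M A A' e e' : ℝ} (h : LB n M A e) (hA : A ≤ A') (he : e' ≤ e) :
    LB n M A' e' := by
  intro K hK
  obtain ⟨c, C, X₀, hc, hC, h1⟩ := h K hK
  refine ⟨c, C, max X₀ 1, hc, hC, fun X hX => ?_⟩
  have hX1 : 1 ≤ X := (le_max_right _ _).trans hX
  obtain ⟨T, hT, hc2⟩ := h1 X ((le_max_left _ _).trans hX)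
  refine ⟨T, fun x hx => ?_, le_trans ?_ hc2⟩
  · obtain ⟨g1, g2, g3, g4⟩ := hT x hx
    exact ⟨g1, g2, g3, fun i => (g4 i).trans (mul_le_mul_of_nonneg_left
      (Real.rpow_le_rpow_of_exponent_le hX1 hA) hC.le)⟩
  · exact mul_le_mul_of_nonneg_left (Real.rpow_le_rpow_of_exponent_le hX1 he) hc.le

theorem mono_le (hmono : S_MONO) {n n' : ℕ} {M A e : ℝ} (hn : 2 ≤ n) (hM : 0 ≤ M) (h : LB n M A e)
    (hnn : n ≤ n') : LB n' M A e := by
  induction n', hnn using Nat.le_induction with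
  | base => exact h
  | succ k hk ih => exact hmono k M A e (hn.trans hk) hM ih

/-- exponents `κ = M / m` between `1 / (h + 1)` and `1 / h` -/
theorem mid (hmono : S_MONO) (hcomp : S_COMP) (h2 : S_POS2) {n h m : ℕ} {M δ : ℝ} (hh : 2 ≤ h)
    (hm : 1 ≤ m) (hn : (m + h - 1).choose m + 1 ≤ n) (hM : 0 < M)
    (hM1 : 1 / ((h : ℝ) + 1) ≤ M / m) (hM2 : M / m < 1 / (h : ℝ)) (hδ : 0 < δ) :
    LB n M (M + m * δ) (1 - M / m - δ) := by
  have hm0 : (0 : ℝ) < m := by exact_mod_cast hm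
  have h3 := hcomp h m (M / m) _ _ hh hm (by positivity) (h2 h (M / m) δ hh hM1 hM2 hδ)
  have e1 : (m : ℝ) * (M / m) = M := by field_simp
  have e2 : (m : ℝ) * (M / m + δ) = M + m * δ := by field_simp
  rw [e1, e2] at h3
  refine mono_le hmono ?_ hM.le h3 hn
  have : 0 < (m + h - 1).choose m := Nat.choose_pos (by omega)
  omega

theorem two (hmono : S_MONO) (hcomp : S_COMP) (h1 : S_POS1) (h2 : S_POS2) (hB : S_BB)
    {n h m : ℕ} {M δ : ℝ} (hh : 2 ≤ h) (hm : 1 ≤ m) (hn : (m + h - 1).choose m + 1 ≤ n)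
    (hM : 0 ≤ M) (hMm : M < m) (hδ : 0 < δ) (hδ1 : δ ≤ 1) :
    LB n M (2 * m) (min (h / ((h : ℝ) + 1)) (1 - M / m) - δ) := by
  have hm0 : (0 : ℝ) < m := by exact_mod_cast hm
  have hm1 : (1 : ℝ) ≤ m := by exact_mod_cast hm
  have hh2 : (2 : ℝ) ≤ h := by exact_mod_cast hh
  have hh0 : (0 : ℝ) < (h : ℝ) + 1 := by linarith
  have hcm : m + 1 ≤ (m + h - 1).choose m := by
    calc m + 1 = (m + 1).choose m := by rw [Nat.choose_succ_self_right]
      _ ≤ (m + h - 1).choose m := Nat.choose_le_choose m (by omega)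
  obtain ⟨κ, hκ⟩ : ∃ κ : ℝ, κ = M / m := ⟨_, rfl⟩
  have hκ0 : 0 ≤ κ := by rw [hκ]; positivity
  have hκm : (m : ℝ) * κ = M := by rw [hκ]; field_simp
  rcases lt_or_ge κ (1 / ((h : ℝ) + 1)) with hc | hc
  · have h3 := hcomp h m κ _ _ hh hm hκ0 (h1 h κ hh hκ0 hc)
    rw [hκm] at h3
    refine weaken (mono_le hmono (by omega) hM h3 hn) ?_ ?_
    · have : 1 / ((h : ℝ) + 1) ≤ 1 := by rw [div_le_one hh0]; linarith
      nlinarith
    · have := min_le_left (h / ((h : ℝ) + 1)) (1 - M / m)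
      linarith
  · rcases lt_or_ge κ (1 / 2) with hc2 | hc2
    · have hκp : 0 < κ := lt_of_lt_of_le (by positivity) hc
      have hMp : 0 < M := by rw [← hκm]; positivity
      obtain ⟨q, hq⟩ : ∃ q : ℕ, q = ⌈1 / κ⌉₊ := ⟨_, rfl⟩
      have hq1 : 1 / κ ≤ q := by rw [hq]; exact Nat.le_ceil _
      have hq2 : (q : ℝ) < 1 / κ + 1 := by rw [hq]; exact Nat.ceil_lt_add_one (by positivity)
      have hκ2 : 2 < 1 / κ := by
        rw [lt_div_iff₀ hκp]
        linarith
      have hq3 : 3 ≤ q := by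
        have : (2 : ℝ) < q := by linarith
        have : 2 < q := by exact_mod_cast this
        omega
      have hq4 : q ≤ h + 1 := by
        rw [hq]
        refine Nat.ceil_le.2 ?_
        push_cast
        rw [div_le_iff₀ hκp]
        rw [div_le_iff₀ hh0] at hc
        linarith
      obtain ⟨g, rfl⟩ : ∃ g, q = g + 1 := ⟨q - 1, by omega⟩
      have hg0 : (0 : ℝ) < g := by
        have : 0 < g := by omega
        exact_mod_cast this
      push_cast at hq1 hq2
      have h3 := mid hmono hcomp h2 (n := n) (h := g) (m := m) (M := M) (δ := δ) (by omega) hm (by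
        have : (m + g - 1).choose m ≤ (m + h - 1).choose m := Nat.choose_le_choose m (by omega)
        omega) hMp (by
          rw [← hκ, div_le_iff₀ (by linarith)]
          rw [div_le_iff₀ hκp] at hq1
          linarith) (by
          rw [← hκ, lt_div_iff₀ hg0]
          have : (g : ℝ) < 1 / κ := by linarith
          rw [lt_div_iff₀ hκp] at this
          linarith) hδ
      refine weaken h3 ?_ ?_
      · have : (m : ℝ) * δ ≤ m := by nlinarith
        linarith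
      · have := min_le_right (h / ((h : ℝ) + 1)) (1 - M / m)
        linarith
    · obtain ⟨r, rfl⟩ : ∃ r, m = r + 1 := ⟨m - 1, by omega⟩
      have hr0 : (0 : ℝ) ≤ r := Nat.cast_nonneg r
      push_cast at hMm hm0 hm1 hκm ⊢
      have hMr : M < 2 * (r : ℝ) + 1 := by linarith
      have h3 := Fam.fam hB r M hM hMr
      refine weaken (mono_le hmono (by omega) hM h3 (by omega)) ?_ ?_
      · refine max_le ?_ ?_ <;> linarith
      · have h4 := min_le_right (h / ((h : ℝ) + 1)) (1 - M / ((r : ℝ) + 1))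
        have h5 : M / (2 * (r : ℝ) + 1) ≤ M / ((r : ℝ) + 1) :=
          div_le_div_of_nonneg_left hM (by linarith) (by linarith)
        have h6 : 1 / 2 ≤ M / ((r : ℝ) + 1) := by
          rw [hκ] at hc2
          push_cast at hc2
          exact hc2
        refine le_min ?_ ?_ <;> linarith

/-- from `LB` to a count -/
theorem count {n : ℕ} {M A e A' e' : ℝ} (h : LB n M A e) (hA : A < A') (he : e' < e) {K : ℝ}
    (hK : 0 < K) : ∃ X₀ : ℝ, ∀ X : ℝ, X₀ ≤ X →
      ∃ T : Finset (Fin n → ℤ), (∀ x ∈ T, Good M K X (X ^ A') x) ∧ X ^ e' ≤ (T.card : ℝ) := by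
  obtain ⟨c, C, X₀, hc, hC, h1⟩ := h K hK
  have t1 : Tendsto (fun X : ℝ => X ^ (A' - A)) atTop atTop := tendsto_rpow_atTop (by linarith)
  have t2 : Tendsto (fun X : ℝ => X ^ (e - e')) atTop atTop := tendsto_rpow_atTop (by linarith)
  obtain ⟨X₁, hX₁⟩ := eventually_atTop.1 (t1.eventually (eventually_ge_atTop C))
  obtain ⟨X₂, hX₂⟩ := eventually_atTop.1 (t2.eventually (eventually_ge_atTop (1 / c)))
  refine ⟨max (max X₀ 1) (max X₁ X₂), fun X hX => ?_⟩
  have g0 : X₀ ≤ X := (le_max_left _ _).trans ((le_max_left _ _).trans hX)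
  have g1 : 1 ≤ X := (le_max_right _ _).trans ((le_max_left _ _).trans hX)
  have g2 := hX₁ X ((le_max_left _ _).trans ((le_max_right _ _).trans hX))
  have g3 := hX₂ X ((le_max_right _ _).trans ((le_max_right _ _).trans hX))
  have hX0 : 0 < X := by linarith
  obtain ⟨T, hT, hc2⟩ := h1 X g0
  refine ⟨T, fun x hx => ?_, le_trans ?_ hc2⟩
  · obtain ⟨k1, k2, k3, k4⟩ := hT x hx
    refine ⟨k1, k2, k3, fun i => (k4 i).trans ?_⟩
    calc C * X ^ A ≤ X ^ (A' - A) * X ^ A := mul_le_mul_of_nonneg_right g2 (by positivity)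
      _ = X ^ A' := by rw [← Real.rpow_add hX0]; congr 1; ring
  · rw [div_le_iff₀ hc] at g3
    calc X ^ e' ≤ (X ^ (e - e') * c) * X ^ e' := le_mul_of_one_le_left (by positivity) g3
      _ = c * (X ^ (e - e') * X ^ e') := by ring
      _ = c * X ^ e := by rw [← Real.rpow_add hX0]; congr 2; ring

/-- from `LB` to a count by height -/
theorem count_ht {n : ℕ} {M A e : ℝ} (h : LB n M A e) (hA : 0 < A) {K : ℝ} (hK : 0 < K) :
    ∃ c B₀ : ℝ, 0 < c ∧ ∀ B : ℝ, B₀ ≤ B → ∃ T : Finset (Fin n → ℤ), (∀ x ∈ T, Adm x ∧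
      (∃ i, K * (rad (∏ i, x i) : ℝ) ^ M < |(x i : ℝ)|) ∧ ∀ i, |(x i : ℝ)| ≤ B) ∧
      c * B ^ (e / A) ≤ (T.card : ℝ) := by
  obtain ⟨c, C, X₀, hc, hC, h1⟩ := h K hK
  refine ⟨c * (C ^ (e / A))⁻¹, C * (max X₀ 1) ^ A, by positivity, fun B hB => ?_⟩
  have hmax : 0 < max X₀ 1 := lt_of_lt_of_le one_pos (le_max_right _ _)
  have hB0 : 0 < B := lt_of_lt_of_le (by positivity) hB
  obtain ⟨X, hX⟩ : ∃ X : ℝ, X = (B / C) ^ (1 / A) := ⟨_, rfl⟩
  have hX0 : 0 < X := by rw [hX]; positivity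
  have hXA : X ^ A = B / C := by
    rw [hX, ← Real.rpow_mul (by positivity), one_div, inv_mul_cancel₀ hA.ne', Real.rpow_one]
  have hXge : max X₀ 1 ≤ X := by
    rw [← Real.rpow_le_rpow_iff hmax.le hX0.le hA, hXA, le_div_iff₀ hC]
    linarith
  obtain ⟨T, hT, hc2⟩ := h1 X ((le_max_left _ _).trans hXge)
  refine ⟨T, fun x hx => ?_, le_trans (le_of_eq ?_) hc2⟩
  · obtain ⟨k1, k2, k3, k4⟩ := hT x hx
    refine ⟨k1, k3, fun i => (k4 i).trans (le_of_eq ?_)⟩
    rw [hXA]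
    field_simp
  · have e1 : X ^ e = (B / C) ^ (e / A) := by
      rw [← hXA, ← Real.rpow_mul hX0.le]
      congr 1
      field_simp
    rw [e1, Real.div_rpow hB0.le hC.le]
    field_simp

end Pool.Agent.K1H71.NX.Main
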