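import Pool.Agent.K1H71.NX.Defs

/-! Project NX, piece COMP (helper39): the multinomial theorem gives `LB` from `PosLB`. -/

set_option autoImplicit false

namespace Pool.Agent.K1H71.NX.COMP

open Finset

theorem rad_pos (a : ℤ) : 0 < rad a := by
  unfold rad
  exact Finset.prod_pos fun p hp => (Nat.prime_of_mem_primeFactors hp).pos

theorem rad_le_of_subset {a b : ℤ} (h : a.natAbs.primeFactors ⊆ b.natAbs.primeFactors) :
    rad a ≤ rad b := by
  unfold rad
  exact Finset.prod_le_prod_of_subset_of_one_le' h fun p hp _ =>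
    (Nat.prime_of_mem_primeFactors hp).one_lt.le

theorem rad_mul_le (a b : ℤ) : rad (a * b) ≤ rad a * rad b := by
  unfold rad
  by_cases ha : a = 0
  · rw [ha]; simp
    exact Finset.prod_pos fun p hp => (Nat.prime_of_mem_primeFactors hp).pos
  by_cases hb : b = 0
  · rw [hb]; simp
    exact Finset.prod_pos fun p hp => (Nat.prime_of_mem_primeFactors hp).pos
  rw [Int.natAbs_mul, Nat.primeFactors_mul (by simpa using ha) (by simpa using hb)]
  rw [← Finset.prod_union_inter]
  calc ∏ p ∈ a.natAbs.primeFactors ∪ b.natAbs.primeFactors, p =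
      (∏ p ∈ a.natAbs.primeFactors ∪ b.natAbs.primeFactors, p) * 1 := (mul_one _).symm
    _ ≤ _ := Nat.mul_le_mul_left _ (Finset.prod_pos fun p hp =>
      (Nat.prime_of_mem_primeFactors (Finset.mem_inter.1 hp).1).pos)

theorem rad_prod_le {ι : Type} (s : Finset ι) (f : ι → ℤ) : rad (∏ i ∈ s, f i) ≤ ∏ i ∈ s, rad (f i) := by
  classical
  induction s using Finset.induction_on with
  | empty => simp [rad]
  | insert i s hi ih =>
    rw [Finset.prod_insert hi, Finset.prod_insert hi]
    exact (rad_mul_le _ _).trans (Nat.mul_le_mul_left _ ih)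

theorem rad_natCast_le {E : ℕ} (hE : 0 < E) : rad (E : ℤ) ≤ E := by
  unfold rad
  rw [Int.natAbs_natCast]
  exact Nat.le_of_dvd hE (Nat.prod_primeFactors_dvd E)

theorem card_pi (h m : ℕ) : (piAntidiag (univ : Finset (Fin h)) m).card = (m + h - 1).choose m := by
  have h1 : (piAntidiag (univ : Finset (Fin h)) m).card =
      ((univ : Finset (Fin h)).finsuppAntidiag m).card := by
    refine Finset.card_bij' (fun f _ => Finsupp.equivFunOnFinite.symm f) (fun f _ => (f : Fin h → ℕ))
      ?_ ?_ ?_ ?_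
    · intro f hf
      rw [mem_piAntidiag] at hf
      rw [mem_finsuppAntidiag]
      exact ⟨by simpa using hf.1, Finset.subset_univ _⟩
    · intro f hf
      rw [mem_finsuppAntidiag] at hf
      rw [mem_piAntidiag]
      exact ⟨by simpa using hf.1, fun _ _ => Finset.mem_univ _⟩
    · intro f _; rfl
    · intro f _
      ext; rfl
  rw [h1, card_finsuppAntidiag_nat_eq_choose, Finset.card_univ, Fintype.card_fin, Nat.add_comm h m]

section

variable {h m : ℕ}

/-- index set of the monomials -/
noncomputable def idx (h m : ℕ) : Fin ((m + h - 1).choose m) ≃ piAntidiag (univ : Finset (Fin h)) m :=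
  (Finset.equivFinOfCardEq (card_pi h m)).symm

/-- the monomials with their coefficients -/
noncomputable def mono (a : Fin h → ℤ) (α : Fin h → ℕ) : ℤ :=
  (Nat.multinomial univ α : ℤ) * ∏ i, a i ^ α i

/-- the tuple -/
noncomputable def tup (m : ℕ) (a : Fin h → ℤ) : Fin ((m + h - 1).choose m + 1) → ℤ :=
  Fin.snoc (α := fun _ => ℤ) (fun k => mono a (idx h m k)) (-(∑ i, a i) ^ m)

theorem tup_castSucc (a : Fin h → ℤ) (k : Fin ((m + h - 1).choose m)) :
    tup m a k.castSucc = mono a (idx h m k) := by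
  simp [tup]

theorem tup_last (a : Fin h → ℤ) : tup m a (Fin.last _) = -(∑ i, a i) ^ m := by
  simp [tup]

theorem sum_mono (a : Fin h → ℤ) :
    ∑ k : Fin ((m + h - 1).choose m), mono a (idx h m k) = (∑ i, a i) ^ m := by
  rw [sum_pow_eq_sum_piAntidiag]
  rw [← Finset.sum_coe_sort (piAntidiag (univ : Finset (Fin h)) m)]
  exact (idx h m).sum_comp (fun α => mono a (α : Fin h → ℕ))

theorem mono_pos {a : Fin h → ℤ} (ha : ∀ i, 0 < a i) (α : Fin h → ℕ) : 0 < mono a α := by
  unfold mono
  have h1 : 0 < Nat.multinomial univ α := Nat.multinomial_pos _ _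
  have h2 : 0 < ∏ i, a i ^ α i := Finset.prod_pos fun i _ => pow_pos (ha i) _
  positivity

theorem sum_tup (a : Fin h → ℤ) : ∑ k, tup m a k = 0 := by
  rw [Fin.sum_univ_castSucc]
  simp only [tup_castSucc, tup_last]
  rw [sum_mono]
  ring

/-- the index of `a i ^ m` -/
theorem exists_idx (i : Fin h) : ∃ k : Fin ((m + h - 1).choose m),
    ∀ a : Fin h → ℤ, mono a (idx h m k) = a i ^ m := by
  have hmem : Pi.single i m ∈ piAntidiag (univ : Finset (Fin h)) m := by
    rw [mem_piAntidiag]
    exact ⟨by simp, fun _ _ => Finset.mem_univ _⟩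
  refine ⟨(idx h m).symm ⟨_, hmem⟩, fun a => ?_⟩
  rw [Equiv.apply_symm_apply]
  have h1 : Nat.multinomial univ (Pi.single i m : Fin h → ℕ) = 1 := by
    have hs := Nat.multinomial_spec (univ : Finset (Fin h)) (Pi.single i m)
    have h2 : ∏ j : Fin h, ((Pi.single i m : Fin h → ℕ) j).factorial = m.factorial := by
      rw [Finset.prod_eq_single i]
      · simp
      · intro j _ hj
        rw [Pi.single_eq_of_ne hj]
        rfl
      · intro hi
        exact absurd (Finset.mem_univ _) hi
    have h3 : ∑ j : Fin h, (Pi.single i m : Fin h → ℕ) j = m := by simp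
    rw [h2, h3] at hs
    exact Nat.eq_of_mul_eq_mul_left m.factorial_pos (by rw [hs, mul_one])
  unfold mono
  simp only
  rw [h1, Finset.prod_eq_single i]
  · simp
  · intro j _ hj
    rw [Pi.single_eq_of_ne hj, pow_zero]
  · intro hi
    exact absurd (Finset.mem_univ _) hi

theorem adm_tup (hh : 1 ≤ h) (hm : 1 ≤ m) {a : Fin h → ℤ} (ha : ∀ i, 0 < a i)
    (hg : univ.gcd a = 1) : Adm (tup m a) := by
  refine ⟨?_, sum_tup a, ?_⟩
  · -- gcd
    have hu : IsUnit (univ.gcd (tup m a)) := by
      by_contra hnu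
      have hne : univ.gcd (tup m a) ≠ 0 := by
        intro h0
        rw [Finset.gcd_eq_zero_iff] at h0
        obtain ⟨k, hk⟩ := exists_idx (m := m) (⟨0, hh⟩ : Fin h)
        have := h0 k.castSucc (Finset.mem_univ _)
        rw [tup_castSucc] at this
        exact (mono_pos ha _).ne' this
      obtain ⟨p, hp, hpd⟩ := Int.exists_prime_and_dvd (n := univ.gcd (tup m a)) (by
        intro h1
        exact hnu (Int.isUnit_iff_natAbs_eq.2 h1))
      have hall : ∀ i, p ∣ a i := by
        intro i
        obtain ⟨k, hk⟩ := exists_idx (m := m) i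
        have h1 : p ∣ tup m a k.castSucc := hpd.trans (Finset.gcd_dvd (Finset.mem_univ _))
        rw [tup_castSucc, hk] at h1
        exact hp.dvd_of_dvd_pow h1
      have h2 : p ∣ univ.gcd a := Finset.dvd_gcd fun i _ => hall i
      rw [hg] at h2
      exact hp.not_isUnit (isUnit_of_dvd_one h2)
    rw [← Finset.normalize_gcd]
    exact normalize_eq_one.2 hu
  · intro I hI hI'
    by_cases hl : Fin.last _ ∈ I
    · -- the complement has positive sum
      have h1 : ∑ i ∈ I, tup m a i + ∑ i ∈ Iᶜ, tup m a i = 0 := by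
        rw [Finset.sum_add_sum_compl, sum_tup]
      have h2 : 0 < ∑ i ∈ Iᶜ, tup m a i := by
        refine Finset.sum_pos ?_ ?_
        · intro i hi
          rw [Finset.mem_compl] at hi
          have hne : i ≠ Fin.last _ := fun h' => hi (by rw [h']; exact hl)
          obtain ⟨k, rfl⟩ := Fin.exists_castSucc_eq.2 hne
          rw [tup_castSucc]
          exact mono_pos ha _
        · rw [Finset.nonempty_iff_ne_empty, Ne, Finset.compl_eq_empty_iff]
          exact hI'
      intro h3
      rw [h3] at h1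
      linarith
    · refine (Finset.sum_pos ?_ hI).ne'
      intro i hi
      have hne : i ≠ Fin.last _ := fun h' => hl (by rw [← h']; exact hi)
      obtain ⟨k, rfl⟩ := Fin.exists_castSucc_eq.2 hne
      rw [tup_castSucc]
      exact mono_pos ha _

/-- product of the coefficients -/
noncomputable def coef (h m : ℕ) : ℕ :=
  ∏ k : Fin ((m + h - 1).choose m), Nat.multinomial univ (idx h m k : Fin h → ℕ)

theorem coef_pos : 0 < coef h m := Finset.prod_pos fun _ _ => Nat.multinomial_pos _ _

theorem rad_tup {a : Fin h → ℤ} (ha : ∀ i, 0 < a i) (hs : 0 < ∑ i, a i) :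
    rad (∏ k, tup m a k) ≤ coef h m * ((∏ i, rad (a i)) * rad (∑ i, a i)) := by
  have h1 : rad (∏ k, tup m a k) ≤ rad ((coef h m : ℤ) * ((∏ i, a i) * ∑ i, a i)) := by
    apply rad_le_of_subset
    intro p hp
    have hpp := Nat.prime_of_mem_primeFactors hp
    have hpi : Prime (p : ℤ) := Nat.prime_iff_prime_int.1 hpp
    have hpd : (p : ℤ) ∣ ∏ k, tup m a k := Int.natCast_dvd.2 (Nat.dvd_of_mem_primeFactors hp)
    rw [Nat.mem_primeFactors]
    refine ⟨hpp, ?_, ?_⟩
    · rw [← Int.natCast_dvd]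
      obtain ⟨k, -, hk⟩ := (Prime.dvd_finsetProd_iff hpi _).1 hpd
      induction k using Fin.lastCases with
      | last =>
        rw [tup_last, dvd_neg] at hk
        exact ((hpi.dvd_of_dvd_pow hk).mul_left _).mul_left _
      | cast k =>
        rw [tup_castSucc] at hk
        unfold mono at hk
        rcases hpi.dvd_or_dvd hk with h2 | h2
        · refine Dvd.dvd.mul_right ?_ _
          unfold coef
          push_cast
          exact h2.trans (Finset.dvd_prod_of_mem
            (fun k => ((Nat.multinomial univ (idx h m k : Fin h → ℕ) : ℕ) : ℤ)) (Finset.mem_univ k))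
        · obtain ⟨i, -, hi⟩ := (Prime.dvd_finsetProd_iff hpi _).1 h2
          have h3 : (p : ℤ) ∣ a i := hpi.dvd_of_dvd_pow hi
          exact ((h3.trans (Finset.dvd_prod_of_mem a (Finset.mem_univ i))).mul_right _).mul_left _
    · rw [Ne, Int.natAbs_eq_zero]
      have h4 : (0 : ℤ) < coef h m := by exact_mod_cast coef_pos
      have h5 : 0 < ∏ i, a i := Finset.prod_pos fun i _ => ha i
      positivity
  refine h1.trans ((rad_mul_le _ _).trans ?_)
  refine Nat.mul_le_mul (rad_natCast_le coef_pos) ((rad_mul_le _ _).trans ?_)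
  exact Nat.mul_le_mul_right _ (rad_prod_le _ _)

theorem abs_tup_le {a : Fin h → ℤ} (ha : ∀ i, 0 < a i) (hs : 0 < ∑ i, a i)
    (k : Fin ((m + h - 1).choose m + 1)) : |tup m a k| ≤ (∑ i, a i) ^ m := by
  induction k using Fin.lastCases with
  | last => rw [tup_last, abs_neg, abs_of_pos (pow_pos hs m)]
  | cast k =>
    rw [tup_castSucc, abs_of_pos (mono_pos ha _), ← sum_mono]
    exact Finset.single_le_sum (f := fun k => mono a (idx h m k)) (fun k _ => (mono_pos ha _).le)
      (Finset.mem_univ k)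

theorem tup_inj (hm : 1 ≤ m) {a b : Fin h → ℤ} (ha : ∀ i, 0 < a i) (hb : ∀ i, 0 < b i)
    (hab : tup m a = tup m b) : a = b := by
  funext i
  obtain ⟨k, hk⟩ := exists_idx (m := m) i
  have h1 := congrFun hab k.castSucc
  rw [tup_castSucc, tup_castSucc, hk, hk] at h1
  exact (pow_left_inj₀ (ha i).le (hb i).le (by omega)).1 h1

end

end Pool.Agent.K1H71.NX.COMP

namespace Pool.Agent.K1H71.NX

open Finset COMP

theorem t_COMP : S_COMP := by
  intro h m κ A e hh hm hκ hpos K hK
  set E : ℝ := (coef h m : ℝ) with hE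
  have hE1 : 1 ≤ E := by
    have : 1 ≤ coef h m := coef_pos
    rw [hE]
    exact_mod_cast this
  have hE0 : 0 < E := by linarith
  have hmR : (m : ℝ) ≠ 0 := by
    have : 0 < m := hm
    positivity
  set K' : ℝ := K * E ^ (m * κ) + 1 with hK'
  have hEp : 0 < E ^ ((m : ℝ) * κ) := Real.rpow_pos_of_pos hE0 _
  have hK'1 : 1 ≤ K' := by
    rw [hK']
    nlinarith
  obtain ⟨c, C, X₀, hc, hC, hX⟩ := hpos K' (by linarith)
  refine ⟨c * (E ^ e)⁻¹, (C * (E ^ A)⁻¹) ^ m, max 1 (E * X₀), by positivity, by positivity, ?_⟩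
  intro X hXX
  have hX1 : 1 ≤ X := (le_max_left _ _).trans hXX
  have hX0 : 0 < X := by linarith
  have hXE : X₀ ≤ X / E := by
    rw [le_div_iff₀ hE0, mul_comm]
    exact (le_max_right _ _).trans hXX
  obtain ⟨T, hT, hTc⟩ := hX (X / E) hXE
  have hXE0 : 0 < X / E := by positivity
  have hsum : ∀ a ∈ T, 0 < ∑ i, a i := by
    intro a ha
    have h1 := (hT a ha).1
    have : Nonempty (Fin h) := ⟨⟨0, by omega⟩⟩
    exact Finset.sum_pos (fun i _ => h1 i) Finset.univ_nonempty
  refine ⟨T.image (tup m), ?_, ?_⟩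
  · intro x hx
    rw [Finset.mem_image] at hx
    obtain ⟨a, ha, rfl⟩ := hx
    obtain ⟨h1, h2, h3, h4, h5⟩ := hT a ha
    have hs := hsum a ha
    have hrad : (rad (∏ k, tup m a k) : ℝ) ≤ X := by
      have h6 := rad_tup (m := m) h1 hs
      have h7 : (rad (∏ k, tup m a k) : ℝ) ≤
          E * ((∏ i, (rad (a i) : ℝ)) * (rad (∑ i, a i) : ℝ)) := by
        rw [hE]
        exact_mod_cast h6
      calc _ ≤ _ := h7
        _ ≤ E * (X / E) := mul_le_mul_of_nonneg_left h3 hE0.le
        _ = X := by field_simp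
    have hbig : K * (X : ℝ) ^ ((m : ℝ) * κ) < (((∑ i, a i : ℤ) : ℝ)) ^ m := by
      have h8 : K' * (X / E) ^ κ ≤ ((∑ i, a i : ℤ) : ℝ) := h4
      have h9 : (K' * (X / E) ^ κ) ^ m ≤ ((∑ i, a i : ℤ) : ℝ) ^ m :=
        pow_le_pow_left₀ (by positivity) h8 m
      refine lt_of_lt_of_le ?_ h9
      rw [mul_pow, ← Real.rpow_natCast ((X / E) ^ κ), ← Real.rpow_mul hXE0.le, mul_comm κ,
        Real.div_rpow hX0.le hE0.le]
      have h10 : K' ≤ K' ^ m := le_self_pow₀ hK'1 (by omega)
      have hXp : 0 < X ^ ((m : ℝ) * κ) := Real.rpow_pos_of_pos hX0 _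
      calc K * X ^ ((m : ℝ) * κ) = (K * E ^ ((m : ℝ) * κ)) * (X ^ ((m : ℝ) * κ) / E ^ ((m : ℝ) * κ)) := by
            field_simp
        _ < K' * (X ^ ((m : ℝ) * κ) / E ^ ((m : ℝ) * κ)) := by
            apply mul_lt_mul_of_pos_right _ (by positivity)
            rw [hK']
            linarith
        _ ≤ K' ^ m * (X ^ ((m : ℝ) * κ) / E ^ ((m : ℝ) * κ)) := by
            gcongr
    refine ⟨adm_tup (by omega) hm h1 h2, hrad, ⟨Fin.last _, ?_⟩, ?_⟩
    · rw [tup_last]
      push_cast
      have hs' : (0 : ℝ) < ∑ i, (a i : ℝ) := by exact_mod_cast hs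
      rw [abs_neg, abs_of_pos (pow_pos hs' m)]
      push_cast at hbig
      refine lt_of_le_of_lt ?_ hbig
      refine mul_le_mul_of_nonneg_left ?_ hK.le
      refine Real.rpow_le_rpow (by positivity) ?_ (by positivity)
      exact_mod_cast hrad
    · intro k
      have h11 := abs_tup_le (m := m) h1 hs k
      have h12 : |((tup m a k : ℤ) : ℝ)| ≤ ((∑ i, a i : ℤ) : ℝ) ^ m := by
        exact_mod_cast h11
      refine h12.trans ?_
      have h13 : ((∑ i, a i : ℤ) : ℝ) ^ m ≤ (C * (X / E) ^ A) ^ m :=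
        pow_le_pow_left₀ (by exact_mod_cast hs.le) h5 m
      refine h13.trans (le_of_eq ?_)
      rw [Real.div_rpow hX0.le hE0.le, mul_pow, mul_pow, div_pow, inv_pow]
      rw [mul_comm (m : ℝ) A, Real.rpow_mul hX0.le, Real.rpow_natCast]
      field_simp
  · rw [Finset.card_image_of_injOn]
    · refine le_trans (le_of_eq ?_) hTc
      rw [Real.div_rpow hX0.le hE0.le]
      field_simp
    · intro a ha b hb hab
      exact tup_inj hm (hT a ha).1 (hT b hb).1 hab

end Pool.Agent.K1H71.NX
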