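import Pool.Agent.K1H71.NX.Defs2
import Pool.Agent.K1H71.NX.T_COMP

/-! Project NX2, piece COMP2: the identity
`s ^ m = a_0 ^ m + ∑_(i < m) ∑_(j ≥ 1) a_j a_0 ^ i s ^ (m - 1 - i)`, `s = a_0 + ⋯ + a_(g + 1)`
(helper71). -/

set_option autoImplicit false

namespace Pool.Agent.K1H71.NX.COMP2

open Finset
open Pool.Agent.K1H71.NX.COMP (rad_pos rad_le_of_subset rad_mul_le rad_prod_le)

variable {g m : ℕ}

/-- the monomials -/
def mon (m : ℕ) (a : Fin (g + 2) → ℤ) (q : Fin m × Fin (g + 1)) : ℤ :=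
  a q.2.succ * (a 0 ^ (q.1 : ℕ) * (∑ i, a i) ^ (m - 1 - (q.1 : ℕ)))

/-- all positive terms -/
def pos (m : ℕ) (a : Fin (g + 2) → ℤ) : Fin (m * (g + 1) + 1) → ℤ :=
  Fin.snoc (α := fun _ => ℤ) (fun k => mon m a (finProdFinEquiv.symm k)) (a 0 ^ m)

/-- the tuple -/
def tup (m : ℕ) (a : Fin (g + 2) → ℤ) : Fin (m * (g + 1) + 2) → ℤ :=
  Fin.snoc (α := fun _ => ℤ) (pos m a) (-(∑ i, a i) ^ m)

theorem pos_castSucc (a : Fin (g + 2) → ℤ) (k : Fin (m * (g + 1))) :
    pos m a k.castSucc = mon m a (finProdFinEquiv.symm k) := by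
  simp [pos]

theorem pos_last (a : Fin (g + 2) → ℤ) : pos m a (Fin.last _) = a 0 ^ m := by
  simp [pos]

theorem tup_castSucc (a : Fin (g + 2) → ℤ) (k : Fin (m * (g + 1) + 1)) :
    tup m a k.castSucc = pos m a k := by
  simp [tup]

theorem tup_last (a : Fin (g + 2) → ℤ) : tup m a (Fin.last _) = -(∑ i, a i) ^ m := by
  simp [tup]

theorem sum_mon (a : Fin (g + 2) → ℤ) :
    ∑ k : Fin (m * (g + 1)), mon m a (finProdFinEquiv.symm k) = (∑ i, a i) ^ m - a 0 ^ m := by
  rw [(finProdFinEquiv (m := m) (n := g + 1)).symm.sum_comp (fun q => mon m a q)]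
  rw [Fintype.sum_prod_type]
  simp only [mon]
  have h1 : ∑ j : Fin (g + 1), a j.succ = ∑ i, a i - a 0 := by
    rw [Fin.sum_univ_succ (fun i => a i)]; ring
  have h2 : ∀ i : Fin m, ∑ j : Fin (g + 1), a j.succ * (a 0 ^ (i : ℕ) *
      (∑ i, a i) ^ (m - 1 - (i : ℕ))) =
      (∑ i, a i - a 0) * (a 0 ^ (i : ℕ) * (∑ i, a i) ^ (m - 1 - (i : ℕ))) := by
    intro i
    rw [← Finset.sum_mul, h1]
  rw [Finset.sum_congr rfl fun i _ => h2 i, ← Finset.mul_sum]
  rw [Fin.sum_univ_eq_sum_range (fun i => a 0 ^ i * (∑ i, a i) ^ (m - 1 - i)) m]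
  have h3 := (Commute.all (a 0) (∑ i, a i)).geom_sum₂_mul m
  linear_combination -h3

theorem sum_pos' (a : Fin (g + 2) → ℤ) : ∑ k, pos m a k = (∑ i, a i) ^ m := by
  rw [Fin.sum_univ_castSucc]
  simp only [pos_castSucc, pos_last]
  rw [sum_mon]
  ring

theorem sum_tup (a : Fin (g + 2) → ℤ) : ∑ k, tup m a k = 0 := by
  rw [Fin.sum_univ_castSucc]
  simp only [tup_castSucc, tup_last]
  rw [sum_pos']
  ring

theorem sum_pos_of {a : Fin (g + 2) → ℤ} (ha : ∀ i, 0 < a i) : 0 < ∑ i, a i :=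
  Finset.sum_pos (fun i _ => ha i) Finset.univ_nonempty

theorem mon_pos {a : Fin (g + 2) → ℤ} (ha : ∀ i, 0 < a i) (q : Fin m × Fin (g + 1)) :
    0 < mon m a q := by
  have hs := sum_pos_of ha
  have h0 := ha 0
  have h1 := ha q.2.succ
  unfold mon
  positivity

theorem pos_pos {a : Fin (g + 2) → ℤ} (ha : ∀ i, 0 < a i) (k : Fin (m * (g + 1) + 1)) :
    0 < pos m a k := by
  induction k using Fin.lastCases with
  | last => rw [pos_last]; exact pow_pos (ha 0) m
  | cast k => rw [pos_castSucc]; exact mon_pos ha _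

theorem adm_tup {a : Fin (g + 2) → ℤ} (ha : ∀ i, 0 < a i)
    (hg : IsCoprime (a 0) (∑ i, a i)) : Adm (tup m a) := by
  refine ⟨?_, sum_tup a, ?_⟩
  · have h1 : univ.gcd (tup m a) ∣ (∑ i, a i) ^ m := by
      have := Finset.gcd_dvd (f := tup m a) (Finset.mem_univ (Fin.last _))
      rw [tup_last, dvd_neg] at this
      exact this
    have h2 : univ.gcd (tup m a) ∣ a 0 ^ m := by
      have := Finset.gcd_dvd (f := tup m a) (Finset.mem_univ (Fin.last (m * (g + 1))).castSucc)
      rw [tup_castSucc, pos_last] at this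
      exact this
    have h3 : IsUnit (univ.gcd (tup m a)) :=
      (IsCoprime.pow hg : IsCoprime (a 0 ^ m) ((∑ i, a i) ^ m)).isUnit_of_dvd' h2 h1
    rw [← Finset.normalize_gcd]
    exact normalize_eq_one.2 h3
  · intro I hI hI'
    by_cases hl : Fin.last _ ∈ I
    · have h1 : ∑ i ∈ I, tup m a i + ∑ i ∈ Iᶜ, tup m a i = 0 := by
        rw [Finset.sum_add_sum_compl, sum_tup]
      have h2 : 0 < ∑ i ∈ Iᶜ, tup m a i := by
        refine Finset.sum_pos ?_ ?_
        · intro i hi
          rw [Finset.mem_compl] at hi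
          have hne : i ≠ Fin.last _ := fun h' => hi (by rw [h']; exact hl)
          obtain ⟨k, rfl⟩ := Fin.exists_castSucc_eq.2 hne
          rw [tup_castSucc]
          exact pos_pos ha _
        · rw [Finset.nonempty_iff_ne_empty, Ne, Finset.compl_eq_empty_iff]
          exact hI'
      intro h3
      rw [h3] at h1
      linarith
    · refine (Finset.sum_pos ?_ hI).ne'
      intro i hi
      have hne : i ≠ Fin.last _ := fun h' => hl (by rw [← h']; exact hi)
      obtain ⟨k, rfl⟩ := Fin.exists_castSucc_eq.2 hne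
      rw [tup_castSucc]
      exact pos_pos ha _

theorem rad_tup {a : Fin (g + 2) → ℤ} (ha : ∀ i, 0 < a i) :
    rad (∏ k, tup m a k) ≤ (∏ i, rad (a i)) * rad (∑ i, a i) := by
  have hs := sum_pos_of ha
  have h1 : rad (∏ k, tup m a k) ≤ rad ((∏ i, a i) * ∑ i, a i) := by
    apply rad_le_of_subset
    intro p hp
    have hpp := Nat.prime_of_mem_primeFactors hp
    have hpi : Prime (p : ℤ) := Nat.prime_iff_prime_int.1 hpp
    have hpd : (p : ℤ) ∣ ∏ k, tup m a k := Int.natCast_dvd.2 (Nat.dvd_of_mem_primeFactors hp)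
    rw [Nat.mem_primeFactors]
    have hin : ∀ i, (p : ℤ) ∣ a i → (p : ℤ) ∣ (∏ i, a i) * ∑ i, a i := fun i hi =>
      (hi.trans (Finset.dvd_prod_of_mem a (Finset.mem_univ i))).mul_right _
    refine ⟨hpp, ?_, ?_⟩
    · rw [← Int.natCast_dvd]
      obtain ⟨k, -, hk⟩ := (Prime.dvd_finsetProd_iff hpi _).1 hpd
      induction k using Fin.lastCases with
      | last =>
        rw [tup_last, dvd_neg] at hk
        exact (hpi.dvd_of_dvd_pow hk).mul_left _
      | cast k =>
        rw [tup_castSucc] at hk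
        induction k using Fin.lastCases with
        | last =>
          rw [pos_last] at hk
          exact hin 0 (hpi.dvd_of_dvd_pow hk)
        | cast k =>
          rw [pos_castSucc] at hk
          unfold mon at hk
          rcases hpi.dvd_or_dvd hk with h2 | h2
          · exact hin _ h2
          · rcases hpi.dvd_or_dvd h2 with h3 | h3
            · exact hin 0 (hpi.dvd_of_dvd_pow h3)
            · exact (hpi.dvd_of_dvd_pow h3).mul_left _
    · rw [Ne, Int.natAbs_eq_zero]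
      have h5 : 0 < ∏ i, a i := Finset.prod_pos fun i _ => ha i
      positivity
  exact h1.trans ((rad_mul_le _ _).trans (Nat.mul_le_mul_right _ (rad_prod_le _ _)))

theorem abs_tup_le {a : Fin (g + 2) → ℤ} (ha : ∀ i, 0 < a i)
    (k : Fin (m * (g + 1) + 2)) : |tup m a k| ≤ (∑ i, a i) ^ m := by
  have hs := sum_pos_of ha
  induction k using Fin.lastCases with
  | last => rw [tup_last, abs_neg, abs_of_pos (pow_pos hs m)]
  | cast k =>
    rw [tup_castSucc, abs_of_pos (pos_pos ha _), ← sum_pos']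
    exact Finset.single_le_sum (f := fun k => pos m a k) (fun k _ => (pos_pos ha _).le)
      (Finset.mem_univ k)

theorem tup_inj (hm : 1 ≤ m) {a b : Fin (g + 2) → ℤ} (ha : ∀ i, 0 < a i) (hb : ∀ i, 0 < b i)
    (hab : tup m a = tup m b) : a = b := by
  have hsa := sum_pos_of ha
  have hsb := sum_pos_of hb
  have hs : ∑ i, a i = ∑ i, b i := by
    have h1 := congrFun hab (Fin.last _)
    rw [tup_last, tup_last, neg_inj] at h1
    exact (pow_left_inj₀ hsa.le hsb.le (by omega)).1 h1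
  have h0 : a 0 = b 0 := by
    have h1 := congrFun hab (Fin.last (m * (g + 1))).castSucc
    rw [tup_castSucc, tup_castSucc, pos_last, pos_last] at h1
    exact (pow_left_inj₀ (ha 0).le (hb 0).le (by omega)).1 h1
  funext i
  refine Fin.cases h0 (fun j => ?_) i
  have h1 := congrFun hab (finProdFinEquiv ((⟨0, by omega⟩ : Fin m), j)).castSucc.castSucc
  rw [tup_castSucc, tup_castSucc, pos_castSucc, pos_castSucc, Equiv.symm_apply_apply] at h1
  unfold mon at h1
  simp only [pow_zero, one_mul] at h1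
  rw [← hs] at h1
  exact mul_right_cancel₀ (pow_pos hsa _).ne' h1

end Pool.Agent.K1H71.NX.COMP2

namespace Pool.Agent.K1H71.NX

open Finset COMP2

theorem t_COMP2 : S_COMP2 := by
  intro g m κ A e hm hκ hpos K hK
  set K' : ℝ := K + 1 with hK'
  have hK'1 : 1 ≤ K' := by rw [hK']; linarith
  obtain ⟨c, C, X₀, hc, hC, hX⟩ := hpos K' (by linarith)
  refine ⟨c, C ^ m, max 1 X₀, hc, by positivity, ?_⟩
  intro X hXX
  have hX1 : 1 ≤ X := (le_max_left _ _).trans hXX
  have hX0 : 0 < X := by linarith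
  obtain ⟨T, hT, hTc⟩ := hX X ((le_max_right _ _).trans hXX)
  refine ⟨T.image (tup m), ?_, ?_⟩
  · intro x hx
    rw [Finset.mem_image] at hx
    obtain ⟨a, ha, rfl⟩ := hx
    obtain ⟨h1, h2, h3, h4, h5⟩ := hT a ha
    have hs := sum_pos_of h1
    have hrad : (rad (∏ k, tup m a k) : ℝ) ≤ X := by
      have h6 := rad_tup (m := m) h1
      refine le_trans ?_ h3
      exact_mod_cast h6
    have hbig : K * (X : ℝ) ^ ((m : ℝ) * κ) < (((∑ i, a i : ℤ) : ℝ)) ^ m := by
      have h9 : (K' * X ^ κ) ^ m ≤ ((∑ i, a i : ℤ) : ℝ) ^ m :=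
        pow_le_pow_left₀ (by positivity) h4 m
      refine lt_of_lt_of_le ?_ h9
      rw [mul_pow, ← Real.rpow_natCast (X ^ κ), ← Real.rpow_mul hX0.le, mul_comm κ]
      have h10 : K' ≤ K' ^ m := le_self_pow₀ hK'1 (by omega)
      have hXp : 0 < X ^ ((m : ℝ) * κ) := Real.rpow_pos_of_pos hX0 _
      refine mul_lt_mul_of_pos_right ?_ hXp
      linarith
    refine ⟨adm_tup h1 h2, hrad, ⟨Fin.last _, ?_⟩, ?_⟩
    · rw [tup_last]
      push_cast
      have hs' : (0 : ℝ) < ∑ i, (a i : ℝ) := by exact_mod_cast hs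
      rw [abs_neg, abs_of_pos (pow_pos hs' m)]
      push_cast at hbig
      refine lt_of_le_of_lt ?_ hbig
      refine mul_le_mul_of_nonneg_left ?_ hK.le
      refine Real.rpow_le_rpow (by positivity) ?_ (by positivity)
      exact_mod_cast hrad
    · intro k
      have h11 := abs_tup_le (m := m) h1 k
      have h12 : |((tup m a k : ℤ) : ℝ)| ≤ ((∑ i, a i : ℤ) : ℝ) ^ m := by
        exact_mod_cast h11
      refine h12.trans ?_
      have h13 : ((∑ i, a i : ℤ) : ℝ) ^ m ≤ (C * X ^ A) ^ m :=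
        pow_le_pow_left₀ (by exact_mod_cast hs.le) h5 m
      refine h13.trans (le_of_eq ?_)
      rw [mul_pow, mul_comm (m : ℝ) A, Real.rpow_mul hX0.le, Real.rpow_natCast]
  · rw [Finset.card_image_of_injOn]
    · exact hTc
    · intro a ha b hb hab
      exact tup_inj hm (hT a ha).1 (hT b hb).1 hab

end Pool.Agent.K1H71.NX
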