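import Pool.Agent.K1H71.NX.Main
import Pool.Agent.K1H71.NX.T_COMP2

/-! The assembly with the new identity (helper71). -/

set_option autoImplicit false

namespace Pool.Agent.K1H71.NX.Main2

open Finset Filter Pool.Agent.K1H71.NX.Main

theorem one_le_rad (a : ℤ) : 1 ≤ rad a := Pool.Agent.K1H71.NX.COMP.rad_pos a

/-- smaller exponents -/
theorem weakenM {n : ℕ} {M M' A e : ℝ} (h : LB n M' A e) (hM : M ≤ M') : LB n M A e := by
  intro K hK
  obtain ⟨c, C, X₀, hc, hC, h1⟩ := h K hK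
  refine ⟨c, C, X₀, hc, hC, fun X hX => ?_⟩
  obtain ⟨T, hT, hc2⟩ := h1 X hX
  refine ⟨T, fun x hx => ?_, hc2⟩
  obtain ⟨g1, g2, ⟨i, g3⟩, g4⟩ := hT x hx
  refine ⟨g1, g2, ⟨i, lt_of_le_of_lt ?_ g3⟩, g4⟩
  refine mul_le_mul_of_nonneg_left ?_ hK.le
  exact Real.rpow_le_rpow_of_exponent_le (by exact_mod_cast one_le_rad _) hM

/-- `κ` between `1 / (g + 3)` and `1 / (g + 2)` -/
theorem mid (hmono : S_MONO) (hpos : S_POS3) {n g m : ℕ} {κ δ : ℝ}
    (hm : 1 ≤ m) (hn : m * (g + 1) + 2 ≤ n)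
    (hk1 : 1 / ((g : ℝ) + 3) ≤ κ) (hk2 : κ < 1 / ((g : ℝ) + 2)) (hδ : 0 < δ) :
    LB n (m * κ) (m * κ) (1 - κ - δ) := by
  have hκ0 : 0 ≤ κ := le_trans (by positivity) hk1
  have h3 := t_COMP2 g m κ _ _ hm hκ0 (hpos g κ δ hk1 hk2 hδ)
  exact mono_le hmono (by omega) (by positivity) h3 hn

/-- the same, `κ < 1 / 2` arbitrary -/
theorem mid' (hmono : S_MONO) (hpos : S_POS3) {n m : ℕ} {κ δ : ℝ}
    (hm : 1 ≤ m) (hκ : 0 < κ) (hκ2 : κ < 1 / 2) (hn : ∀ q : ℕ, 3 ≤ q → (q : ℝ) < 1 / κ + 1 →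
      m * (q - 2) + 2 ≤ n) (hδ : 0 < δ) : LB n (m * κ) (m * κ) (1 - κ - δ) := by
  obtain ⟨q, hq⟩ : ∃ q : ℕ, q = ⌈1 / κ⌉₊ := ⟨_, rfl⟩
  have hq1 : 1 / κ ≤ q := by rw [hq]; exact Nat.le_ceil _
  have hq2 : (q : ℝ) < 1 / κ + 1 := by rw [hq]; exact Nat.ceil_lt_add_one (by positivity)
  have hk2 : 2 < 1 / κ := by
    rw [lt_div_iff₀ hκ]
    linarith
  have hq3 : 3 ≤ q := by
    have : (2 : ℝ) < q := by linarith
    have : 2 < q := by exact_mod_cast this
    omega
  have hnq := hn q hq3 hq2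
  obtain ⟨g, rfl⟩ : ∃ g, q = g + 3 := ⟨q - 3, by omega⟩
  push_cast at hq1 hq2
  have hg0 : (0 : ℝ) ≤ g := Nat.cast_nonneg g
  refine mid hmono hpos hm (by rw [show g + 3 - 2 = g + 1 by omega] at hnq; exact hnq) ?_ ?_ hδ
  · rw [div_le_iff₀ (by linarith)]
    rw [div_le_iff₀ hκ] at hq1
    linarith
  · rw [lt_div_iff₀ (by linarith)]
    have : (g : ℝ) + 2 < 1 / κ := by linarith
    rw [lt_div_iff₀ hκ] at this
    linarith

theorem two (hmono : S_MONO) (hpos : S_POS3) (hB : S_BB)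
    {n N m : ℕ} {M δ : ℝ} (hN : 3 ≤ N) (hm : 1 ≤ m) (hn : m * (N - 2) + 2 ≤ n)
    (hM : 0 ≤ M) (hMm : M < m) (hδ : 0 < δ) :
    LB n M (2 * m) (min (1 - 1 / (N : ℝ)) (1 - M / m) - δ) := by
  have hm0 : (0 : ℝ) < m := by exact_mod_cast hm
  have hm1 : (1 : ℝ) ≤ m := by exact_mod_cast hm
  obtain ⟨g, rfl⟩ : ∃ g, N = g + 3 := ⟨N - 3, by omega⟩
  rw [show g + 3 - 2 = g + 1 by omega] at hn
  have hg0 : (0 : ℝ) ≤ g := Nat.cast_nonneg g
  push_cast
  have hmn : m + 2 ≤ n := by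
    have : m * 1 ≤ m * (g + 1) := Nat.mul_le_mul_left m (by omega)
    omega
  obtain ⟨κ, hκ⟩ : ∃ κ : ℝ, κ = M / m := ⟨_, rfl⟩
  have hκ0 : 0 ≤ κ := by rw [hκ]; positivity
  have hκm : (m : ℝ) * κ = M := by rw [hκ]; field_simp
  rw [← hκ]
  rcases lt_or_ge κ (1 / ((g : ℝ) + 3)) with hc | hc
  · have h3 := mid hmono hpos (n := n) (g := g) (m := m) (κ := 1 / ((g : ℝ) + 3)) (δ := δ) hm hn
      (le_refl _) (one_div_lt_one_div_of_lt (by linarith) (by linarith)) hδ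
    refine weaken (weakenM h3 (M := M) ?_) ?_ ?_
    · rw [← hκm]
      exact mul_le_mul_of_nonneg_left hc.le hm0.le
    · have : 1 / ((g : ℝ) + 3) ≤ 1 := by rw [div_le_one (by linarith)]; linarith
      nlinarith
    · have := min_le_left (1 - 1 / ((g : ℝ) + 3)) (1 - κ)
      linarith
  · rcases lt_or_ge κ (1 / 2) with hc2 | hc2
    · have hκp : 0 < κ := lt_of_lt_of_le (by positivity) hc
      have h3 := mid' hmono hpos (n := n) (m := m) (κ := κ) (δ := δ) hm hκp hc2 (by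
        intro q hq hq2
        have h4 : 1 / κ ≤ (g : ℝ) + 3 := by
          rw [div_le_iff₀ hκp]
          rw [div_le_iff₀ (by linarith)] at hc
          linarith
        have h5 : (q : ℝ) < (g : ℝ) + 4 := by linarith
        have h6 : q < g + 4 := by exact_mod_cast h5
        have h7 : m * (q - 2) ≤ m * (g + 1) := Nat.mul_le_mul_left m (by omega)
        omega) hδ
      rw [hκm] at h3
      refine weaken h3 (by linarith) ?_
      have := min_le_right (1 - 1 / ((g : ℝ) + 3)) (1 - κ)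
      linarith
    · obtain ⟨r, rfl⟩ : ∃ r, m = r + 1 := ⟨m - 1, by omega⟩
      have hr0 : (0 : ℝ) ≤ r := Nat.cast_nonneg r
      push_cast at hMm hm0 hm1 hκm hκ ⊢
      have hMr : M < 2 * (r : ℝ) + 1 := by linarith
      have h3 := Fam.fam hB r M hM hMr
      refine weaken (mono_le hmono (by omega) hM h3 (by omega)) ?_ ?_
      · refine max_le ?_ ?_ <;> linarith
      · have h4 := min_le_right (1 - 1 / ((g : ℝ) + 3)) (1 - κ)
        have h5 : M / (2 * (r : ℝ) + 1) ≤ κ := by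
          rw [hκ]
          exact div_le_div_of_nonneg_left hM (by linarith) (by linarith)
        refine le_min ?_ ?_ <;> linarith

/-- the choice of the parameters -/
theorem params {n : ℕ} {M : ℝ} (hn : 3 ≤ n) (hM : 0 ≤ M) (hMn : M < n - 2) :
    ∃ N m : ℕ, 3 ≤ N ∧ 1 ≤ m ∧ M < m ∧ m * (N - 2) + 2 ≤ n ∧
      1 - Real.sqrt ((M + 1) / (n - 1)) ≤ min (1 - 1 / (N : ℝ)) (1 - M / m) := by
  have hn3 : (3 : ℝ) ≤ n := by exact_mod_cast hn
  obtain ⟨s, hs⟩ : ∃ s : ℝ, s = Real.sqrt ((M + 1) / (n - 1)) := ⟨_, rfl⟩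
  rw [← hs]
  have hq0 : 0 < (M + 1) / ((n : ℝ) - 1) := by
    apply div_pos <;> linarith
  have hq1 : (M + 1) / ((n : ℝ) - 1) < 1 := by
    rw [div_lt_one (by linarith)]
    linarith
  have hs0 : 0 < s := by rw [hs]; exact Real.sqrt_pos.2 hq0
  have hss : s * s = (M + 1) / ((n : ℝ) - 1) := by rw [hs]; exact Real.mul_self_sqrt hq0.le
  have hs1 : s < 1 := by
    by_contra h
    push Not at h
    nlinarith
  have hss' : s * s * ((n : ℝ) - 1) = M + 1 := by
    rw [hss]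
    have : (n : ℝ) - 1 ≠ 0 := by linarith
    field_simp
  rcases le_or_gt (1 / 2) s with h2 | h2
  · -- three forms
    refine ⟨3, n - 2, le_refl _, by omega, ?_, by omega, ?_⟩
    · rw [Nat.cast_sub (by omega)]
      push_cast
      exact hMn
    · rw [Nat.cast_sub (by omega)]
      push_cast
      refine le_min (by linarith) ?_
      have h3 : M / ((n : ℝ) - 2) ≤ s := by
        rw [div_le_iff₀ (by linarith)]
        have h4 : s * s ≤ s := by nlinarith
        have h5 : M ≤ s * s * ((n : ℝ) - 2) := by nlinarith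
        nlinarith
      linarith
  · obtain ⟨t, ht⟩ : ∃ t : ℝ, t = 1 / s := ⟨_, rfl⟩
    have hts : t * s = 1 := by rw [ht]; field_simp
    have ht0 : 0 < t := by rw [ht]; positivity
    have ht2 : 2 < t := by
      rw [ht, lt_div_iff₀ hs0]
      linarith
    have htt : (M + 1) * (t * t) = (n : ℝ) - 1 := by
      rw [← hss']
      calc s * s * ((n : ℝ) - 1) * (t * t) = (t * s) * (t * s) * ((n : ℝ) - 1) := by ring
        _ = (n : ℝ) - 1 := by rw [hts]; ring
    obtain ⟨m, hm⟩ : ∃ m : ℕ, m = ⌊M * t⌋₊ + 1 := ⟨_, rfl⟩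
    have hmr : M * t < m := by rw [hm]; push_cast; exact Nat.lt_floor_add_one _
    have hmr2 : (m : ℝ) ≤ M * t + 1 := by
      rw [hm]; push_cast
      have := Nat.floor_le (by positivity : 0 ≤ M * t)
      linarith
    have hm1 : 1 ≤ m := by omega
    have hm0 : (0 : ℝ) < m := by exact_mod_cast hm1
    obtain ⟨N, hN⟩ : ∃ N : ℕ, N = ⌈t⌉₊ := ⟨_, rfl⟩
    have hN1 : t ≤ N := by rw [hN]; exact Nat.le_ceil _
    have hN2 : (N : ℝ) < t + 1 := by rw [hN]; exact Nat.ceil_lt_add_one ht0.le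
    have hN3 : 3 ≤ N := by
      have : (2 : ℝ) < N := by linarith
      have : 2 < N := by exact_mod_cast this
      omega
    refine ⟨N, m, hN3, hm1, by nlinarith, ?_, ?_⟩
    · have h3 : ((m * (N - 2) + 2 : ℕ) : ℝ) < (n : ℝ) + 1 := by
        rw [Nat.cast_add, Nat.cast_mul, Nat.cast_sub (by omega)]
        push_cast
        have h4 : (m : ℝ) * ((N : ℝ) - 2) ≤ (M * t + 1) * (t - 1) := by
          apply mul_le_mul hmr2 (by linarith) _ (by positivity)
          have : (3 : ℝ) ≤ N := by exact_mod_cast hN3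
          linarith
        nlinarith
      have h5 : m * (N - 2) + 2 < n + 1 := by exact_mod_cast h3
      omega
    · have hs' : s = 1 / t := by rw [ht]; field_simp
      refine le_min ?_ ?_
      · have h3 : 1 / (N : ℝ) ≤ 1 / t := one_div_le_one_div_of_le ht0 hN1
        linarith
      · have h3 : M / m ≤ s := by
          rw [div_le_iff₀ hm0, hs', one_div_mul_eq_div, le_div_iff₀ ht0]
          linarith
        linarith

end Pool.Agent.K1H71.NX.Main2
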