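import Pool.Agent.K1H71.NX.Defs

/-! Waring's identity for `a ^ (2 r + 1) + b ^ (2 r + 1)` (helper24, for helper71, project NX). -/

set_option autoImplicit false

namespace Pool.Agent.K1H71.NX.WAR

open Finset

/-- the coefficients -/
def E : ℕ → ℕ → ℕ
  | 0, 0 => 2
  | 0, _ + 1 => 0
  | 1, 0 => 1
  | 1, _ + 1 => 0
  | m + 2, 0 => E (m + 1) 0
  | m + 2, j + 1 => E (m + 1) (j + 1) + E m j

theorem E_zero : ∀ m j : ℕ, m < 2 * j → E m j = 0
  | 0, 0, h => by omega
  | 0, _ + 1, _ => by simp [E]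
  | 1, 0, h => by omega
  | 1, _ + 1, _ => by simp [E]
  | m + 2, 0, h => by omega
  | m + 2, j + 1, h => by
    simp only [E]
    rw [E_zero (m + 1) (j + 1) (by omega), E_zero m j (by omega)]

theorem E_pos : ∀ m j : ℕ, 2 * j ≤ m → 0 < E m j
  | 0, 0, _ => by simp [E]
  | 0, _ + 1, h => by omega
  | 1, 0, _ => by simp [E]
  | 1, _ + 1, h => by omega
  | m + 2, 0, _ => by
    simp only [E]
    exact E_pos (m + 1) 0 (by omega)
  | m + 2, j + 1, h => by
    simp only [E]
    have := E_pos m j (by omega)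
    omega

theorem E_one : ∀ m : ℕ, E (m + 1) 0 = 1
  | 0 => by simp [E]
  | m + 1 => by
    simp only [E]
    exact E_one m

section
variable {R : Type} [CommRing R] (a b : R)

/-- the terms -/
def F (m j : ℕ) : R := (-1) ^ j * (E m j : R) * (a * b) ^ j * (a + b) ^ (m - 2 * j)

theorem F_zero (m j : ℕ) (h : m < 2 * j) : F a b m j = 0 := by
  simp [F, E_zero m j h]

theorem F_rec0 (m : ℕ) : F a b (m + 2) 0 = (a + b) * F a b (m + 1) 0 := by
  simp only [F, E]
  simp only [pow_zero, mul_zero, Nat.sub_zero]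
  ring

theorem F_rec (m j : ℕ) :
    F a b (m + 2) (j + 1) = (a + b) * F a b (m + 1) (j + 1) - a * b * F a b m j := by
  simp only [F, E]
  have h1 : m + 2 - 2 * (j + 1) = m - 2 * j := by omega
  rw [h1]
  push_cast
  by_cases h : 2 * (j + 1) ≤ m + 1
  · have h2 : m - 2 * j = (m + 1 - 2 * (j + 1)) + 1 := by omega
    rw [h2]
    ring
  · rw [E_zero (m + 1) (j + 1) (by omega)]
    push_cast
    ring

theorem F_sum : ∀ m N : ℕ, m ≤ N → ∑ j ∈ range (N + 1), F a b m j = a ^ m + b ^ m
  | 0, N, _ => by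
    rw [Finset.sum_eq_single 0]
    · simp only [F, E]
      simp
      norm_num
    · intro j _ hj
      exact F_zero a b 0 j (by omega)
    · simp
  | 1, N, _ => by
    rw [Finset.sum_eq_single 0]
    · simp only [F, E]
      simp
    · intro j _ hj
      exact F_zero a b 1 j (by omega)
    · simp
  | m + 2, 0, h => by omega
  | m + 2, N + 1, h => by
    have h1 := F_sum (m + 1) (N + 1) (by omega)
    have h0 := F_sum m N (by omega)
    rw [Finset.sum_range_succ'] at h1 ⊢
    simp only [F_rec, F_rec0]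
    rw [Finset.sum_sub_distrib, ← Finset.mul_sum, ← Finset.mul_sum, h0]
    have h2 : (a + b) * (∑ k ∈ range (N + 1), F a b (m + 1) (k + 1)) + (a + b) * F a b (m + 1) 0
        = (a + b) * (a ^ (m + 1) + b ^ (m + 1)) := by
      rw [← h1]
      ring
    linear_combination h2

end

end Pool.Agent.K1H71.NX.WAR

namespace Pool.Agent.K1H71.NX

open Finset

theorem t_WAR : S_WAR := by
  intro r
  refine ⟨fun j => WAR.E (2 * r + 1) j, ?_, ?_, ?_⟩
  · exact WAR.E_one (2 * r)
  · intro j hj
    exact WAR.E_pos _ _ (by omega)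
  · intro R _ a b
    have h := WAR.F_sum a b (2 * r + 1) (2 * r + 1) le_rfl
    rw [← h]
    symm
    apply Finset.sum_subset
    · intro j hj
      rw [mem_range] at hj ⊢
      omega
    · intro j _ hj
      rw [mem_range] at hj
      exact WAR.F_zero a b _ j (by omega)

end Pool.Agent.K1H71.NX
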