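import Pool.Agent.K1H71.NX.Defs3
import Pool.Agent.K1H71.NX.T_COMP
import Pool.Agent.K1H71.NX.T_WAR

/-! Project NX3, piece COMP4: the identity
`s ^ (2 r + 1) = a_0 ^ (2 r + 1) + ∑_(i < r) e_i (s a_0) ^ i b ^ (2 r + 1 - 2 i) +
∑_j e_r (s a_0) ^ r a_j`, `b = a_1 + ⋯ + a_h`, `s = a_0 + b` (helper71). -/

set_option autoImplicit false

namespace Pool.Agent.K1H71.NX

open Finset

/-- COMP4: `LB` from `PosLB3`, degree `2 r + 1` with `h + r + 2` terms -/
def S_COMP4 : Prop :=
  ∀ (h r : ℕ) (κ e : ℝ), 1 ≤ h → 0 ≤ κ → PosLB3 h κ e →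
    LB (h + r + 2) ((2 * (r : ℝ) + 1) * κ) ((2 * (r : ℝ) + 1) * κ) e

end Pool.Agent.K1H71.NX

namespace Pool.Agent.K1H71.NX.COMP4

open Finset
open Pool.Agent.K1H71.NX.COMP (rad_pos rad_le_of_subset rad_mul_le rad_prod_le rad_natCast_le)

variable {h r : ℕ} {e : ℕ → ℕ}

/-- `b` -/
def bb (a : Fin (h + 1) → ℤ) : ℤ := ∑ j : Fin h, a j.succ

/-- `s` -/
def ss (a : Fin (h + 1) → ℤ) : ℤ := ∑ i, a i

theorem ss_eq (a : Fin (h + 1) → ℤ) : ss a = a 0 + bb a := by
  unfold ss bb
  rw [Fin.sum_univ_succ]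

/-- the terms `e_r (s a_0) ^ r a_j` and `e_i (s a_0) ^ i b ^ (2 r + 1 - 2 i)` -/
def low (r : ℕ) (e : ℕ → ℕ) (a : Fin (h + 1) → ℤ) : Fin (h + r) → ℤ :=
  Fin.append (fun j : Fin h => (e r : ℤ) * ((ss a * a 0) ^ r * a j.succ))
    (fun i : Fin r => (e i : ℤ) * ((ss a * a 0) ^ (i : ℕ) * bb a ^ (2 * r + 1 - 2 * (i : ℕ))))

/-- all positive terms -/
def pos (r : ℕ) (e : ℕ → ℕ) (a : Fin (h + 1) → ℤ) : Fin (h + r + 1) → ℤ :=
  Fin.snoc (α := fun _ => ℤ) (low r e a) (a 0 ^ (2 * r + 1))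

/-- the tuple -/
def tup (r : ℕ) (e : ℕ → ℕ) (a : Fin (h + 1) → ℤ) : Fin (h + r + 2) → ℤ :=
  Fin.snoc (α := fun _ => ℤ) (pos r e a) (-ss a ^ (2 * r + 1))

theorem low_left (a : Fin (h + 1) → ℤ) (j : Fin h) :
    low r e a (Fin.castAdd r j) = (e r : ℤ) * ((ss a * a 0) ^ r * a j.succ) := by
  simp [low]

theorem low_right (a : Fin (h + 1) → ℤ) (i : Fin r) :
    low r e a (Fin.natAdd h i) =
      (e i : ℤ) * ((ss a * a 0) ^ (i : ℕ) * bb a ^ (2 * r + 1 - 2 * (i : ℕ))) := by
  simp [low]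

theorem pos_castSucc (a : Fin (h + 1) → ℤ) (k : Fin (h + r)) :
    pos r e a k.castSucc = low r e a k := by
  simp [pos]

theorem pos_last (a : Fin (h + 1) → ℤ) : pos r e a (Fin.last _) = a 0 ^ (2 * r + 1) := by
  simp [pos]

theorem tup_castSucc (a : Fin (h + 1) → ℤ) (k : Fin (h + r + 1)) :
    tup r e a k.castSucc = pos r e a k := by
  simp [tup]

theorem tup_last (a : Fin (h + 1) → ℤ) : tup r e a (Fin.last _) = -ss a ^ (2 * r + 1) := by
  simp [tup]

theorem sign (j : ℕ) (x y : ℤ) (c : ℤ) : (-1) ^ j * c * (x * -y) ^ j = c * (x * y) ^ j := by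
  have h1 : x * -y = (-1) * (x * y) := by ring
  rw [h1, mul_pow (-1) (x * y)]
  have h2 : ((-1 : ℤ)) ^ j * (-1) ^ j = 1 := by
    rw [← mul_pow]; norm_num
  linear_combination c * (x * y) ^ j * h2

theorem sum_low (W : War r e) (a : Fin (h + 1) → ℤ) :
    ∑ k, low r e a k = ss a ^ (2 * r + 1) - a 0 ^ (2 * r + 1) := by
  rw [Fin.sum_univ_add]
  simp only [low_left, low_right]
  rw [← Finset.mul_sum, ← Finset.mul_sum]
  rw [Fin.sum_univ_eq_sum_range
    (fun i => (e i : ℤ) * ((ss a * a 0) ^ i * bb a ^ (2 * r + 1 - 2 * i))) r]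
  have h1 := W.eq ℤ (ss a) (-a 0)
  have hodd : (-a 0) ^ (2 * r + 1) = -(a 0 ^ (2 * r + 1)) := Odd.neg_pow ⟨r, rfl⟩ _
  rw [hodd, Finset.sum_range_succ] at h1
  have h4 : ∑ j : Fin h, a j.succ = bb a := rfl
  have h5 := ss_eq a
  have h6 : ss a + -a 0 = bb a := by rw [h5]; ring
  rw [h6] at h1
  have h7 : 2 * r + 1 - 2 * r = 1 := by omega
  rw [h7, pow_one, sign] at h1
  have h8 : ∑ x ∈ range r, (-1) ^ x * (e x : ℤ) * (ss a * -a 0) ^ x * bb a ^ (2 * r + 1 - 2 * x) =
      ∑ i ∈ range r, (e i : ℤ) * ((ss a * a 0) ^ i * bb a ^ (2 * r + 1 - 2 * i)) :=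
    Finset.sum_congr rfl fun i _ => by rw [sign, mul_assoc]
  rw [h8] at h1
  rw [h4]
  linear_combination -h1

theorem sum_pos' (W : War r e) (a : Fin (h + 1) → ℤ) :
    ∑ k, pos r e a k = ss a ^ (2 * r + 1) := by
  rw [Fin.sum_univ_castSucc]
  simp only [pos_castSucc, pos_last]
  rw [sum_low W]
  ring

theorem sum_tup (W : War r e) (a : Fin (h + 1) → ℤ) : ∑ k, tup r e a k = 0 := by
  rw [Fin.sum_univ_castSucc]
  simp only [tup_castSucc, tup_last]
  rw [sum_pos' W]
  ring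

theorem ss_pos {a : Fin (h + 1) → ℤ} (ha : ∀ i, 0 < a i) : 0 < ss a :=
  Finset.sum_pos (fun i _ => ha i) Finset.univ_nonempty

theorem bb_pos (hh : 1 ≤ h) {a : Fin (h + 1) → ℤ} (ha : ∀ i, 0 < a i) : 0 < bb a := by
  have : Nonempty (Fin h) := ⟨⟨0, by omega⟩⟩
  exact Finset.sum_pos (fun j _ => ha j.succ) Finset.univ_nonempty

theorem e_pos (W : War r e) {i : ℕ} (hi : i ≤ r) : (0 : ℤ) < e i := by
  exact_mod_cast W.pos i hi

theorem low_pos (W : War r e) (hh : 1 ≤ h) {a : Fin (h + 1) → ℤ} (ha : ∀ i, 0 < a i)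
    (k : Fin (h + r)) : 0 < low r e a k := by
  have hs := ss_pos ha
  have hb := bb_pos hh ha
  have h0 := ha 0
  induction k using Fin.addCases with
  | left j => rw [low_left]; have := ha j.succ; have := e_pos W (le_refl r); positivity
  | right i => rw [low_right]; have := e_pos W i.2.le; positivity

theorem pos_pos (W : War r e) (hh : 1 ≤ h) {a : Fin (h + 1) → ℤ} (ha : ∀ i, 0 < a i)
    (k : Fin (h + r + 1)) : 0 < pos r e a k := by
  induction k using Fin.lastCases with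
  | last => rw [pos_last]; exact pow_pos (ha 0) _
  | cast k => rw [pos_castSucc]; exact low_pos W hh ha _

theorem adm_tup (W : War r e) (hh : 1 ≤ h) {a : Fin (h + 1) → ℤ} (ha : ∀ i, 0 < a i)
    (hg : IsCoprime (a 0) (∑ i, a i)) : Adm (tup r e a) := by
  refine ⟨?_, sum_tup W a, ?_⟩
  · have h1 : univ.gcd (tup r e a) ∣ (ss a) ^ (2 * r + 1) := by
      have := Finset.gcd_dvd (f := tup r e a) (Finset.mem_univ (Fin.last _))
      rw [tup_last, dvd_neg] at this
      exact this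
    have h2 : univ.gcd (tup r e a) ∣ a 0 ^ (2 * r + 1) := by
      have := Finset.gcd_dvd (f := tup r e a) (Finset.mem_univ (Fin.last (h + r)).castSucc)
      rw [tup_castSucc, pos_last] at this
      exact this
    have h3 : IsUnit (univ.gcd (tup r e a)) :=
      (IsCoprime.pow hg : IsCoprime (a 0 ^ (2 * r + 1)) ((ss a) ^ (2 * r + 1))).isUnit_of_dvd' h2 h1
    rw [← Finset.normalize_gcd]
    exact normalize_eq_one.2 h3
  · intro I hI hI'
    by_cases hl : Fin.last _ ∈ I
    · have h1 : ∑ i ∈ I, tup r e a i + ∑ i ∈ Iᶜ, tup r e a i = 0 := by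
        rw [Finset.sum_add_sum_compl, sum_tup W]
      have h2 : 0 < ∑ i ∈ Iᶜ, tup r e a i := by
        refine Finset.sum_pos ?_ ?_
        · intro i hi
          rw [Finset.mem_compl] at hi
          have hne : i ≠ Fin.last _ := fun h' => hi (by rw [h']; exact hl)
          obtain ⟨k, rfl⟩ := Fin.exists_castSucc_eq.2 hne
          rw [tup_castSucc]
          exact pos_pos W hh ha _
        · rw [Finset.nonempty_iff_ne_empty, Ne, Finset.compl_eq_empty_iff]
          exact hI'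
      intro h3
      rw [h3] at h1
      linarith
    · refine (Finset.sum_pos ?_ hI).ne'
      intro i hi
      have hne : i ≠ Fin.last _ := fun h' => hl (by rw [← h']; exact hi)
      obtain ⟨k, rfl⟩ := Fin.exists_castSucc_eq.2 hne
      rw [tup_castSucc]
      exact pos_pos W hh ha _

/-- the product of the coefficients -/
def cf (r : ℕ) (e : ℕ → ℕ) : ℕ := ∏ i ∈ range (r + 1), e i

theorem cf_pos (W : War r e) : 0 < cf r e :=
  Finset.prod_pos fun i hi => W.pos i (by rw [mem_range] at hi; omega)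

theorem rad_tup (W : War r e) (hh : 1 ≤ h) {a : Fin (h + 1) → ℤ} (ha : ∀ i, 0 < a i) :
    rad (∏ k, tup r e a k) ≤ cf r e * ((∏ i, rad (a i)) * (rad (ss a) * rad (bb a))) := by
  have hs := ss_pos ha
  have hb := bb_pos hh ha
  have h1 : rad (∏ k, tup r e a k) ≤ rad ((cf r e : ℤ) * ((∏ i, a i) * (ss a * bb a))) := by
    apply rad_le_of_subset
    intro p hp
    have hpp := Nat.prime_of_mem_primeFactors hp
    have hpi : Prime (p : ℤ) := Nat.prime_iff_prime_int.1 hpp
    have hpd : (p : ℤ) ∣ ∏ k, tup r e a k := Int.natCast_dvd.2 (Nat.dvd_of_mem_primeFactors hp)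
    rw [Nat.mem_primeFactors]
    have hin : ∀ i, (p : ℤ) ∣ a i → (p : ℤ) ∣ (cf r e : ℤ) * ((∏ i, a i) * (ss a * bb a)) :=
      fun i hi => ((hi.trans (Finset.dvd_prod_of_mem a (Finset.mem_univ i))).mul_right _).mul_left _
    have hins : (p : ℤ) ∣ ss a → (p : ℤ) ∣ (cf r e : ℤ) * ((∏ i, a i) * (ss a * bb a)) :=
      fun hi => ((hi.mul_right _).mul_left _).mul_left _
    have hinb : (p : ℤ) ∣ bb a → (p : ℤ) ∣ (cf r e : ℤ) * ((∏ i, a i) * (ss a * bb a)) :=
      fun hi => ((hi.mul_left _).mul_left _).mul_left _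
    have hinc : ∀ i, i ≤ r → (p : ℤ) ∣ (e i : ℤ) →
        (p : ℤ) ∣ (cf r e : ℤ) * ((∏ i, a i) * (ss a * bb a)) := by
      intro i hi hd
      refine Dvd.dvd.mul_right ?_ _
      unfold cf
      push_cast
      exact hd.trans (Finset.dvd_prod_of_mem (fun i => (e i : ℤ)) (mem_range.2 (by omega)))
    have hinsa : (p : ℤ) ∣ ss a * a 0 → (p : ℤ) ∣ (cf r e : ℤ) * ((∏ i, a i) * (ss a * bb a)) := by
      intro hd
      rcases hpi.dvd_or_dvd hd with h3 | h3
      · exact hins h3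
      · exact hin 0 h3
    refine ⟨hpp, ?_, ?_⟩
    · rw [← Int.natCast_dvd]
      obtain ⟨k, -, hk⟩ := (Prime.dvd_finsetProd_iff hpi _).1 hpd
      induction k using Fin.lastCases with
      | last =>
        rw [tup_last, dvd_neg] at hk
        exact hins (hpi.dvd_of_dvd_pow hk)
      | cast k =>
        rw [tup_castSucc] at hk
        induction k using Fin.lastCases with
        | last =>
          rw [pos_last] at hk
          exact hin 0 (hpi.dvd_of_dvd_pow hk)
        | cast k =>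
          rw [pos_castSucc] at hk
          induction k using Fin.addCases with
          | left j =>
            rw [low_left] at hk
            rcases hpi.dvd_or_dvd hk with h2 | h2
            · exact hinc r (le_refl r) h2
            · rcases hpi.dvd_or_dvd h2 with h3 | h3
              · exact hinsa (hpi.dvd_of_dvd_pow h3)
              · exact hin _ h3
          | right i =>
            rw [low_right] at hk
            rcases hpi.dvd_or_dvd hk with h2 | h2
            · exact hinc _ i.2.le h2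
            · rcases hpi.dvd_or_dvd h2 with h3 | h3
              · exact hinsa (hpi.dvd_of_dvd_pow h3)
              · exact hinb (hpi.dvd_of_dvd_pow h3)
    · rw [Ne, Int.natAbs_eq_zero]
      have h5 : 0 < ∏ i, a i := Finset.prod_pos fun i _ => ha i
      have h6 : (0 : ℤ) < cf r e := by exact_mod_cast cf_pos W
      positivity
  refine h1.trans ((rad_mul_le _ _).trans ?_)
  refine Nat.mul_le_mul (rad_natCast_le (cf_pos W)) ((rad_mul_le _ _).trans ?_)
  exact Nat.mul_le_mul (rad_prod_le _ _) (rad_mul_le _ _)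

theorem abs_tup_le (W : War r e) (hh : 1 ≤ h) {a : Fin (h + 1) → ℤ} (ha : ∀ i, 0 < a i)
    (k : Fin (h + r + 2)) : |tup r e a k| ≤ (ss a) ^ (2 * r + 1) := by
  have hs := ss_pos ha
  induction k using Fin.lastCases with
  | last => rw [tup_last, abs_neg, abs_of_pos (pow_pos hs _)]
  | cast k =>
    rw [tup_castSucc, abs_of_pos (pos_pos W hh ha _), ← sum_pos' W]
    exact Finset.single_le_sum (f := fun k => pos r e a k) (fun k _ => (pos_pos W hh ha _).le)
      (Finset.mem_univ k)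

theorem tup_inj (W : War r e) {a b : Fin (h + 1) → ℤ} (ha : ∀ i, 0 < a i) (hb : ∀ i, 0 < b i)
    (hab : tup r e a = tup r e b) : a = b := by
  have hsa := ss_pos ha
  have hsb := ss_pos hb
  have hs : ss a = ss b := by
    have h1 := congrFun hab (Fin.last _)
    rw [tup_last, tup_last, neg_inj] at h1
    exact (pow_left_inj₀ hsa.le hsb.le (by omega)).1 h1
  have h0 : a 0 = b 0 := by
    have h1 := congrFun hab (Fin.last (h + r)).castSucc
    rw [tup_castSucc, tup_castSucc, pos_last, pos_last] at h1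
    exact (pow_left_inj₀ (ha 0).le (hb 0).le (by omega)).1 h1
  funext i
  refine Fin.cases h0 (fun j => ?_) i
  have h1 := congrFun hab (Fin.castAdd r j).castSucc.castSucc
  rw [tup_castSucc, tup_castSucc, pos_castSucc, pos_castSucc, low_left, low_left, ← hs, ← h0] at h1
  have h2 := mul_left_cancel₀ (e_pos W (le_refl r)).ne' h1
  exact mul_left_cancel₀ (pow_pos (mul_pos hsa (ha 0)) _).ne' h2

end Pool.Agent.K1H71.NX.COMP4

namespace Pool.Agent.K1H71.NX

open Finset COMP4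

theorem t_COMP4 : S_COMP4 := by
  intro h r κ ex hh hκ hpos K hK
  obtain ⟨e, W⟩ := t_WAR r
  set E : ℝ := (cf r e : ℝ) with hE
  have hE1 : 1 ≤ E := by
    have : 1 ≤ cf r e := cf_pos W
    rw [hE]
    exact_mod_cast this
  have hE0 : 0 < E := by linarith
  obtain ⟨d, hd⟩ : ∃ d : ℝ, d = 2 * (r : ℝ) + 1 := ⟨_, rfl⟩
  have hd0 : 0 ≤ d := by rw [hd]; positivity
  rw [← hd]
  set K' : ℝ := K * E ^ (d * κ) + 1 with hK'
  have hEp : 0 < E ^ (d * κ) := Real.rpow_pos_of_pos hE0 _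
  have hK'1 : 1 ≤ K' := by
    rw [hK']
    nlinarith
  obtain ⟨c, C, X₀, hc, hC, hX⟩ := hpos K' (by linarith)
  refine ⟨c * (E ^ ex)⁻¹, (C * (E ^ κ)⁻¹) ^ (2 * r + 1), max 1 (E * X₀), by positivity,
    by positivity, ?_⟩
  intro X hXX
  have hX1 : 1 ≤ X := (le_max_left _ _).trans hXX
  have hX0 : 0 < X := by linarith
  have hpw : ∀ Y : ℝ, 0 < Y → Y ^ (d * κ) = (Y ^ κ) ^ (2 * r + 1) := by
    intro Y hY
    rw [mul_comm, Real.rpow_mul hY.le, ← Real.rpow_natCast, hd]
    push_cast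
    rfl
  have hXE : X₀ ≤ X / E := by
    rw [le_div_iff₀ hE0, mul_comm]
    exact (le_max_right _ _).trans hXX
  obtain ⟨T, hT, hTc⟩ := hX (X / E) hXE
  have hXE0 : 0 < X / E := by positivity
  refine ⟨T.image (tup r e), ?_, ?_⟩
  · intro x hx
    rw [Finset.mem_image] at hx
    obtain ⟨a, ha, rfl⟩ := hx
    obtain ⟨h1, h2, h3, h4, h5⟩ := hT a ha
    have hs := ss_pos h1
    have hrad : (rad (∏ k, tup r e a k) : ℝ) ≤ X := by
      have h6 := rad_tup W hh h1
      have h7 : ((rad (∏ k, tup r e a k) : ℕ) : ℝ) ≤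
          ((cf r e * ((∏ i, rad (a i)) * (rad (ss a) * rad (bb a))) : ℕ) : ℝ) := by
        exact_mod_cast h6
      rw [Nat.cast_mul, Nat.cast_mul, Nat.cast_mul, Nat.cast_prod] at h7
      calc _ ≤ _ := h7
        _ ≤ E * (X / E) := mul_le_mul_of_nonneg_left h3 hE0.le
        _ = X := by field_simp
    have hbig : K * X ^ (d * κ) < ((ss a : ℤ) : ℝ) ^ (2 * r + 1) := by
      have h9 : (K' * (X / E) ^ κ) ^ (2 * r + 1) ≤ ((ss a : ℤ) : ℝ) ^ (2 * r + 1) :=
        pow_le_pow_left₀ (by positivity) h4 _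
      refine lt_of_lt_of_le ?_ h9
      rw [mul_pow, ← hpw _ hXE0, Real.div_rpow hX0.le hE0.le]
      have h10 : K' ≤ K' ^ (2 * r + 1) := le_self_pow₀ hK'1 (by omega)
      have hXp : 0 < X ^ (d * κ) := Real.rpow_pos_of_pos hX0 _
      calc K * X ^ (d * κ) = (K * E ^ (d * κ)) * (X ^ (d * κ) / E ^ (d * κ)) := by
            field_simp
        _ < K' * (X ^ (d * κ) / E ^ (d * κ)) := by
            apply mul_lt_mul_of_pos_right _ (by positivity)
            rw [hK']
            linarith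
        _ ≤ K' ^ (2 * r + 1) * (X ^ (d * κ) / E ^ (d * κ)) := by
            gcongr
    refine ⟨adm_tup W hh h1 h2, hrad, ⟨Fin.last _, ?_⟩, ?_⟩
    · rw [tup_last, Int.cast_neg, abs_neg, Int.cast_pow]
      have hs' : (0 : ℝ) < (ss a : ℝ) := by exact_mod_cast hs
      rw [abs_of_pos (pow_pos hs' _)]
      refine lt_of_le_of_lt ?_ hbig
      refine mul_le_mul_of_nonneg_left ?_ hK.le
      exact Real.rpow_le_rpow (by positivity) hrad (by positivity)
    · intro k
      have h11 := abs_tup_le W hh h1 k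
      have h12 : |((tup r e a k : ℤ) : ℝ)| ≤ ((ss a : ℤ) : ℝ) ^ (2 * r + 1) := by
        exact_mod_cast h11
      refine h12.trans ?_
      have h13 : ((ss a : ℤ) : ℝ) ^ (2 * r + 1) ≤ (C * (X / E) ^ κ) ^ (2 * r + 1) :=
        pow_le_pow_left₀ (by exact_mod_cast hs.le) h5 _
      refine h13.trans (le_of_eq ?_)
      rw [hpw _ hX0, Real.div_rpow hX0.le hE0.le, ← mul_pow]
      congr 1
      field_simp
  · rw [Finset.card_image_of_injOn]
    · refine le_trans (le_of_eq ?_) hTc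
      rw [Real.div_rpow hX0.le hE0.le]
      field_simp
    · intro a ha b hb hab
      exact tup_inj W (hT a ha).1 (hT b hb).1 hab

end Pool.Agent.K1H71.NX
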