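import Pool.Agent.K1H71.NX.Main2
import Pool.Agent.K1H71.NX.T_COMP4

/-! The assembly, rate `1 / n` (helper71). -/

set_option autoImplicit false

namespace Pool.Agent.K1H71.NX.Main3

open Finset Filter Pool.Agent.K1H71.NX.Main Pool.Agent.K1H71.NX.Main2

theorem gen (hmono : S_MONO) (hpos : S_POS4) {n r h : ℕ} {α M δ : ℝ} (hh : 1 ≤ h)
    (hn : r + h + 2 ≤ n) (hα1 : 1 / ((h : ℝ) + 3) ≤ α) (hα2 : α < 1 / 2)
    (hMr : M ≤ (2 * (r : ℝ) + 1) * α) (hδ : 0 < δ) :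
    LB n M ((2 * (r : ℝ) + 1) * α) (1 - α - (1 - 2 * α) / ((h : ℝ) + 1) - δ) := by
  have hh0 : (0 : ℝ) ≤ h := Nat.cast_nonneg h
  have hα0 : 0 < α := lt_of_lt_of_le (by positivity) hα1
  obtain ⟨β, hβ⟩ : ∃ β : ℝ, β = (1 - 2 * α) / ((h : ℝ) + 1) := ⟨_, rfl⟩
  rw [← hβ]
  have hβ0 : 0 < β := by rw [hβ]; apply div_pos <;> linarith
  have hβα : β ≤ α := by
    rw [hβ, div_le_iff₀ (by linarith)]
    rw [div_le_iff₀ (by linarith)] at hα1
    linarith
  have hsum : 2 * α + ((h : ℝ) + 1) * β = 1 := by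
    rw [hβ]
    field_simp
    ring
  have h1 := t_COMP4 h r α _ hh hα0.le (hpos h α β δ hh hβ0 hβα hsum hδ)
  refine weakenM (mono_le hmono (by omega) ?_ h1 (by omega)) hMr
  positivity

/-- degree `2 r + 1` between `M q` and `M q + 2` -/
theorem exists_r {M q : ℝ} (hM : 0 ≤ M) (hq : 0 < q) : ∃ r : ℕ, M * q ≤ 2 * (r : ℝ) + 1 ∧
    2 * (r : ℝ) + 1 ≤ M * q + 2 ∧ (r : ℝ) < M * q / 2 + 1 / 2 := by
  have hMq : 0 ≤ M * q := by positivity
  rcases le_or_gt (M * q) 1 with h1 | h1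
  · refine ⟨0, ?_, ?_, ?_⟩ <;> push_cast <;> linarith
  · refine ⟨⌈(M * q - 1) / 2⌉₊, ?_, ?_, ?_⟩
    · have := Nat.le_ceil ((M * q - 1) / 2)
      linarith
    · have := Nat.ceil_lt_add_one (by linarith : 0 ≤ (M * q - 1) / 2)
      linarith
    · have := Nat.ceil_lt_add_one (by linarith : 0 ≤ (M * q - 1) / 2)
      linarith

theorem equal (hmono : S_MONO) (hpos : S_POS4) {n q : ℕ} {M δ : ℝ} (hq : 4 ≤ q) (hM : 0 ≤ M)
    (hn : (M + 2) * q ≤ 2 * n + 3) (hδ : 0 < δ) :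
    LB n M (M + 2 / q) (1 - 2 / (q : ℝ) - δ) := by
  have hq4 : (4 : ℝ) ≤ q := by exact_mod_cast hq
  obtain ⟨r, h1, h2, h3⟩ := exists_r hM (by linarith : (0 : ℝ) < q)
  obtain ⟨h, rfl⟩ : ∃ h, q = h + 3 := ⟨q - 3, by omega⟩
  push_cast at *
  have hh0 : (1 : ℝ) ≤ h := by linarith
  have hq0 : (0 : ℝ) < (h : ℝ) + 3 := by linarith
  have hnn : r + h + 2 ≤ n := by
    have : ((r + h + 2 : ℕ) : ℝ) < (n : ℝ) + 1 := by
      push_cast
      nlinarith
    have : r + h + 2 < n + 1 := by exact_mod_cast this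
    omega
  have h4 := gen hmono hpos (n := n) (r := r) (h := h) (α := 1 / ((h : ℝ) + 3)) (M := M) (δ := δ)
    (by exact_mod_cast hh0) hnn (le_refl _) (by
      rw [div_lt_div_iff₀ hq0 (by norm_num)]
      linarith) (by
      rw [mul_one_div, le_div_iff₀ hq0]
      exact h1) hδ
  refine weaken h4 ?_ ?_
  · rw [mul_one_div, div_le_iff₀ hq0, add_mul, div_mul_cancel₀ _ hq0.ne']
    exact h2
  · have e1 : 1 - 1 / ((h : ℝ) + 3) - (1 - 2 * (1 / ((h : ℝ) + 3))) / ((h : ℝ) + 1) =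
        1 - 2 / ((h : ℝ) + 3) := by
      have : (h : ℝ) + 1 ≠ 0 := by linarith
      field_simp
      ring
    rw [e1]

/-- the exceptions of Browkin and Brzezinski -/
theorem bb (hB : S_BB) {n : ℕ} {M : ℝ} (hn : 3 ≤ n) (hM : 0 ≤ M) (hMn : M < 2 * (n : ℝ) - 5) :
    LB n M (2 * n - 1) (min (2 / 3) (1 - M / (2 * (n : ℝ) - 5))) := by
  obtain ⟨r, rfl⟩ : ∃ r, n = r + 3 := ⟨n - 3, by omega⟩
  push_cast at hMn ⊢
  have e1 : 2 * ((r : ℝ) + 3) - 5 = 2 * (r : ℝ) + 1 := by ring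
  rw [e1] at hMn ⊢
  have hr0 : (0 : ℝ) ≤ r := Nat.cast_nonneg r
  refine weaken (Fam.fam hB r M hM hMn) (max_le ?_ ?_) (le_refl _) <;> linarith

theorem theta (hmono : S_MONO) (hpos : S_POS4) (hB : S_BB) {n : ℕ} {θ M δ : ℝ} (hθ : 1 ≤ θ)
    (hM : 0 ≤ M) (hMθ : M ≤ 2 * θ ^ 2) (hn : (1 + θ) ^ 2 ≤ n) (hδ : 0 < δ) :
    LB n M (2 * n - 1) (1 - (1 + θ) ^ 2 / n - δ) := by
  have hn4 : (4 : ℝ) ≤ n := by nlinarith
  have hn0 : (0 : ℝ) < n := by linarith
  have hn3 : 3 ≤ n := by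
    have : 4 ≤ n := by exact_mod_cast hn4
    omega
  have h1θ : (0 : ℝ) < 1 + θ := by linarith
  have hbase : 6 * (1 + θ) ^ 2 ≤ n * (2 + 4 * θ) := by
    have k1 : 6 * (1 + θ) ^ 2 ≤ 6 * n := by linarith
    have k2 : (n : ℝ) * 6 ≤ n * (2 + 4 * θ) := mul_le_mul_of_nonneg_left (by linarith) hn0.le
    linarith
  by_cases hcase : 2 * θ * (1 + θ) < n ∧ 5 / 2 * (1 + θ) ≤ n
  · obtain ⟨hc1, hc2⟩ := hcase
    obtain ⟨x, hx⟩ : ∃ x : ℝ, x = n / (1 + θ) := ⟨_, rfl⟩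
    have hxn : x * (1 + θ) = n := by rw [hx]; field_simp
    have hx52 : 5 / 2 ≤ x := by rw [hx, le_div_iff₀ h1θ]; exact hc2
    obtain ⟨h, hh⟩ : ∃ h : ℕ, h = ⌊x - 3 / 2⌋₊ := ⟨_, rfl⟩
    have hh1 : (h : ℝ) ≤ x - 3 / 2 := by rw [hh]; exact Nat.floor_le (by linarith)
    have hh2 : x - 5 / 2 < h := by
      have := Nat.lt_floor_add_one (x - 3 / 2)
      rw [← hh] at this
      linarith
    have hh3 : 1 ≤ h := by
      rw [hh]
      exact Nat.le_floor (by push_cast; linarith)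
    have hxn' : x * 2 ≤ n := by
      rw [← hxn]
      exact mul_le_mul_of_nonneg_left (by linarith) (by linarith)
    have hhn : h + 2 ≤ n := by
      have : (h : ℝ) + 2 ≤ n := by linarith
      exact_mod_cast this
    obtain ⟨r, hr⟩ : ∃ r : ℕ, r = n - h - 2 := ⟨_, rfl⟩
    have hrn : r + h + 2 = n := by omega
    have hrR : (r : ℝ) = n - h - 2 := by
      have : ((r + h + 2 : ℕ) : ℝ) = n := by rw [hrn]
      push_cast at this
      linarith
    obtain ⟨α, hα⟩ : ∃ α : ℝ, α = θ * (1 + θ) / n := ⟨_, rfl⟩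
    have hαn : α * n = θ * (1 + θ) := by rw [hα]; field_simp
    have hαx : α * x = θ := by
      have : α * x * (1 + θ) = θ * (1 + θ) := by rw [mul_assoc, hxn, hαn]
      exact mul_right_cancel₀ h1θ.ne' this
    have hα0 : 0 < α := by rw [hα]; positivity
    have hα2 : α < 1 / 2 := by
      rw [hα, div_lt_div_iff₀ hn0 (by norm_num)]
      linarith
    have hh0 : (1 : ℝ) ≤ h := by exact_mod_cast hh3
    have g := gen hmono hpos (n := n) (r := r) (h := h) (α := α) (M := M) (δ := δ) hh3 hrn.le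
      (by
        rw [div_le_iff₀ (by linarith)]
        have k1 : α * x ≤ α * ((h : ℝ) + 3) := mul_le_mul_of_nonneg_left (by linarith) hα0.le
        linarith) hα2 (by
        have h5 : 2 * (n : ℝ) - 2 * x ≤ 2 * (r : ℝ) + 1 := by rw [hrR]; linarith
        have h6 : (2 * (n : ℝ) - 2 * x) * α = 2 * θ ^ 2 := by
          have : (2 * (n : ℝ) - 2 * x) * α = 2 * (α * n) - 2 * (α * x) := by ring
          rw [this, hαn, hαx]
          ring
        have k2 := mul_le_mul_of_nonneg_right h5 hα0.le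
        linarith) hδ
    refine weaken g ?_ ?_
    · have h7 : 2 * (r : ℝ) + 1 ≤ 2 * n - 1 := by rw [hrR]; linarith
      have hr0 : (0 : ℝ) ≤ r := Nat.cast_nonneg r
      calc (2 * (r : ℝ) + 1) * α ≤ (2 * (r : ℝ) + 1) * 1 :=
            mul_le_mul_of_nonneg_left (by linarith) (by linarith)
        _ ≤ 2 * n - 1 := by linarith
    · have h8 : (1 - 2 * α) / ((h : ℝ) + 1) ≤ (1 + θ) / n := by
        rw [div_le_div_iff₀ (by linarith) hn0]
        have h9 : (1 - 2 * α) * (n : ℝ) = n - 2 * θ * (1 + θ) := by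
          rw [sub_mul, one_mul, mul_assoc, hαn]; ring
        rw [h9]
        have h10 : (1 + θ) * (x - 3 / 2) = n - 3 / 2 * (1 + θ) := by
          rw [mul_sub, mul_comm (1 + θ) x, hxn]; ring
        have h11 : (1 + θ) * (x - 3 / 2) ≤ (1 + θ) * ((h : ℝ) + 1) :=
          mul_le_mul_of_nonneg_left (by linarith) h1θ.le
        have h12 : 3 / 2 * (1 + θ) ≤ 2 * θ * (1 + θ) :=
          mul_le_mul_of_nonneg_right (by linarith) h1θ.le
        linarith
      have h12 : (1 + θ) ^ 2 / n = α + (1 + θ) / n := by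
        rw [hα, ← add_div]
        congr 1
        ring
      rw [h12]
      linarith
  · -- Browkin and Brzezinski
    have hle : (n : ℝ) ≤ 2 * θ * (1 + θ) ∨ (n : ℝ) < 5 / 2 * (1 + θ) := by
      by_contra hno
      push Not at hno
      exact hcase hno
    have hn3' : (n : ℝ) ≤ 3 * (1 + θ) ^ 2 := by
      have k1 : 3 * (1 + θ) ^ 2 = 3 * (1 + θ) * (1 + θ) := by ring
      rw [k1]
      have k2 : 2 * θ * (1 + θ) ≤ 3 * (1 + θ) * (1 + θ) :=
        mul_le_mul_of_nonneg_right (by linarith) h1θ.le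
      have k3 : 5 / 2 * (1 + θ) ≤ 3 * (1 + θ) * (1 + θ) :=
        mul_le_mul_of_nonneg_right (by linarith) h1θ.le
      rcases hle with h | h <;> linarith
    have hkey : 1 / 3 ≤ (1 + θ) ^ 2 / n := by
      rw [div_le_div_iff₀ (by norm_num) hn0]
      linarith
    have h5 : (0 : ℝ) < 2 * n - 5 := by linarith
    have hMlt : M < 2 * (n : ℝ) - 5 := by
      have k1 : 2 * θ ^ 2 < 2 * (1 + θ) ^ 2 - 5 := by nlinarith
      linarith
    have hkey2 : M / (2 * (n : ℝ) - 5) ≤ (1 + θ) ^ 2 / n := by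
      rw [div_le_div_iff₀ h5 hn0]
      have k1 : M * (n : ℝ) ≤ 2 * θ ^ 2 * n := mul_le_mul_of_nonneg_right hMθ hn0.le
      have k2 : (1 + θ) ^ 2 * (2 * (n : ℝ) - 5) = 2 * θ ^ 2 * n + n * (2 + 4 * θ) -
          5 * (1 + θ) ^ 2 := by ring
      have k3 : 0 ≤ (1 + θ) ^ 2 := sq_nonneg _
      rw [k2]
      linarith
    refine weaken (bb hB hn3 hM hMlt) (le_refl _) ?_
    refine le_min ?_ ?_ <;> linarith

/-- the two counts -/
theorem both {n : ℕ} {M A A' E : ℝ} (h : ∀ δ : ℝ, 0 < δ → LB n M A (E - δ)) (hA : 0 < A)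
    (hA' : A < A') {K : ℝ} (hK : 0 < K) {δ : ℝ} (hδ : 0 < δ) : ∃ X₀ : ℝ, ∀ X : ℝ, X₀ ≤ X →
      0 < X ∧
      (∃ T : Finset (Fin n → ℤ), (∀ x ∈ T, Good M K X (X ^ A') x) ∧ X ^ (E - δ) ≤ (T.card : ℝ)) ∧
      ∃ T : Finset (Fin n → ℤ), (∀ x ∈ T, Adm x ∧
        (∃ i, K * (rad (∏ i, x i) : ℝ) ^ M < |(x i : ℝ)|) ∧ ∀ i, |(x i : ℝ)| ≤ X) ∧
        X ^ (E / A - δ) ≤ (T.card : ℝ) := by
  obtain ⟨X₁, h1⟩ := count (h (δ / 2) (by linarith)) hA' (e' := E - δ) (by linarith) hK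
  obtain ⟨c, B₀, hc, hB₀⟩ := count_ht (h (δ * A / 2) (by positivity)) hA hK
  have hgap : E / A - δ < (E - δ * A / 2) / A := by
    rw [lt_div_iff₀ hA]
    have e2 : (E / A - δ) * A = E - δ * A := by field_simp
    rw [e2]
    have : 0 < δ * A := by positivity
    linarith
  have htend : Filter.Tendsto (fun B : ℝ => B ^ ((E - δ * A / 2) / A - (E / A - δ)))
      Filter.atTop Filter.atTop := tendsto_rpow_atTop (by linarith)
  obtain ⟨B₁, hB₁⟩ := Filter.eventually_atTop.1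
    (htend.eventually (Filter.eventually_ge_atTop (1 / c)))
  refine ⟨max X₁ (max (max B₀ 1) B₁), fun B hB => ?_⟩
  have g0 : B₀ ≤ B :=
    (le_max_left _ _).trans ((le_max_left _ _).trans ((le_max_right _ _).trans hB))
  have g1 : 1 ≤ B :=
    (le_max_right _ _).trans ((le_max_left _ _).trans ((le_max_right _ _).trans hB))
  have g2 := hB₁ B ((le_max_right _ _).trans ((le_max_right _ _).trans hB))
  have hB0 : 0 < B := by linarith
  refine ⟨hB0, h1 B ((le_max_left _ _).trans hB), ?_⟩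
  obtain ⟨T, hT1, hT2⟩ := hB₀ B g0
  refine ⟨T, hT1, le_trans ?_ hT2⟩
  rw [div_le_iff₀ hc] at g2
  calc B ^ (E / A - δ) ≤ (B ^ ((E - δ * A / 2) / A - (E / A - δ)) * c) *
        B ^ (E / A - δ) := le_mul_of_one_le_left (by positivity) g2
    _ = c * (B ^ ((E - δ * A / 2) / A - (E / A - δ)) * B ^ (E / A - δ)) := by ring
    _ = c * B ^ ((E - δ * A / 2) / A) := by
        rw [← Real.rpow_add hB0]
        congr 2
        ring

end Pool.Agent.K1H71.NX.Main3
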