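import Pool.Agent.K1H71.NX.Defs

/-! Piece NX-BB (S_BB): the tuples of Browkin and Brzezinski (helper65 for helper71). -/

set_option autoImplicit false

namespace Pool.Agent.K1H71.NX

open Finset

namespace BB

/-- the tuple -/
def tup (r : ℕ) (e : ℕ → ℕ) (P : ℤ × ℤ) : Fin (r + 3) → ℤ :=
  Fin.cons (P.1 ^ (2 * r + 1)) (Fin.cons (P.2 ^ (2 * r + 1)) fun j : Fin (r + 1) =>
    -((-1) ^ (j : ℕ) * (e j : ℤ) * (P.1 * P.2) ^ (j : ℕ) * (P.1 + P.2) ^ (2 * r + 1 - 2 * (j : ℕ))))

theorem tup_zero (r : ℕ) (e : ℕ → ℕ) (P : ℤ × ℤ) : tup r e P 0 = P.1 ^ (2 * r + 1) := rfl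

theorem tup_one (r : ℕ) (e : ℕ → ℕ) (P : ℤ × ℤ) : tup r e P (Fin.succ 0) = P.2 ^ (2 * r + 1) := rfl

theorem tup_succ (r : ℕ) (e : ℕ → ℕ) (P : ℤ × ℤ) (j : Fin (r + 1)) : tup r e P j.succ.succ =
    -((-1) ^ (j : ℕ) * (e j : ℤ) * (P.1 * P.2) ^ (j : ℕ) *
      (P.1 + P.2) ^ (2 * r + 1 - 2 * (j : ℕ))) := rfl

open Classical in
theorem sum_eq (r : ℕ) (e : ℕ → ℕ) (P : ℤ × ℤ) (I : Finset (Fin (r + 3))) :
    ∑ i ∈ I, tup r e P i = subsum r e (decide (0 ∈ I)) (decide (Fin.succ 0 ∈ I))
      ((univ.filter fun j : Fin (r + 1) => j.succ.succ ∈ I).image Fin.val) P.1 P.2 := by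
  have h1 : ∑ i ∈ I, tup r e P i = ∑ i, if i ∈ I then tup r e P i else 0 := by
    rw [← Finset.sum_filter]
    congr 1
    ext i
    simp
  rw [h1, Fin.sum_univ_succ, Fin.sum_univ_succ]
  unfold subsum
  rw [Finset.sum_image (fun a _ b _ h => Fin.ext h), Finset.sum_filter, tup_zero, tup_one]
  simp only [decide_eq_true_eq]
  have h2 : (∑ j : Fin (r + 1), if j.succ.succ ∈ I then tup r e P j.succ.succ else 0) =
      -∑ a : Fin (r + 1), if a.succ.succ ∈ I then (-1) ^ (a : ℕ) * (e a : ℤ) *
        (P.1 * P.2) ^ (a : ℕ) * (P.1 + P.2) ^ (2 * r + 1 - 2 * (a : ℕ)) else 0 := by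
    rw [← Finset.sum_neg_distrib]
    refine Finset.sum_congr rfl fun j _ => ?_
    rw [tup_succ]
    split_ifs
    · rfl
    · rw [neg_zero]
  rw [h2]
  ring

end BB

open BB

theorem t_BB (hW : S_WAR) (hN : S_NVS) : S_BB := by
  classical
  intro r
  obtain ⟨e, he⟩ := hW r
  have hodd : Odd (2 * r + 1) := ⟨r, rfl⟩
  -- the exceptional set
  let U : Set (ℤ × ℤ) := ⋃ s : Bool, ⋃ t : Bool, ⋃ J ∈ (range (r + 1)).powerset,
    {P | (¬(s = false ∧ t = false ∧ J = ∅) ∧ ¬(s = true ∧ t = true ∧ J = range (r + 1))) ∧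
      IsCoprime P.1 P.2 ∧ subsum r e s t J P.1 P.2 = 0}
  have hU : U.Finite := by
    refine Set.finite_iUnion fun s => Set.finite_iUnion fun t =>
      Set.Finite.biUnion (Finset.finite_toSet _) fun J hJ => ?_
    by_cases hc : ¬(s = false ∧ t = false ∧ J = ∅) ∧ ¬(s = true ∧ t = true ∧ J = range (r + 1))
    · refine (hN r e he s t J (Finset.mem_powerset.mp hJ) hc.1 hc.2).subset fun P hP => hP.2
    · refine Set.Finite.subset Set.finite_empty fun P hP => absurd hP.1 hc
  let A : ℕ := ∏ j ∈ range (r + 1), e j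
  have hA : 0 < A := Finset.prod_pos fun j hj => he.pos j (by
    rw [mem_range] at hj
    omega)
  have hej : ∀ j, j ≤ r → e j ≤ A := by
    intro j hj
    exact Nat.le_of_dvd hA (Finset.dvd_prod_of_mem _ (mem_range.mpr (by omega)))
  refine ⟨tup r e, A * 2 ^ (2 * r + 1), hU.toFinset, by positivity, ?_, ?_⟩
  · intro P Q h
    have h0 := congrFun h 0
    have h1 := congrFun h (Fin.succ 0)
    rw [tup_zero, tup_zero] at h0
    rw [tup_one, tup_one] at h1
    exact Prod.ext (hodd.strictMono_pow.injective h0) (hodd.strictMono_pow.injective h1)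
  · intro P hP ha hb hab
    refine ⟨?_, ?_, ?_, ?_⟩
    · intro hPF
      refine ⟨?_, ?_, ?_⟩
      · have h0 : univ.gcd (tup r e P) ∣ P.1 ^ (2 * r + 1) := Finset.gcd_dvd (mem_univ 0)
        have h1 : univ.gcd (tup r e P) ∣ P.2 ^ (2 * r + 1) := Finset.gcd_dvd (mem_univ (Fin.succ 0))
        have hu : IsUnit (univ.gcd (tup r e P)) := (IsCoprime.pow hP).isUnit_of_dvd' h0 h1
        rw [← Finset.normalize_gcd]
        exact normalize_eq_one.mpr hu
      · rw [Fin.sum_univ_succ, Fin.sum_univ_succ, tup_zero, tup_one]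
        have h1 := he.eq ℤ P.1 P.2
        rw [Finset.sum_range] at h1
        have h2 : ∑ j : Fin (r + 1), tup r e P j.succ.succ = -(P.1 ^ (2 * r + 1) +
            P.2 ^ (2 * r + 1)) := by
          rw [h1, ← Finset.sum_neg_distrib]
          exact Finset.sum_congr rfl fun j _ => tup_succ r e P j
        rw [h2]
        ring
      · intro I hI hI' h0
        apply hPF
        rw [Set.Finite.mem_toFinset]
        rw [sum_eq] at h0
        obtain ⟨J, hJ⟩ : ∃ J, J = (univ.filter fun j : Fin (r + 1) => j.succ.succ ∈ I).image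
          Fin.val := ⟨_, rfl⟩
        rw [← hJ] at h0
        have hJmem : ∀ j : Fin (r + 1), (j : ℕ) ∈ J ↔ j.succ.succ ∈ I := by
          intro j
          rw [hJ, mem_image]
          constructor
          · rintro ⟨j', hj', hjj⟩
            rw [mem_filter] at hj'
            rw [← Fin.ext hjj]
            exact hj'.2
          · intro h
            exact ⟨j, mem_filter.mpr ⟨mem_univ _, h⟩, rfl⟩
        have hJr : J ⊆ range (r + 1) := by
          intro j hj
          rw [hJ, mem_image] at hj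
          obtain ⟨j', -, rfl⟩ := hj
          exact mem_range.mpr j'.2
        have hcase : ∀ i : Fin (r + 3), i = 0 ∨ i = Fin.succ 0 ∨ ∃ j : Fin (r + 1), i = j.succ.succ := by
          intro i
          refine Fin.cases (Or.inl rfl) (fun i => ?_) i
          refine Fin.cases (Or.inr (Or.inl rfl)) (fun j => ?_) i
          exact Or.inr (Or.inr ⟨j, rfl⟩)
        simp only [U, Set.mem_iUnion]
        refine ⟨decide (0 ∈ I), decide (Fin.succ 0 ∈ I), J, Finset.mem_powerset.mpr hJr,
          ⟨?_, ?_⟩, hP, h0⟩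
        · rintro ⟨hs, ht, hJ0⟩
          rw [decide_eq_false_iff_not] at hs ht
          obtain ⟨i, hi⟩ := hI
          rcases hcase i with rfl | rfl | ⟨j, rfl⟩
          · exact hs hi
          · exact ht hi
          · have := (hJmem j).mpr hi
            rw [hJ0] at this
            exact absurd this (Finset.notMem_empty _)
        · rintro ⟨hs, ht, hJ0⟩
          rw [decide_eq_true_iff] at hs ht
          apply hI'
          rw [Finset.eq_univ_iff_forall]
          intro i
          rcases hcase i with rfl | rfl | ⟨j, rfl⟩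
          · exact hs
          · exact ht
          · rw [← hJmem, hJ0, mem_range]
            exact j.2
    · -- the radical
      have hsub : (∏ i, tup r e P i).natAbs.primeFactors ⊆
          A.primeFactors ∪ (P.1 * P.2 * (P.1 + P.2)).natAbs.primeFactors := by
        intro p hp
        have hpp := Nat.prime_of_mem_primeFactors hp
        have hpi : Prime (p : ℤ) := Nat.prime_iff_prime_int.mp hpp
        have hdvd : (p : ℤ) ∣ ∏ i, tup r e P i := by
          rw [Int.natCast_dvd]
          exact Nat.dvd_of_mem_primeFactors hp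
        have hne : (P.1 * P.2 * (P.1 + P.2)).natAbs ≠ 0 := by
          rw [Int.natAbs_ne_zero]
          exact mul_ne_zero (mul_ne_zero ha hb) hab
        have hR : ∀ z : ℤ, z ∣ P.1 * P.2 * (P.1 + P.2) → (p : ℤ) ∣ z →
            p ∈ A.primeFactors ∪ (P.1 * P.2 * (P.1 + P.2)).natAbs.primeFactors := by
          intro z hz hpz
          refine mem_union_right _ (Nat.mem_primeFactors.mpr ⟨hpp, ?_, hne⟩)
          rw [← Int.natCast_dvd]
          exact hpz.trans hz
        rw [hpi.dvd_finsetProd_iff] at hdvd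
        obtain ⟨i, -, hi⟩ := hdvd
        revert hi
        refine Fin.cases (fun hi => ?_) (fun i => ?_) i
        · rw [tup_zero] at hi
          exact hR P.1 ⟨P.2 * (P.1 + P.2), by ring⟩ (hpi.dvd_of_dvd_pow hi)
        · refine Fin.cases (fun hi => ?_) (fun j hi => ?_) i
          · rw [tup_one] at hi
            exact hR P.2 ⟨P.1 * (P.1 + P.2), by ring⟩ (hpi.dvd_of_dvd_pow hi)
          · rw [tup_succ, dvd_neg] at hi
            rcases hpi.dvd_or_dvd hi with hi | hi
            · rcases hpi.dvd_or_dvd hi with hi | hi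
              · rcases hpi.dvd_or_dvd hi with hi | hi
                · exact absurd (hpi.dvd_of_dvd_pow hi) (fun h => hpi.not_dvd_one ((dvd_neg.mp h)))
                · refine mem_union_left _ (Nat.mem_primeFactors.mpr ⟨hpp, ?_, hA.ne'⟩)
                  rw [Int.natCast_dvd_natCast] at hi
                  exact hi.trans (Finset.dvd_prod_of_mem _ (mem_range.mpr j.2))
              · exact hR (P.1 * P.2) ⟨P.1 + P.2, rfl⟩ (hpi.dvd_of_dvd_pow hi)
            · exact hR (P.1 + P.2) ⟨P.1 * P.2, by ring⟩ (hpi.dvd_of_dvd_pow hi)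
      have h1 : ∀ s : ℕ, ∀ p ∈ s.primeFactors, 1 ≤ p := fun s p hp =>
        (Nat.prime_of_mem_primeFactors hp).one_le
      unfold rad
      calc ∏ p ∈ (∏ i, tup r e P i).natAbs.primeFactors, p
          ≤ ∏ p ∈ A.primeFactors ∪ (P.1 * P.2 * (P.1 + P.2)).natAbs.primeFactors, p := by
            refine Finset.prod_le_prod_of_subset_of_one_le' hsub fun p hp _ => ?_
            rcases mem_union.mp hp with h | h
            · exact h1 _ p h
            · exact h1 _ p h
        _ ≤ (∏ p ∈ A.primeFactors, p) *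
            ∏ p ∈ (P.1 * P.2 * (P.1 + P.2)).natAbs.primeFactors, p := by
            rw [← Finset.prod_union_inter]
            refine Nat.le_mul_of_pos_right _ (Finset.prod_pos fun p hp => ?_)
            exact h1 _ p (mem_inter.mp hp).1
        _ ≤ A * 2 ^ (2 * r + 1) *
            ∏ p ∈ (P.1 * P.2 * (P.1 + P.2)).natAbs.primeFactors, p := by
            refine Nat.mul_le_mul_right _ ?_
            calc ∏ p ∈ A.primeFactors, p ≤ A := Nat.le_of_dvd hA (Nat.prod_primeFactors_dvd A)
              _ ≤ A * 2 ^ (2 * r + 1) := Nat.le_mul_of_pos_right _ (by positivity)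
    · rcases le_total P.1.natAbs P.2.natAbs with h | h
      · refine ⟨Fin.succ 0, ?_⟩
        rw [tup_one, Int.natAbs_pow, max_eq_right h]
      · refine ⟨0, ?_⟩
        rw [tup_zero, Int.natAbs_pow, max_eq_left h]
    · obtain ⟨H, hH⟩ : ∃ H, H = max P.1.natAbs P.2.natAbs := ⟨_, rfl⟩
      have h1 : P.1.natAbs ≤ H := hH ▸ le_max_left _ _
      have h2 : P.2.natAbs ≤ H := hH ▸ le_max_right _ _
      have h3 : (P.1 + P.2).natAbs ≤ 2 * H := by
        have := Int.natAbs_add_le P.1 P.2
        omega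
      have hE : 1 ≤ A * 2 ^ (2 * r + 1) := Nat.one_le_iff_ne_zero.mpr (by positivity)
      rw [← hH]
      intro i
      refine Fin.cases ?_ (fun i => ?_) i
      · rw [tup_zero, Int.natAbs_pow]
        calc P.1.natAbs ^ (2 * r + 1) ≤ H ^ (2 * r + 1) := Nat.pow_le_pow_left h1 _
          _ = 1 * H ^ (2 * r + 1) := (one_mul _).symm
          _ ≤ _ := Nat.mul_le_mul_right _ hE
      · refine Fin.cases ?_ (fun j => ?_) i
        · rw [tup_one, Int.natAbs_pow]
          calc P.2.natAbs ^ (2 * r + 1) ≤ H ^ (2 * r + 1) := Nat.pow_le_pow_left h2 _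
            _ = 1 * H ^ (2 * r + 1) := (one_mul _).symm
            _ ≤ _ := Nat.mul_le_mul_right _ hE
        · rw [tup_succ, Int.natAbs_neg, Int.natAbs_mul, Int.natAbs_mul, Int.natAbs_mul,
            Int.natAbs_pow, Int.natAbs_pow, Int.natAbs_pow, Int.natAbs_neg, Int.natAbs_one, one_pow,
            one_mul, Int.natAbs_natCast, Int.natAbs_mul]
          have hj : (j : ℕ) ≤ r := by have := j.2; omega
          calc e j * (P.1.natAbs * P.2.natAbs) ^ (j : ℕ) *
                (P.1 + P.2).natAbs ^ (2 * r + 1 - 2 * (j : ℕ))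
              ≤ A * (H * H) ^ (j : ℕ) * (2 * H) ^ (2 * r + 1 - 2 * (j : ℕ)) := by
                refine Nat.mul_le_mul (Nat.mul_le_mul (hej j hj) (Nat.pow_le_pow_left
                  (Nat.mul_le_mul h1 h2) _)) (Nat.pow_le_pow_left h3 _)
            _ = A * 2 ^ (2 * r + 1 - 2 * (j : ℕ)) * H ^ (2 * r + 1) := by
                rw [mul_pow 2 H, ← pow_two, ← pow_mul]
                have h4 : H ^ (2 * r + 1) = H ^ (2 * (j : ℕ)) * H ^ (2 * r + 1 - 2 * (j : ℕ)) := by
                  rw [← pow_add]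
                  congr 1
                  omega
                rw [h4]
                ring
            _ ≤ A * 2 ^ (2 * r + 1) * H ^ (2 * r + 1) := by
                refine Nat.mul_le_mul_right _ (Nat.mul_le_mul_left _ ?_)
                exact Nat.pow_le_pow_right (by norm_num) (by omega)

end Pool.Agent.K1H71.NX
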