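import Pool.Agent.K1H71.NX.Defs

/-! One more term (helper24, for helper71, project NX). -/

set_option autoImplicit false

namespace Pool.Agent.K1H71.NX.MONO

open Finset

variable {m : ℕ}

/-- split the first coordinate -/
def ext (k : ℤ) (x : Fin (m + 1) → ℤ) : Fin (m + 2) → ℤ :=
  Fin.cons ((k + 1) * x 0) (Fin.cons (-(k * x 0)) (Fin.tail x))

theorem ext_zero (k : ℤ) (x : Fin (m + 1) → ℤ) : ext k x 0 = (k + 1) * x 0 := rfl

theorem ext_one (k : ℤ) (x : Fin (m + 1) → ℤ) : ext k x (Fin.succ 0) = -(k * x 0) := rfl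

theorem ext_succ (k : ℤ) (x : Fin (m + 1) → ℤ) (i : Fin m) : ext k x i.succ.succ = x i.succ := rfl

/-- the part of `I` beyond the first two -/
def J (I : Finset (Fin (m + 2))) : Finset (Fin m) := univ.filter (fun i : Fin m => i.succ.succ ∈ I)

theorem sum_ext (k : ℤ) (x : Fin (m + 1) → ℤ) (I : Finset (Fin (m + 2))) :
    ∑ i ∈ I, ext k x i = (if (0 : Fin (m + 2)) ∈ I then (k + 1) * x 0 else 0) +
      ((if (Fin.succ 0 : Fin (m + 2)) ∈ I then -(k * x 0) else 0) + ∑ i ∈ J I, x i.succ) := by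
  have h1 : ∑ i ∈ I, ext k x i = ∑ i, if i ∈ I then ext k x i else 0 := by
    rw [Finset.sum_ite_mem, Finset.univ_inter]
  rw [h1, Fin.sum_univ_succ, Fin.sum_univ_succ]
  simp only [ext_zero, ext_one, ext_succ]
  rw [J, Finset.sum_filter]

theorem sum_map_succ (x : Fin (m + 1) → ℤ) (S : Finset (Fin m)) :
    ∑ i ∈ S.map (Fin.succEmb m), x i = ∑ i ∈ S, x i.succ := by
  rw [Finset.sum_map]
  rfl

theorem zero_notMem (S : Finset (Fin m)) : (0 : Fin (m + 1)) ∉ S.map (Fin.succEmb m) := by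
  intro h
  rw [Finset.mem_map] at h
  obtain ⟨i, _, hi⟩ := h
  exact Fin.succ_ne_zero i hi

theorem x_ne {x : Fin (m + 1) → ℤ} (hm : 1 ≤ m) (hx : Adm x) (i : Fin (m + 1)) : x i ≠ 0 := by
  have h := hx.2.2 {i} (Finset.singleton_nonempty i) (by
    intro h
    have := congrArg Finset.card h
    rw [Finset.card_singleton, Finset.card_univ, Fintype.card_fin] at this
    omega)
  rwa [Finset.sum_singleton] at h

/-- a good `k` -/
theorem exists_k {x : Fin (m + 1) → ℤ} (hm : 1 ≤ m) (hx : Adm x) :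
    ∃ k : ℕ, 1 ≤ k ∧ k ≤ 2 ^ (m + 1) + 1 ∧ ∀ S : Finset (Fin m),
      ((k : ℤ) + 1) * x 0 + ∑ i ∈ S, x i.succ ≠ 0 ∧ -((k : ℤ) * x 0) + ∑ i ∈ S, x i.succ ≠ 0 := by
  by_contra hcon
  push Not at hcon
  have h1 : ∀ k : Fin (2 ^ (m + 1) + 1), ∃ p : Bool × Finset (Fin m),
      if p.1 then (((k : ℕ) + 1 : ℕ) : ℤ) * x 0 + x 0 + ∑ i ∈ p.2, x i.succ = 0
      else -((((k : ℕ) + 1 : ℕ) : ℤ) * x 0) + ∑ i ∈ p.2, x i.succ = 0 := by
    intro k
    obtain ⟨S, hS⟩ := hcon (k + 1) (by omega) (by have := k.2; omega)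
    by_cases h : ((((k : ℕ) + 1 : ℕ) : ℤ) + 1) * x 0 + ∑ i ∈ S, x i.succ = 0
    · refine ⟨(true, S), ?_⟩
      simp only [if_true]
      rw [← h]
      ring
    · refine ⟨(false, S), ?_⟩
      simp only [Bool.false_eq_true, if_false]
      exact hS h
  choose p hp using h1
  obtain ⟨k, l, hkl, hp2⟩ : ∃ k l : Fin (2 ^ (m + 1) + 1), k ≠ l ∧ p k = p l := by
    have := Fintype.exists_ne_map_eq_of_card_lt p (by
      rw [Fintype.card_prod, Fintype.card_bool, Fintype.card_finset, Fintype.card_fin,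
        Fintype.card_fin, pow_succ]
      omega)
    obtain ⟨k, l, h1, h2⟩ := this
    exact ⟨k, l, h1, h2⟩
  have hk := hp k
  have hl := hp l
  rw [← hp2] at hl
  have h0 : x 0 ≠ 0 := x_ne hm hx 0
  apply hkl
  have h3 : ((((k : ℕ) + 1 : ℕ) : ℤ)) * x 0 = ((((l : ℕ) + 1 : ℕ) : ℤ)) * x 0 := by
    by_cases h : (p k).1 = true
    · rw [if_pos h] at hk hl
      linarith
    · rw [if_neg h] at hk hl
      linarith
  have h4 := mul_right_cancel₀ h0 h3
  have h5 : (k : ℕ) + 1 = (l : ℕ) + 1 := by exact_mod_cast h4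
  exact Fin.ext (by omega)

theorem adm_ext {x : Fin (m + 1) → ℤ} (hx : Adm x) (k : ℕ)
    (hk : ∀ S : Finset (Fin m),
      ((k : ℤ) + 1) * x 0 + ∑ i ∈ S, x i.succ ≠ 0 ∧ -((k : ℤ) * x 0) + ∑ i ∈ S, x i.succ ≠ 0) :
    Adm (ext (k : ℤ) x) := by
  refine ⟨?_, ?_, ?_⟩
  · have hd : (univ.gcd (ext (k : ℤ) x)) ∣ 1 := by
      rw [← hx.1]
      apply Finset.dvd_gcd
      intro i _
      refine Fin.cases ?_ (fun j => ?_) i
      · have h0 : univ.gcd (ext (k : ℤ) x) ∣ ext (k : ℤ) x 0 := Finset.gcd_dvd (mem_univ _)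
        have h1 : univ.gcd (ext (k : ℤ) x) ∣ ext (k : ℤ) x (Fin.succ 0) :=
          Finset.gcd_dvd (mem_univ _)
        rw [ext_zero] at h0
        rw [ext_one] at h1
        have h2 := dvd_add h0 h1
        have h3 : ((k : ℤ) + 1) * x 0 + -((k : ℤ) * x 0) = x 0 := by ring
        rwa [h3] at h2
      · have h0 : univ.gcd (ext (k : ℤ) x) ∣ ext (k : ℤ) x j.succ.succ :=
          Finset.gcd_dvd (mem_univ _)
        rwa [ext_succ] at h0
    have hu : IsUnit (univ.gcd (ext (k : ℤ) x)) := isUnit_of_dvd_one hd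
    rw [← Finset.normalize_gcd]
    exact normalize_eq_one.mpr hu
  · have h := hx.2.1
    rw [Fin.sum_univ_succ] at h
    rw [Fin.sum_univ_succ, Fin.sum_univ_succ]
    simp only [ext_zero, ext_one, ext_succ]
    rw [← h]
    ring
  · intro I hI hI2
    rw [sum_ext]
    by_cases h0 : (0 : Fin (m + 2)) ∈ I
    · by_cases h1 : (Fin.succ 0 : Fin (m + 2)) ∈ I
      · rw [if_pos h0, if_pos h1]
        have h := hx.2.2 (insert 0 ((J I).map (Fin.succEmb m))) (Finset.insert_nonempty _ _) (by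
          intro hh
          apply hI2
          rw [Finset.eq_univ_iff_forall] at hh ⊢
          intro i
          refine Fin.cases h0 (fun j => ?_) i
          refine Fin.cases h1 (fun l => ?_) j
          have := hh l.succ
          rw [Finset.mem_insert] at this
          rcases this with this | this
          · exact absurd this (Fin.succ_ne_zero l)
          · rw [Finset.mem_map] at this
            obtain ⟨a, ha, hal⟩ := this
            have hal' : a = l := Fin.succ_injective m hal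
            rw [hal', J, Finset.mem_filter] at ha
            exact ha.2)
        rw [Finset.sum_insert (zero_notMem _), sum_map_succ] at h
        intro hh
        apply h
        rw [← hh]
        ring
      · rw [if_pos h0, if_neg h1, zero_add]
        exact (hk (J I)).1
    · by_cases h1 : (Fin.succ 0 : Fin (m + 2)) ∈ I
      · rw [if_neg h0, if_pos h1, zero_add]
        exact (hk (J I)).2
      · rw [if_neg h0, if_neg h1, zero_add, zero_add]
        have h := hx.2.2 ((J I).map (Fin.succEmb m)) (by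
          obtain ⟨i, hi⟩ := hI
          revert hi
          refine Fin.cases (fun hi => absurd hi h0) (fun j => ?_) i
          refine Fin.cases (fun hi => absurd hi h1) (fun l hi => ?_) j
          refine ⟨l.succ, ?_⟩
          rw [Finset.mem_map]
          exact ⟨l, by rw [J, Finset.mem_filter]; exact ⟨mem_univ _, hi⟩, rfl⟩) (by
          intro hh
          have := Finset.mem_univ (0 : Fin (m + 1))
          rw [← hh] at this
          exact zero_notMem _ this)
        rwa [sum_map_succ] at h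

theorem rad_mul_le (a b : ℤ) (ha : a ≠ 0) : rad (a * b) ≤ a.natAbs * rad b := by
  by_cases hb : b = 0
  · subst hb
    simp only [rad, mul_zero, Int.natAbs_zero, Nat.primeFactors_zero, Finset.prod_empty, mul_one]
    exact Int.natAbs_pos.mpr ha
  · unfold rad
    rw [Int.natAbs_mul, Nat.primeFactors_mul (Int.natAbs_ne_zero.mpr ha)
      (Int.natAbs_ne_zero.mpr hb)]
    have h1 := Finset.prod_union_inter (s₁ := a.natAbs.primeFactors) (s₂ := b.natAbs.primeFactors)
      (f := fun p : ℕ => p)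
    have h2 : 1 ≤ ∏ p ∈ a.natAbs.primeFactors ∩ b.natAbs.primeFactors, p := by
      apply Finset.one_le_prod'
      intro p hp
      exact (Nat.prime_of_mem_primeFactors (Finset.mem_inter.mp hp).1).one_lt.le
    have h3 : ∏ p ∈ a.natAbs.primeFactors, p ≤ a.natAbs :=
      Nat.le_of_dvd (Int.natAbs_pos.mpr ha) (Nat.prod_primeFactors_dvd _)
    calc ∏ p ∈ a.natAbs.primeFactors ∪ b.natAbs.primeFactors, p
        ≤ (∏ p ∈ a.natAbs.primeFactors ∪ b.natAbs.primeFactors, p) *
          ∏ p ∈ a.natAbs.primeFactors ∩ b.natAbs.primeFactors, p := Nat.le_mul_of_pos_right _ h2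
      _ = (∏ p ∈ a.natAbs.primeFactors, p) * ∏ p ∈ b.natAbs.primeFactors, p := h1
      _ ≤ a.natAbs * ∏ p ∈ b.natAbs.primeFactors, p := Nat.mul_le_mul_right _ h3

theorem rad_neg (a : ℤ) : rad (-a) = rad a := by
  simp [rad]

theorem rad_mul_self (a b : ℤ) (ha : a ≠ 0) (hb : b ≠ 0) (hab : a ∣ b) :
    rad (a * b) = rad b := by
  unfold rad
  rw [Int.natAbs_mul, Nat.primeFactors_mul (Int.natAbs_ne_zero.mpr ha)
      (Int.natAbs_ne_zero.mpr hb)]
  have h : a.natAbs.primeFactors ⊆ b.natAbs.primeFactors :=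
    Nat.primeFactors_mono (Int.natAbs_dvd_natAbs.mpr hab) (Int.natAbs_ne_zero.mpr hb)
  rw [Finset.union_eq_right.mpr h]

theorem rad_ext {x : Fin (m + 1) → ℤ} (hx : ∀ i, x i ≠ 0) (k : ℕ) (hk : 1 ≤ k) :
    rad (∏ i, ext (k : ℤ) x i) ≤ (k * (k + 1)) * rad (∏ i, x i) := by
  have h1 : ∏ i, ext (k : ℤ) x i = ((k : ℤ) * (k + 1)) * (-(x 0 * ∏ i, x i)) := by
    rw [Fin.prod_univ_succ, Fin.prod_univ_succ, Fin.prod_univ_succ (f := x)]
    simp only [ext_zero, ext_one, ext_succ]
    ring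
  have hne : (k : ℤ) * (k + 1) ≠ 0 := by positivity
  rw [h1]
  refine (rad_mul_le _ _ hne).trans ?_
  rw [rad_neg, rad_mul_self _ _ (hx 0) (Finset.prod_ne_zero_iff.mpr fun i _ => hx i)
    (Finset.dvd_prod_of_mem x (mem_univ 0))]
  apply le_of_eq
  congr 1

theorem abs_ext {x : Fin (m + 1) → ℤ} (k : ℕ) (i : Fin (m + 2)) :
    ∃ j, |(ext (k : ℤ) x i : ℝ)| ≤ ((k : ℝ) + 1) * |(x j : ℝ)| := by
  have hk : (0 : ℝ) ≤ k := Nat.cast_nonneg k
  refine Fin.cases ?_ (fun j => ?_) i
  · refine ⟨0, ?_⟩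
    rw [ext_zero]
    push_cast
    rw [abs_mul, abs_of_nonneg (by positivity : (0 : ℝ) ≤ (k : ℝ) + 1)]
  · refine Fin.cases ?_ (fun l => ?_) j
    · refine ⟨0, ?_⟩
      rw [ext_one]
      push_cast
      rw [abs_neg, abs_mul, abs_of_nonneg hk]
      have := abs_nonneg (x 0 : ℝ)
      nlinarith
    · refine ⟨l.succ, ?_⟩
      rw [ext_succ]
      have := abs_nonneg (x l.succ : ℝ)
      nlinarith

theorem abs_le_ext {x : Fin (m + 1) → ℤ} (k : ℕ) (i : Fin (m + 1)) :
    ∃ j, |(x i : ℝ)| ≤ |(ext (k : ℤ) x j : ℝ)| := by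
  have hk : (0 : ℝ) ≤ k := Nat.cast_nonneg k
  refine Fin.cases ?_ (fun j => ?_) i
  · refine ⟨0, ?_⟩
    rw [ext_zero]
    push_cast
    rw [abs_mul, abs_of_nonneg (by positivity : (0 : ℝ) ≤ (k : ℝ) + 1)]
    have := abs_nonneg (x 0 : ℝ)
    nlinarith
  · exact ⟨j.succ.succ, by rw [ext_succ]⟩

end Pool.Agent.K1H71.NX.MONO

namespace Pool.Agent.K1H71.NX

open Finset

theorem t_MONO : S_MONO := by
  intro n M A e hn hM hLB
  obtain ⟨m, rfl⟩ : ∃ m, n = m + 1 := ⟨n - 1, by omega⟩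
  have hm : 1 ≤ m := by omega
  intro K hK
  set R : ℝ := (2 ^ (m + 1) + 2) ^ 2 with hR
  have hR1 : 1 ≤ R := by
    rw [hR]
    have : (0 : ℝ) < 2 ^ (m + 1) := by positivity
    nlinarith
  have hR0 : 0 < R := by linarith
  obtain ⟨c, C, X₀, hc, hC, hT⟩ := hLB (K * R ^ M) (by positivity)
  refine ⟨c / R ^ e, R * C / R ^ A, max (R * X₀) 0, by positivity, by positivity, ?_⟩
  intro X hX
  have hX0 : 0 ≤ X := le_trans (le_max_right _ _) hX
  have hX1 : X₀ ≤ X / R := by
    rw [le_div_iff₀ hR0, mul_comm]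
    exact le_trans (le_max_left _ _) hX
  obtain ⟨T, hT1, hT2⟩ := hT (X / R) hX1
  have key : ∀ x : Fin (m + 1) → ℤ, ∃ y : Fin (m + 2) → ℤ,
      (x ∈ T → Good M K X (R * C / R ^ A * X ^ A) y) ∧ x 0 = y 0 + y (Fin.succ 0) ∧
        ∀ i : Fin m, x i.succ = y i.succ.succ := by
    intro x
    by_cases hxT : x ∈ T
    · have hg := hT1 x hxT
      obtain ⟨k, hk1, hk2, hk3⟩ := MONO.exists_k hm hg.adm
      refine ⟨MONO.ext (k : ℤ) x, fun _ => ?_, ?_, ?_⟩
      · have hkR : ((k : ℝ) * (k + 1)) ≤ R := by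
          have h1 : (k : ℝ) ≤ 2 ^ (m + 1) + 1 := by exact_mod_cast hk2
          have h2 : (0 : ℝ) ≤ k := Nat.cast_nonneg k
          rw [hR]
          nlinarith
        have hkR2 : ((k : ℝ) + 1) ≤ R := by
          have h1 : (1 : ℝ) ≤ k := by exact_mod_cast hk1
          nlinarith
        have hrad : (rad (∏ i, MONO.ext (k : ℤ) x i) : ℝ) ≤ R * (rad (∏ i, x i) : ℝ) := by
          have h1 := MONO.rad_ext (MONO.x_ne hm hg.adm) k hk1
          have h2 : (rad (∏ i, MONO.ext (k : ℤ) x i) : ℝ) ≤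
              ((k : ℝ) * (k + 1)) * (rad (∏ i, x i) : ℝ) := by exact_mod_cast h1
          exact h2.trans (mul_le_mul_of_nonneg_right hkR (Nat.cast_nonneg _))
        refine ⟨MONO.adm_ext hg.adm k hk3, ?_, ?_, ?_⟩
        · refine hrad.trans ?_
          have := mul_le_mul_of_nonneg_left hg.rad_le hR0.le
          rwa [mul_div_cancel₀ _ hR0.ne'] at this
        · obtain ⟨i, hi⟩ := hg.big
          obtain ⟨j, hj⟩ := MONO.abs_le_ext (x := x) k i
          refine ⟨j, lt_of_le_of_lt ?_ (lt_of_lt_of_le hi hj)⟩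
          calc K * (rad (∏ i, MONO.ext (k : ℤ) x i) : ℝ) ^ M
              ≤ K * (R * (rad (∏ i, x i) : ℝ)) ^ M :=
                mul_le_mul_of_nonneg_left (Real.rpow_le_rpow (Nat.cast_nonneg _) hrad hM) hK.le
            _ = K * R ^ M * (rad (∏ i, x i) : ℝ) ^ M := by
                rw [Real.mul_rpow hR0.le (Nat.cast_nonneg _)]
                ring
        · intro i
          obtain ⟨j, hj⟩ := MONO.abs_ext (x := x) k i
          refine hj.trans ?_
          have h1 := hg.small j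
          rw [Real.div_rpow hX0 hR0.le] at h1
          calc ((k : ℝ) + 1) * |(x j : ℝ)| ≤ R * |(x j : ℝ)| :=
                mul_le_mul_of_nonneg_right hkR2 (abs_nonneg _)
            _ ≤ R * (C * (X ^ A / R ^ A)) := mul_le_mul_of_nonneg_left h1 hR0.le
            _ = R * C / R ^ A * X ^ A := by ring
      · rw [MONO.ext_zero, MONO.ext_one]
        ring
      · intro i
        rw [MONO.ext_succ]
    · exact ⟨MONO.ext 0 x, fun h => absurd h hxT, by rw [MONO.ext_zero, MONO.ext_one]; ring,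
        fun i => by rw [MONO.ext_succ]⟩
  choose f hf1 hf2 hf3 using key
  have hinj : Function.Injective f := by
    intro x y hxy
    funext i
    refine Fin.cases ?_ (fun j => ?_) i
    · rw [hf2 x, hf2 y, hxy]
    · rw [hf3 x, hf3 y, hxy]
  refine ⟨T.image f, ?_, ?_⟩
  · intro y hy
    rw [Finset.mem_image] at hy
    obtain ⟨x, hx, rfl⟩ := hy
    exact hf1 x hx
  · rw [Finset.card_image_of_injective _ hinj]
    refine le_trans (le_of_eq ?_) hT2
    rw [Real.div_rpow hX0 hR0.le]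
    ring

end Pool.Agent.K1H71.NX
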