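import Pool.Agent.K1H71.NX.Defs

/-! Piece NX-NVS (S_NVS): proper subsums vanish at finitely many coprime pairs only (helper65 for
helper71). -/

set_option autoImplicit false

namespace Pool.Agent.K1H71.NX

open Finset Polynomial

namespace NVS

/-- the terms -/
noncomputable def tm (r : ℕ) (e : ℕ → ℕ) (j : ℕ) : ℚ[X] :=
  C ((-1) ^ j * (e j : ℚ)) * (X ^ j * (X + 1) ^ (2 * r + 1 - 2 * j))

theorem coeff_tm (r : ℕ) (e : ℕ → ℕ) (j d : ℕ) : (tm r e j).coeff d =
    (-1) ^ j * (e j : ℚ) * (if j ≤ d then (((2 * r + 1 - 2 * j).choose (d - j) : ℕ) : ℚ) else 0) := by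
  unfold tm
  rw [coeff_C_mul, coeff_X_pow_mul']
  simp only [coeff_X_add_one_pow]

theorem coeff_zero_sum {r : ℕ} {e : ℕ → ℕ} (he : War r e) (J : Finset ℕ) :
    (∑ j ∈ J, tm r e j).coeff 0 = if 0 ∈ J then 1 else 0 := by
  rw [finsetSum_coeff]
  have h : ∀ j ∈ J, (tm r e j).coeff 0 = if j = 0 then 1 else 0 := by
    intro j _
    rw [coeff_tm]
    by_cases hj : j = 0
    · subst hj
      simp [he.one]
    · rw [if_neg (by omega), if_neg hj, mul_zero]
  rw [Finset.sum_congr rfl h, Finset.sum_ite_eq' J 0]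

theorem coeff_top_sum {r : ℕ} {e : ℕ → ℕ} (he : War r e) (J : Finset ℕ) (hJ : J ⊆ range (r + 1)) :
    (∑ j ∈ J, tm r e j).coeff (2 * r + 1) = if 0 ∈ J then 1 else 0 := by
  rw [finsetSum_coeff]
  have h : ∀ j ∈ J, (tm r e j).coeff (2 * r + 1) = if j = 0 then 1 else 0 := by
    intro j hj
    have hjr := mem_range.mp (hJ hj)
    rw [coeff_tm]
    by_cases hj : j = 0
    · subst hj
      simp [he.one]
    · rw [if_pos (by omega), if_neg hj, Nat.choose_eq_zero_of_lt (by omega), Nat.cast_zero,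
        mul_zero]
  rw [Finset.sum_congr rfl h, Finset.sum_ite_eq' J 0]

theorem sum_ne_zero {r : ℕ} {e : ℕ → ℕ} (he : War r e) (J : Finset ℕ) (hJ : J ⊆ range (r + 1))
    (hne : J.Nonempty) : (∑ j ∈ J, tm r e j) ≠ 0 := by
  intro h
  have h0 := congrArg (fun p : ℚ[X] => p.coeff (J.min' hne)) h
  simp only [finsetSum_coeff, coeff_zero] at h0
  have hmem := J.min'_mem hne
  have hr := mem_range.mp (hJ hmem)
  rw [Finset.sum_eq_single (J.min' hne)] at h0
  · rw [coeff_tm, if_pos le_rfl, Nat.sub_self, Nat.choose_zero_right, Nat.cast_one, mul_one] at h0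
    rcases mul_eq_zero.mp h0 with h1 | h1
    · exact absurd h1 (pow_ne_zero _ (by norm_num))
    · have := he.pos (J.min' hne) (by omega)
      have h2 : e (J.min' hne) = 0 := by exact_mod_cast h1
      omega
  · intro j hj hjne
    have hlt : J.min' hne < j := lt_of_le_of_ne (J.min'_le j hj) (Ne.symm hjne)
    rw [coeff_tm, if_neg (by omega), mul_zero]
  · intro h
    exact absurd hmem h

theorem full_sum {r : ℕ} {e : ℕ → ℕ} (he : War r e) :
    ∑ j ∈ range (r + 1), tm r e j = X ^ (2 * r + 1) + 1 := by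
  have h := he.eq ℚ[X] X 1
  rw [one_pow] at h
  rw [h]
  refine Finset.sum_congr rfl fun j _ => ?_
  unfold tm
  rw [mul_one, C_mul, C_pow, C_neg, C_1, C_eq_natCast]
  ring

/-- the dehomogenisation -/
noncomputable def G (r : ℕ) (e : ℕ → ℕ) (s t : Bool) (J : Finset ℕ) : ℚ[X] :=
  (if s then X ^ (2 * r + 1) else 0) + (if t then 1 else 0) - ∑ j ∈ J, tm r e j

theorem G_ne_zero {r : ℕ} {e : ℕ → ℕ} (he : War r e) (s t : Bool) (J : Finset ℕ)
    (hJ : J ⊆ range (r + 1)) (h1 : ¬(s = false ∧ t = false ∧ J = ∅))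
    (h2 : ¬(s = true ∧ t = true ∧ J = range (r + 1))) : G r e s t J ≠ 0 := by
  intro hG
  have hc := coeff_zero_sum he J
  have ht := coeff_top_sum he J hJ
  unfold G at hG
  cases s <;> cases t
  · have hne : J.Nonempty := by
      rw [Finset.nonempty_iff_ne_empty]
      intro h
      exact h1 ⟨rfl, rfl, h⟩
    simp only [Bool.false_eq_true, if_false, add_zero, zero_sub, neg_eq_zero] at hG
    exact sum_ne_zero he J hJ hne hG
  · simp only [Bool.false_eq_true, if_false, if_true, zero_add, sub_eq_zero] at hG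
    rw [← hG] at hc ht
    rw [coeff_one_zero] at hc
    rw [coeff_one, if_neg (by omega)] at ht
    rw [← ht] at hc
    exact one_ne_zero hc
  · simp only [Bool.false_eq_true, if_false, if_true, add_zero, sub_eq_zero] at hG
    rw [← hG] at hc ht
    rw [coeff_X_pow, if_neg (by omega)] at hc
    rw [coeff_X_pow, if_pos rfl, ← hc] at ht
    exact one_ne_zero ht
  · simp only [if_true] at hG
    rw [← full_sum he, ← Finset.sum_sdiff hJ, add_sub_cancel_right] at hG
    refine sum_ne_zero he _ Finset.sdiff_subset ?_ hG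
    rw [Finset.sdiff_nonempty]
    intro h
    exact h2 ⟨rfl, rfl, Finset.Subset.antisymm hJ h⟩

theorem subsum_eq (r : ℕ) (e : ℕ → ℕ) (s t : Bool) (J : Finset ℕ) (hJ : J ⊆ range (r + 1))
    (a b : ℤ) (hb : b ≠ 0) : ((subsum r e s t J a b : ℤ) : ℚ) =
      (b : ℚ) ^ (2 * r + 1) * (G r e s t J).eval ((a : ℚ) / b) := by
  have hb' : (b : ℚ) ≠ 0 := by exact_mod_cast hb
  have hsum : (∑ j ∈ J, (((-1) ^ j * (e j : ℤ) * (a * b) ^ j *
      (a + b) ^ (2 * r + 1 - 2 * j) : ℤ) : ℚ)) =
      (b : ℚ) ^ (2 * r + 1) * ∑ j ∈ J, (tm r e j).eval ((a : ℚ) / b) := by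
    rw [Finset.mul_sum]
    refine Finset.sum_congr rfl fun j hj => ?_
    have hjr := mem_range.mp (hJ hj)
    unfold tm
    rw [eval_mul, eval_C, eval_mul, eval_pow, eval_X, eval_pow, eval_add, eval_X, eval_one]
    have h1 : (b : ℚ) ^ (2 * r + 1) = (b : ℚ) ^ j * (b : ℚ) ^ j * (b : ℚ) ^ (2 * r + 1 - 2 * j) := by
      rw [← pow_add, ← pow_add]
      congr 1
      omega
    obtain ⟨q, hq⟩ : ∃ q : ℚ, q = (a : ℚ) / b := ⟨_, rfl⟩
    have h3 : (a : ℚ) = b * q := by
      rw [hq]
      field_simp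
    have h2 : (b : ℚ) * q + b = b * (q + 1) := by ring
    push_cast
    rw [← hq, h1, h3, h2, mul_pow (b : ℚ) (q + 1), mul_pow ((b : ℚ) * q) b, mul_pow (b : ℚ) q]
    ring
  unfold subsum G
  rw [eval_sub, eval_add, eval_finsetSum, mul_sub, mul_add, ← hsum]
  push_cast
  congr 2
  · cases s
    · simp
    · simp only [if_true, eval_pow, eval_X]
      push_cast
      rw [div_pow, mul_div_cancel₀ _ (pow_ne_zero _ hb')]
  · cases t
    · simp
    · simp

end NVS

open NVS

theorem t_NVS : S_NVS := by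
  classical
  intro r e he s t J hJ h1 h2
  have hG := G_ne_zero he s t J hJ h1 h2
  let R : Finset ℚ := (G r e s t J).roots.toFinset
  have hfin : (⋃ q ∈ R, ({((q.num : ℤ), (q.den : ℤ)), (-(q.num : ℤ), -(q.den : ℤ))} :
      Set (ℤ × ℤ))).Finite :=
    Set.Finite.biUnion (Finset.finite_toSet R) fun q _ => Set.toFinite _
  have hfin2 : ({((1 : ℤ), (0 : ℤ)), (-1, 0)} : Set (ℤ × ℤ)).Finite := Set.toFinite _
  refine (hfin.union hfin2).subset ?_
  rintro ⟨a, b⟩ ⟨hc, h0⟩
  dsimp only at hc h0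
  by_cases hb : b = 0
  · right
    subst hb
    rw [isCoprime_zero_right, Int.isUnit_iff] at hc
    rcases hc with rfl | rfl
    · left; rfl
    · right; rfl
  · left
    have hb' : (b : ℚ) ≠ 0 := by exact_mod_cast hb
    have h3 := subsum_eq r e s t J hJ a b hb
    rw [h0, Int.cast_zero] at h3
    have h4 : (G r e s t J).eval ((a : ℚ) / b) = 0 := by
      rcases mul_eq_zero.mp h3.symm with h | h
      · exact absurd h (pow_ne_zero _ hb')
      · exact h
    have hq : ((a : ℚ) / b) ∈ R := by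
      rw [Multiset.mem_toFinset, mem_roots hG]
      exact h4
    simp only [Set.mem_iUnion]
    refine ⟨(a : ℚ) / b, hq, ?_⟩
    have hco : Nat.Coprime a.natAbs b.natAbs := Int.isCoprime_iff_gcd_eq_one.mp hc
    rcases lt_or_gt_of_ne hb with hneg | hpos
    · right
      have h5 : (a : ℚ) / b = ((-a : ℤ) : ℚ) / ((-b : ℤ) : ℚ) := by
        push_cast
        rw [neg_div_neg_eq]
      have hco' : Nat.Coprime (-a).natAbs (-b).natAbs := by
        rwa [Int.natAbs_neg, Int.natAbs_neg]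
      have hpos' : 0 < -b := by omega
      rw [Set.mem_singleton_iff, h5, Rat.num_div_eq_of_coprime hpos' hco',
        Rat.den_div_eq_of_coprime hpos' hco', neg_neg, neg_neg]
    · left
      rw [Rat.num_div_eq_of_coprime hpos hco, Rat.den_div_eq_of_coprime hpos hco]

end Pool.Agent.K1H71.NX
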