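import Pool.Agent.K1H71.NX.Defs
import Pool.Agent.Y594.NT.Sum

/-! Project NX, piece POS1: small exponents, from the lower bound of the starting library. -/

set_option autoImplicit false

namespace Pool.Agent.K1H71.NX

namespace POS1

open Finset
open Pool.Agent.Y594.NT (radS one_le_radS sum_N1 le_of_log_le sup_le_of_ht abs_le_sup cut cut_inj
  gcd_cut form_cut form_last tup_lower)

theorem radS_eq (a : ℤ) : radS ∅ a = Pool.Agent.K1H71.NX.rad a := by
  unfold radS Pool.Agent.K1H71.NX.rad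
  rw [sdiff_empty]

theorem rad_neg (a : ℤ) : Pool.Agent.K1H71.NX.rad (-a) = Pool.Agent.K1H71.NX.rad a := by
  unfold Pool.Agent.K1H71.NX.rad
  rw [Int.natAbs_neg]

theorem pos1 : S_POS1 := by
  classical
  intro h κ hh hκ0 hκ
  obtain ⟨m, rfl⟩ : ∃ m, h = m + 1 := ⟨h - 1, by omega⟩
  have hm : 1 ≤ m := by omega
  have hm0 : (0 : ℝ) < (m : ℝ) + 2 := by positivity
  have ecast : (((m + 1 : ℕ) : ℝ) + 1) = (m : ℝ) + 2 := by push_cast; ring
  rw [ecast] at hκ ⊢
  intro K hK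
  obtain ⟨c, hc, X₀, hX₀⟩ := tup_lower m hm ∅
  set γ : ℝ := ((m : ℝ) + 1) / (m + 2) - κ * (m + 1) with hγ
  have hγ0 : 0 < γ := by
    have : κ * (m + 1) < ((m : ℝ) + 1) / (m + 2) := by
      rw [lt_div_iff₀ hm0]
      rw [lt_div_iff₀ hm0] at hκ
      have hm1 : (0 : ℝ) < (m : ℝ) + 1 := by positivity
      nlinarith
    linarith
  obtain ⟨X₁, hX₁⟩ := Filter.eventually_atTop.1
    ((tendsto_rpow_atTop hγ0).eventually_ge_atTop (2 * K ^ (m + 1) / c))
  refine ⟨c / 2, 1, max (max X₀ X₁) 1, by positivity, one_pos, fun X hX => ?_⟩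
  have hXX₀ : X₀ ≤ X := ((le_max_left _ _).trans (le_max_left _ _)).trans hX
  have hXX₁ : X₁ ≤ X := ((le_max_right _ _).trans (le_max_left _ _)).trans hX
  have hX1 : 1 ≤ X := (le_max_right _ _).trans hX
  have hX0 : 0 < X := by linarith
  obtain ⟨T₀, hT, hcard⟩ := hX₀ X hXX₀
  set B : ℝ := K * X ^ κ with hB
  have hB0 : 0 ≤ B := by positivity
  set T₁ : Finset (Fin (m + 1) → ℤ) := T₀.image cut with hT₁
  have hinj : Set.InjOn (cut (m := m)) (T₀ : Set (Fin (m + 2) → ℤ)) :=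
    fun z hz w hw hzw => cut_inj (hT z hz).2.1 (hT w hw).2.1 hzw
  have hc1 : T₁.card = T₀.card := card_image_of_injOn hinj
  refine ⟨T₁.filter (fun a => B ≤ ((∑ i, a i : ℤ) : ℝ)), ?_, ?_⟩
  · intro a ha
    rw [mem_filter, hT₁, mem_image] at ha
    obtain ⟨⟨z, hz, rfl⟩, ha2⟩ := ha
    obtain ⟨g1, g2, g3, g4, g5⟩ := hT z hz
    have hlast : z (Fin.last (m + 1)) = -∑ j, cut z j := by
      rw [← form_cut g2 (Fin.last (m + 1)), form_last]
    refine ⟨fun i => g3 i, gcd_cut g2 g1, ?_, ha2, ?_⟩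
    · rw [sum_N1] at g5
      have h5 : (0 : ℝ) < ∏ i, (radS ∅ (z i) : ℝ) := prod_pos fun i _ => by
        have := one_le_radS ∅ (z i)
        linarith
      have h6 := le_of_log_le h5 hX1 g5
      rw [Fin.prod_univ_castSucc] at h6
      simp only [radS_eq] at h6
      rw [hlast, rad_neg] at h6
      exact h6
    · have h7 := sup_le_of_ht g1 hX0 g4
      have h8 := abs_le_sup z (Fin.last (m + 1))
      rw [hlast] at h8
      have h9 : ((∑ j, cut z j : ℤ) : ℝ) ≤ |((-∑ j, cut z j : ℤ) : ℝ)| := by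
        rw [Int.cast_neg, abs_neg]
        exact le_abs_self _
      rw [one_mul]
      linarith
  · have hbad : ((T₁.filter (fun a => ¬ B ≤ ((∑ i, a i : ℤ) : ℝ))).card : ℝ) ≤ B ^ (m + 1) := by
      have hsub : T₁.filter (fun a => ¬ B ≤ ((∑ i, a i : ℤ) : ℝ)) ⊆
          Fintype.piFinset (fun _ : Fin (m + 1) => Finset.Icc (1 : ℤ) ⌊B⌋₊) := by
        intro a ha
        rw [mem_filter, hT₁, mem_image] at ha
        obtain ⟨⟨z, hz, rfl⟩, ha2⟩ := ha
        have hpos : ∀ j, 0 < cut z j := fun j => (hT z hz).2.2.1 j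
        rw [Fintype.mem_piFinset]
        intro i
        have hle : cut z i ≤ ∑ j, cut z j :=
          single_le_sum (fun j _ => (hpos j).le) (mem_univ i)
        have hle' : ((cut z i : ℤ) : ℝ) ≤ B := by
          have : ((cut z i : ℤ) : ℝ) ≤ ((∑ j, cut z j : ℤ) : ℝ) := by exact_mod_cast hle
          push Not at ha2
          linarith
        have hfl : (cut z i).toNat ≤ ⌊B⌋₊ := by
          apply Nat.le_floor
          have : (((cut z i).toNat : ℕ) : ℝ) = ((cut z i : ℤ) : ℝ) := by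
            rw [← Int.cast_natCast, Int.toNat_of_nonneg (hpos i).le]
          rw [this]
          exact hle'
        have := hpos i
        rw [mem_Icc]
        omega
      have h1 := card_le_card hsub
      rw [Fintype.card_piFinset] at h1
      simp only [Int.card_Icc, prod_const, card_univ, Fintype.card_fin] at h1
      have h2 : ((⌊B⌋₊ : ℤ) + 1 - 1).toNat = ⌊B⌋₊ := by omega
      rw [h2] at h1
      calc ((T₁.filter (fun a => ¬ B ≤ ((∑ i, a i : ℤ) : ℝ))).card : ℝ)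
          ≤ ((⌊B⌋₊ ^ (m + 1) : ℕ) : ℝ) := by exact_mod_cast h1
        _ = (⌊B⌋₊ : ℝ) ^ (m + 1) := by push_cast; rfl
        _ ≤ B ^ (m + 1) := pow_le_pow_left₀ (Nat.cast_nonneg _) (Nat.floor_le hB0) _
    have hsplit := card_filter_add_card_filter_not (s := T₁)
      (fun a => B ≤ ((∑ i, a i : ℤ) : ℝ))
    have hsplit' : ((T₁.filter (fun a => B ≤ ((∑ i, a i : ℤ) : ℝ))).card : ℝ) +
        ((T₁.filter (fun a => ¬ B ≤ ((∑ i, a i : ℤ) : ℝ))).card : ℝ) = (T₀.card : ℝ) := by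
      rw [← hc1]
      exact_mod_cast hsplit
    have hpow : B ^ (m + 1) = K ^ (m + 1) * X ^ (κ * (m + 1)) := by
      rw [hB, mul_pow, ← Real.rpow_natCast (X ^ κ), ← Real.rpow_mul hX0.le]
      push_cast
      rfl
    have hg := hX₁ X hXX₁
    have hKc : K ^ (m + 1) ≤ c / 2 * X ^ γ := by
      rw [div_le_iff₀ hc] at hg
      linarith
    have hexp : X ^ γ * X ^ (κ * (m + 1)) = X ^ (((m : ℝ) + 1) / (m + 2)) := by
      rw [← Real.rpow_add hX0, hγ, sub_add_cancel]
    have hB2 : B ^ (m + 1) ≤ c / 2 * X ^ (((m : ℝ) + 1) / (m + 2)) := by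
      rw [hpow, ← hexp, ← mul_assoc]
      exact mul_le_mul_of_nonneg_right hKc (by positivity)
    have e : ((m + 1 : ℕ) : ℝ) / ((m : ℝ) + 2) = ((m : ℝ) + 1) / (m + 2) := by push_cast; rfl
    rw [e]
    linarith

end POS1

theorem t_POS1 : S_POS1 := POS1.pos1

end Pool.Agent.K1H71.NX
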