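import Pool.Agent.K1H71.NX.Defs
import Pool.Agent.Y500.NT2.LowN

/-! PosLB for exponents between `1 / (h + 1)` and `1 / h` (project NX, piece POS2). -/

set_option autoImplicit false

namespace Pool.Agent.K1H71.NX.POS2

open Finset Pool.Agent.K1H71.NX

/-- dropping the last coordinate -/
def ini {m : ℕ} (z : Fin (m + 2) → ℤ) : Fin (m + 1) → ℤ := fun i => z i.castSucc

theorem last_eq {m : ℕ} {z : Fin (m + 2) → ℤ} (h : ∑ i, z i = 0) :
    z (Fin.last (m + 1)) = -∑ i, ini z i := by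
  rw [Fin.sum_univ_castSucc] at h
  simp only [ini]
  linarith

theorem ini_inj {m : ℕ} {z w : Fin (m + 2) → ℤ} (hz : ∑ i, z i = 0) (hw : ∑ i, w i = 0)
    (h : ini z = ini w) : z = w := by
  funext i
  refine Fin.lastCases ?_ (fun j => ?_) i
  · rw [last_eq hz, last_eq hw, h]
  · exact congrFun h j

theorem gcd_ini {m : ℕ} {z : Fin (m + 2) → ℤ} (h : ∑ i, z i = 0) (hg : univ.gcd z = 1) :
    univ.gcd (ini z) = 1 := by
  have h1 : univ.gcd (ini z) ∣ univ.gcd z := by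
    refine Finset.dvd_gcd fun i _ => ?_
    refine Fin.lastCases ?_ (fun j => ?_) i
    · rw [last_eq h]
      exact (Finset.dvd_sum fun j _ => Finset.gcd_dvd (mem_univ j)).neg_right
    · exact Finset.gcd_dvd (f := ini z) (mem_univ j)
  rw [hg] at h1
  exact Int.eq_one_of_dvd_one
    (Int.nonneg_of_normalize_eq_self Finset.normalize_gcd) h1

theorem sum_ini {m : ℕ} {z : Fin (m + 2) → ℤ} (h : ∑ i, z i = 0) :
    ∑ i, ini z i = -z (Fin.last (m + 1)) := by
  rw [last_eq h]; ring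

theorem rad_ini {m : ℕ} {z : Fin (m + 2) → ℤ} (h : ∑ i, z i = 0) :
    (∏ i, (rad (ini z i) : ℝ)) * (rad (∑ i, ini z i) : ℝ) =
      ∏ i, (Pool.Agent.H785R2.ABC.rad (z i).natAbs : ℝ) := by
  rw [Fin.prod_univ_castSucc (fun i => (Pool.Agent.H785R2.ABC.rad (z i).natAbs : ℝ)), sum_ini h]
  have e : rad (-z (Fin.last (m + 1))) =
      Pool.Agent.H785R2.ABC.rad (z (Fin.last (m + 1))).natAbs := by
    simp only [rad, Pool.Agent.H785R2.ABC.rad, Int.natAbs_neg]
  rw [e]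
  rfl

theorem le_sum {m : ℕ} {z : Fin (m + 2) → ℤ} (h : ∑ i, z i = 0)
    (hp : ∀ j : Fin (m + 1), 0 < z j.castSucc) (i : Fin (m + 2)) :
    ((z i).natAbs : ℝ) ≤ ((∑ i, ini z i : ℤ) : ℝ) := by
  have h1 : ((z i).natAbs : ℤ) ≤ ∑ i, ini z i := by
    have hs : 0 ≤ ∑ i, ini z i := Finset.sum_nonneg fun j _ => (hp j).le
    refine Fin.lastCases ?_ (fun j => ?_) i
    · rw [last_eq h, Int.natAbs_neg, Int.natAbs_of_nonneg hs]
    · rw [Int.natAbs_of_nonneg (hp j).le]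
      exact Finset.single_le_sum (f := ini z) (fun j _ => (hp j).le) (mem_univ j)
  rw [← Int.cast_natCast (z i).natAbs]
  exact Int.cast_le.2 h1

end Pool.Agent.K1H71.NX.POS2

namespace Pool.Agent.K1H71.NX

open Finset POS2

theorem t_POS2 : S_POS2 := by
  intro h κ δ hh hκ1 hκ2 hδ K hK
  obtain ⟨m, rfl⟩ : ∃ m, h = m + 1 := ⟨h - 1, by omega⟩
  have hm : 1 ≤ m := by omega
  obtain ⟨X₀, hX₀, hL⟩ := Pool.Agent.Y500.NT2.lown m hm (δ / 2) (by positivity)
  push_cast at hκ1 hκ2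
  have e1 : (m : ℝ) + 1 + 1 = m + 2 := by ring
  rw [e1] at hκ1
  set d := min (δ / 2) (1 / ((m : ℝ) + 1) - κ) with hd
  have hd0 : 0 < d := lt_min (by positivity) (by linarith)
  have hd1 : d ≤ δ / 2 := min_le_left _ _
  have hd2 : d ≤ 1 / ((m : ℝ) + 1) - κ := min_le_right _ _
  refine ⟨1, 1, max X₀ (K ^ (1 / d)), one_pos, one_pos, fun X hX => ?_⟩
  have hX1 : X₀ ≤ X := (le_max_left _ _).trans hX
  have hX2 : K ^ (1 / d) ≤ X := (le_max_right _ _).trans hX
  have hX3 : 1 ≤ X := hX₀.trans hX1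
  have hX4 : 0 < X := by linarith
  have hKX : K ≤ X ^ d := by
    have h1 : (K ^ (1 / d)) ^ d ≤ X ^ d := Real.rpow_le_rpow (by positivity) hX2 hd0.le
    rwa [← Real.rpow_mul hK.le, one_div_mul_cancel hd0.ne', Real.rpow_one] at h1
  obtain ⟨T, hT, hc⟩ := hL X hX1 (κ + d) (by linarith) (by linarith)
  refine ⟨T.image ini, ?_, ?_⟩
  · intro a ha
    obtain ⟨z, hz, rfl⟩ := Finset.mem_image.1 ha
    obtain ⟨z1, z2, z3, z4, ⟨i, z5⟩, z6⟩ := hT z hz
    refine ⟨fun i => z3 i, gcd_ini z2 z1, by rw [rad_ini z2]; exact z4, ?_, ?_⟩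
    · calc K * X ^ κ ≤ X ^ d * X ^ κ := by gcongr
        _ = X ^ (κ + d) := by rw [← Real.rpow_add hX4, add_comm]
        _ ≤ _ := z5.trans (le_sum z2 z3 i)
    · rw [one_mul]
      have h1 := z6 (Fin.last (m + 1))
      have h2 : ((∑ i, ini z i : ℤ) : ℝ) = ((z (Fin.last (m + 1))).natAbs : ℝ) := by
        have hs : 0 ≤ ∑ i, ini z i := Finset.sum_nonneg fun j _ => (z3 j).le
        rw [last_eq z2, Int.natAbs_neg]
        rw [← Int.cast_natCast (∑ i, ini z i).natAbs, Int.natAbs_of_nonneg hs]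
      rw [h2]
      refine h1.trans (Real.rpow_le_rpow_of_exponent_le hX3 (by linarith))
  · rw [one_mul, Finset.card_image_of_injOn]
    · refine le_trans (Real.rpow_le_rpow_of_exponent_le hX3 ?_) hc
      linarith
    · intro z hz w hw hzw
      exact ini_inj (hT z hz).2.1 (hT w hw).2.1 hzw

end Pool.Agent.K1H71.NX
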