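import Pool.Agent.K1H71.NX.Expl
import Pool.Agent.K1H71.NX.T_BB
import Pool.Agent.K1H71.NX.T_COMP
import Pool.Agent.K1H71.NX.T_MONO
import Pool.Agent.K1H71.NX.T_NVS
import Pool.Agent.K1H71.NX.T_POS1
import Pool.Agent.K1H71.NX.T_POS2
import Pool.Agent.K1H71.NX.T_WAR

/-!
# The exponent of the number of exceptions to the n-term abc inequality for many terms

For a fixed exponent `M` and any constant `K` the number of the admissible `n`-tuples with radical at
most `X` which violate `max |x_j| ≤ K rad (x_1 ⋯ x_n) ^ M` is at least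
`X ^ (1 - (M + 1) / log n - δ)`, and the number of those of height at most `B` is at least
`B ^ (1 / M - ε)` for all `n ≥ n₀ (M, ε)`. So no upper bound for these numbers has a saving in the
exponent which is independent of `n`.
-/

set_option autoImplicit false

namespace Pool.Agent.Results.MP_a95293_nt.ManyTerms

open Finset

/-- the tuples of the problem: coprime integers with sum zero and no vanishing proper subsum -/
def Admissible {n : ℕ} (x : Fin n → ℤ) : Prop :=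
  univ.gcd x = 1 ∧ ∑ i, x i = 0 ∧
    ∀ I : Finset (Fin n), I.Nonempty → I ≠ univ → ∑ i ∈ I, x i ≠ 0

/-- `rad (x_1 ⋯ x_n)`: the product of the primes that divide the product of the coordinates -/
def rad {n : ℕ} (x : Fin n → ℤ) : ℕ := ∏ p ∈ (∏ i, x i).natAbs.primeFactors, p

/-- `max |x_i|` -/
def height {n : ℕ} (x : Fin n → ℤ) : ℕ := univ.sup fun i => (x i).natAbs

/-- the admissible tuples with `rad ≤ X` and `K rad ^ M < max |x_i| ≤ X ^ (2 n)` -/
def ByRadical (n : ℕ) (M K X : ℝ) : Set (Fin n → ℤ) :=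
  {x | Admissible x ∧ (rad x : ℝ) ≤ X ∧ K * (rad x : ℝ) ^ M < height x ∧
    (height x : ℝ) ≤ X ^ (2 * n)}

/-- the admissible tuples with `K rad ^ M < max |x_i| ≤ B` -/
def ByHeight (n : ℕ) (M K B : ℝ) : Set (Fin n → ℤ) :=
  {x | Admissible x ∧ K * (rad x : ℝ) ^ M < height x ∧ (height x : ℝ) ≤ B}

open Pool.Agent.K1H71.NX (LB Adm)
open Pool.Agent.K1H71.NX.Main

theorem le_height {n : ℕ} (x : Fin n → ℤ) (i : Fin n) : |(x i : ℝ)| ≤ height x := by
  have h : (x i).natAbs ≤ height x := le_sup (f := fun i => (x i).natAbs) (mem_univ i)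
  rw [← Int.cast_abs, ← Nat.cast_natAbs]
  exact_mod_cast h

theorem height_le {n : ℕ} {x : Fin n → ℤ} {B : ℝ} (hB : 0 ≤ B) (h : ∀ i, |(x i : ℝ)| ≤ B) :
    (height x : ℝ) ≤ B := by
  have h1 : height x ≤ ⌊B⌋₊ := Finset.sup_le fun i _ => Nat.le_floor (by
    have := h i
    rw [← Int.cast_abs, ← Nat.cast_natAbs] at this
    exact_mod_cast this)
  exact (Nat.cast_le.2 h1).trans (Nat.floor_le hB)

theorem finite_box (n : ℕ) (B : ℝ) : {x : Fin n → ℤ | (height x : ℝ) ≤ B}.Finite := by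
  refine Set.Finite.subset (Finset.finite_toSet
    (Fintype.piFinset fun _ : Fin n => Icc (-(⌊B⌋₊ : ℤ)) ⌊B⌋₊)) ?_
  intro x hx
  have hx' : (height x : ℝ) ≤ B := hx
  rw [mem_coe, Fintype.mem_piFinset]
  intro j
  have h3 : (x j).natAbs ≤ ⌊B⌋₊ := by
    have h4 : (x j).natAbs ≤ height x := le_sup (f := fun i => (x i).natAbs) (mem_univ j)
    exact h4.trans (Nat.le_floor hx')
  rw [mem_Icc]
  omega

theorem card_le {n : ℕ} {S : Set (Fin n → ℤ)} {B : ℝ} (hS : ∀ x ∈ S, (height x : ℝ) ≤ B)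
    {T : Finset (Fin n → ℤ)} (hT : ∀ x ∈ T, x ∈ S) : (T.card : ℝ) ≤ (S.ncard : ℝ) := by
  have hfin : S.Finite := (finite_box n B).subset hS
  have h := Set.ncard_le_ncard (s := (T : Set (Fin n → ℤ))) (t := S) (fun x hx => hT x hx) hfin
  rw [Set.ncard_coe_finset] at h
  exact_mod_cast h

theorem byRadical_card {n : ℕ} {M K X : ℝ} (hX : 0 ≤ X) {T : Finset (Fin n → ℤ)}
    (hT : ∀ x ∈ T, Pool.Agent.K1H71.NX.Good M K X (X ^ ((2 * n : ℕ) : ℝ)) x) :
    (T.card : ℝ) ≤ ((ByRadical n M K X).ncard : ℝ) := by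
  refine card_le (B := X ^ (2 * n)) (fun x hx => hx.2.2.2) fun x hx => ?_
  obtain ⟨h1, h2, ⟨i, hi⟩, h4⟩ := hT x hx
  refine ⟨h1, h2, lt_of_lt_of_le hi (le_height x i), height_le (by positivity) fun j => ?_⟩
  rw [← Real.rpow_natCast]
  exact h4 j

/-- **Exceptions with many terms.** Let `K > 0`. (1) If `m ≥ 1`, `N ≥ 3`,
`binom (m + N - 2) m + 1 ≤ n` and `0 ≤ M < m`, then at least
`X ^ (min (1 - 1 / N) (1 - M / m) - δ)` admissible `n`-tuples with radical at most `X` satisfy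
`K rad ^ M < max |x_i| ≤ X ^ (2 n)`. (2) For `0 ≤ M < log n - 1` at least
`X ^ (1 - (M + 1) / log n - δ)` of them do. (3) For `M, ε > 0` and `n ≥ n₀ (M, ε)` at least
`B ^ (1 / M - ε)` admissible `n`-tuples satisfy `K rad ^ M < max |x_i| ≤ B`. -/
theorem result :
    (∀ n m N : ℕ, 1 ≤ m → 3 ≤ N → (m + N - 2).choose m + 1 ≤ n → ∀ M : ℝ, 0 ≤ M → M < m →
      ∀ K : ℝ, 0 < K → ∀ δ : ℝ, 0 < δ → ∃ X₀ : ℝ, ∀ X : ℝ, X₀ ≤ X →
        X ^ (min (1 - 1 / (N : ℝ)) (1 - M / m) - δ) ≤ ((ByRadical n M K X).ncard : ℝ)) ∧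
    (∀ n : ℕ, 3 ≤ n → ∀ M : ℝ, 0 ≤ M → M + 1 < Real.log n → ∀ K : ℝ, 0 < K → ∀ δ : ℝ, 0 < δ →
      ∃ X₀ : ℝ, ∀ X : ℝ, X₀ ≤ X →
        X ^ (1 - (M + 1) / Real.log n - δ) ≤ ((ByRadical n M K X).ncard : ℝ)) ∧
    (∀ M : ℝ, 0 < M → ∀ ε : ℝ, 0 < ε → ∃ n₀ : ℕ, ∀ n : ℕ, n₀ ≤ n → ∀ K : ℝ, 0 < K →
      ∃ B₀ : ℝ, ∀ B : ℝ, B₀ ≤ B → B ^ (1 / M - ε) ≤ ((ByHeight n M K B).ncard : ℝ)) := by
  have hmono := Pool.Agent.K1H71.NX.t_MONO
  have hcomp := Pool.Agent.K1H71.NX.t_COMP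
  have hp1 := Pool.Agent.K1H71.NX.t_POS1
  have hp2 := Pool.Agent.K1H71.NX.t_POS2
  have hB := Pool.Agent.K1H71.NX.t_BB Pool.Agent.K1H71.NX.t_WAR Pool.Agent.K1H71.NX.t_NVS
  have key3 : ∀ n m N : ℕ, 1 ≤ m → 3 ≤ N → (m + N - 2).choose m + 1 ≤ n → ∀ M : ℝ, 0 ≤ M → M < m →
      ∀ K : ℝ, 0 < K → ∀ δ : ℝ, 0 < δ → ∃ X₀ : ℝ, ∀ X : ℝ, X₀ ≤ X →
        X ^ (min (1 - 1 / (N : ℝ)) (1 - M / m) - δ) ≤ ((ByRadical n M K X).ncard : ℝ) := by
    intro n m N hm hN hn M hM hMm K hK δ hδ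
    obtain ⟨h, rfl⟩ : ∃ h, N = h + 1 := ⟨N - 1, by omega⟩
    have hh : 2 ≤ h := by omega
    rw [show m + (h + 1) - 2 = m + h - 1 by omega] at hn
    obtain ⟨δ', hδ'⟩ : ∃ δ' : ℝ, δ' = min (δ / 2) 1 := ⟨_, rfl⟩
    have hδ'0 : 0 < δ' := by rw [hδ']; exact lt_min (by linarith) one_pos
    have hδ'1 : δ' ≤ 1 := by rw [hδ']; exact min_le_right _ _
    have hδ'2 : δ' ≤ δ / 2 := by rw [hδ']; exact min_le_left _ _
    have h1 := two hmono hcomp hp1 hp2 hB hh hm hn hM hMm hδ'0 hδ'1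
    have hmn : m + 1 < n := by
      have : m + 1 ≤ (m + h - 1).choose m := by
        calc m + 1 = (m + 1).choose m := by rw [Nat.choose_succ_self_right]
          _ ≤ (m + h - 1).choose m := Nat.choose_le_choose m (by omega)
      omega
    have e1 : (h : ℝ) / ((h : ℝ) + 1) = 1 - 1 / (((h + 1 : ℕ) : ℝ)) := by
      push_cast
      field_simp
      ring
    rw [e1] at h1
    obtain ⟨X₀, hX₀⟩ := count h1 (A' := ((2 * n : ℕ) : ℝ))
      (e' := min (1 - 1 / (((h + 1 : ℕ) : ℝ))) (1 - M / m) - δ) (by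
        push_cast
        have : (m : ℝ) < n := by exact_mod_cast (by omega : m < n)
        linarith) (by linarith) hK
    refine ⟨max X₀ 0, fun X hX => ?_⟩
    obtain ⟨T, hT1, hT2⟩ := hX₀ X ((le_max_left _ _).trans hX)
    exact hT2.trans (byRadical_card ((le_max_right _ _).trans hX) hT1)
  refine ⟨key3, ?_, ?_⟩
  · intro n hn M hM hMn K hK δ hδ
    obtain ⟨h, m, hh, hm, hMm, hnm, hmin⟩ := params hM hMn
    obtain ⟨X₀, hX₀⟩ := key3 n m (h + 1) hm (by omega) (by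
      rw [show m + (h + 1) - 2 = m + h - 1 by omega]
      exact hnm) M hM hMm K hK δ hδ
    refine ⟨max X₀ 1, fun X hX => ?_⟩
    refine le_trans ?_ (hX₀ X ((le_max_left _ _).trans hX))
    refine Real.rpow_le_rpow_of_exponent_le ((le_max_right _ _).trans hX) ?_
    have e1 : (h : ℝ) / ((h : ℝ) + 1) = 1 - 1 / (((h + 1 : ℕ) : ℝ)) := by
      push_cast
      field_simp
      ring
    rw [← e1]
    linarith
  · intro M hM ε hε
    obtain ⟨m, hm⟩ : ∃ m : ℕ, m = ⌊max (2 * M) (4 / ε)⌋₊ + 1 := ⟨_, rfl⟩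
    have hm1 : 1 ≤ m := by omega
    have hm2 : max (2 * M) (4 / ε) < m := by rw [hm]; push_cast; exact Nat.lt_floor_add_one _
    have hm3 : 2 * M < m := lt_of_le_of_lt (le_max_left _ _) hm2
    have hm4 : 4 / ε < m := lt_of_le_of_lt (le_max_right _ _) hm2
    have hm0 : (0 : ℝ) < m := by exact_mod_cast hm1
    obtain ⟨q, hq⟩ : ∃ q : ℕ, q = ⌈(m : ℝ) / M⌉₊ := ⟨_, rfl⟩
    have hq1 : (m : ℝ) / M ≤ q := by rw [hq]; exact Nat.le_ceil _
    have hq2 : (q : ℝ) < (m : ℝ) / M + 1 := by rw [hq]; exact Nat.ceil_lt_add_one (by positivity)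
    have hq3 : 3 ≤ q := by
      have h1 : 2 < (m : ℝ) / M := by rw [lt_div_iff₀ hM]; exact hm3
      have : (2 : ℝ) < q := by linarith
      have : 2 < q := by exact_mod_cast this
      omega
    obtain ⟨h, rfl⟩ : ∃ h, q = h + 1 := ⟨q - 1, by omega⟩
    push_cast at hq1 hq2
    have hh0 : (0 : ℝ) < h := by
      have : 0 < h := by omega
      exact_mod_cast this
    obtain ⟨δ, hδ⟩ : ∃ δ : ℝ, δ = ε * M / (4 * (1 + m / M)) := ⟨_, rfl⟩
    have hδ0 : 0 < δ := by rw [hδ]; positivity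
    refine ⟨(m + h - 1).choose m + 1, fun n hn K hK => ?_⟩
    have h1 := mid hmono hcomp hp2 (n := n) (h := h) (m := m) (M := M) (δ := δ) (by omega) hm1 hn hM
      (by
        rw [div_le_div_iff₀ (by positivity) hm0]
        rw [div_le_iff₀ hM] at hq1
        linarith) (by
        rw [div_lt_div_iff₀ hm0 hh0]
        have : (h : ℝ) < (m : ℝ) / M := by linarith
        rw [lt_div_iff₀ hM] at this
        linarith) hδ0
    have hA : 0 < M + m * δ := by positivity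
    obtain ⟨c, B₀, hc, hB₀⟩ := count_ht h1 hA hK
    have hgap : 1 / M - ε < (1 - M / m - δ) / (M + m * δ) := by
      rw [lt_div_iff₀ hA]
      have e1 : (1 / M - ε) * (M + m * δ) = 1 + m / M * δ - ε * M - ε * m * δ := by
        field_simp
        ring
      rw [e1]
      have e2 : M / m < ε * M / 4 := by
        rw [div_lt_iff₀ hε] at hm4
        rw [div_lt_div_iff₀ hm0 (by norm_num)]
        nlinarith
      have e3 : δ * (1 + m / M) = ε * M / 4 := by
        rw [hδ]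
        field_simp
      have e4 : 0 < ε * m * δ := by positivity
      have e5 : 0 < ε * M := by positivity
      nlinarith
    have htend : Filter.Tendsto (fun B : ℝ => B ^ ((1 - M / m - δ) / (M + m * δ) - (1 / M - ε)))
        Filter.atTop Filter.atTop := tendsto_rpow_atTop (by linarith)
    obtain ⟨B₁, hB₁⟩ := Filter.eventually_atTop.1
      (htend.eventually (Filter.eventually_ge_atTop (1 / c)))
    refine ⟨max (max B₀ 1) B₁, fun B hB => ?_⟩
    have g0 : B₀ ≤ B := (le_max_left _ _).trans ((le_max_left _ _).trans hB)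
    have g1 : 1 ≤ B := (le_max_right _ _).trans ((le_max_left _ _).trans hB)
    have g2 := hB₁ B ((le_max_right _ _).trans hB)
    have hB0 : 0 < B := by linarith
    obtain ⟨T, hT1, hT2⟩ := hB₀ B g0
    have h5 : (T.card : ℝ) ≤ ((ByHeight n M K B).ncard : ℝ) := by
      refine card_le (B := B) (fun x hx => hx.2.2) fun x hx => ?_
      obtain ⟨k1, ⟨i, hi⟩, k3⟩ := hT1 x hx
      exact ⟨k1, lt_of_lt_of_le hi (le_height x i), height_le hB0.le k3⟩
    refine le_trans ?_ (hT2.trans h5)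
    rw [div_le_iff₀ hc] at g2
    calc B ^ (1 / M - ε) ≤ (B ^ ((1 - M / m - δ) / (M + m * δ) - (1 / M - ε)) * c) *
          B ^ (1 / M - ε) := le_mul_of_one_le_left (by positivity) g2
      _ = c * (B ^ ((1 - M / m - δ) / (M + m * δ) - (1 / M - ε)) * B ^ (1 / M - ε)) := by ring
      _ = c * B ^ ((1 - M / m - δ) / (M + m * δ)) := by
          rw [← Real.rpow_add hB0]
          congr 2
          ring

end Pool.Agent.Results.MP_a95293_nt.ManyTerms
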